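import Mathlib

set_option autoImplicit false

/-!
# The affine `L^p` energy and the reverse affine Sobolev inequality: definitions

`E n` is Euclidean space of dimension `n`. Vector fields `g : E n → E n` play the role of `∇ f`.
-/

namespace Pool.Agent.Lib.MP_9c48c1_an

open MeasureTheory Filter Topology

/-- Euclidean space `ℝ^n`. -/
abbrev E (n : ℕ) : Type := EuclideanSpace ℝ (Fin n)

/-- `ω_k = π^(k/2) / Γ(1 + k/2)`. -/
noncomputable def omega (k : ℝ) : ℝ := Real.pi ^ (k / 2) / Real.Gamma (1 + k / 2)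

/-- The normalising constant
`c_{n,p} = (n ω_n ω_{p-1} / (2 ω_{n+p-2}))^(1/p) (n ω_n)^(1/n)`. -/
noncomputable def cnp (n : ℕ) (p : ℝ) : ℝ :=
  (n * omega n * omega (p - 1) / (2 * omega (n + p - 2))) ^ (1 / p) *
    (n * omega n) ^ (1 / (n : ℝ))

/-- The `L^p` norm `‖f‖_p = (∫ |f|^p)^(1/p)` of a function. -/
noncomputable def lpNorm {n : ℕ} (p : ℝ) (f : E n → ℝ) : ℝ := (∫ x, |f x| ^ p) ^ (1 / p)

/-- The `L^p` norm `(∫ |g|^p)^(1/p)` of a vector field (for `g = ∇ f` this is `‖∇ f‖_p`). -/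
noncomputable def gradNorm {n : ℕ} (p : ℝ) (g : E n → E n) : ℝ := (∫ x, ‖g x‖ ^ p) ^ (1 / p)

/-- `‖∇_ξ f‖_p = (∫ |⟨∇ f(x), ξ⟩|^p dx)^(1/p)` for `g = ∇ f`. -/
noncomputable def dirNorm {n : ℕ} (p : ℝ) (g : E n → E n) (ξ : E n) : ℝ :=
  (∫ x, |inner ℝ (g x) ξ| ^ p) ^ (1 / p)

/-- The affine `L^p` energy `c_{n,p} (∫_{S^(n-1)} ‖∇_ξ f‖_p^(-n) dξ)^(-1/n)` for `g = ∇ f`;
`volume.toSphere` is the surface measure of the unit sphere. -/
noncomputable def affEnergy {n : ℕ} (p : ℝ) (g : E n → E n) : ℝ :=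
  cnp n p * (∫ ξ : Metric.sphere (0 : E n) 1, dirNorm p g ξ ^ (-(n : ℝ))
    ∂(volume : Measure (E n)).toSphere) ^ (-(1 / (n : ℝ)))

/-- The admissible functions: `C^1` functions on `ℝ^n` with support in `Ω`. -/
def Adm {n : ℕ} (Ω : Set (E n)) (f : E n → ℝ) : Prop := ContDiff ℝ 1 f ∧ tsupport f ⊆ Ω

/-- The right-hand side `‖f‖_p^((n-1)/n) ‖∇ f‖_p^(1/n)` (without the constant), `g = ∇ f`. -/
noncomputable def rhs {n : ℕ} (p : ℝ) (f : E n → ℝ) (g : E n → E n) : ℝ :=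
  lpNorm p f ^ (((n : ℝ) - 1) / n) * gradNorm p g ^ (1 / (n : ℝ))

/-- `A = A_{n,p}(Ω)`: the largest constant such that
`E_p f ≥ A ‖f‖_p^((n-1)/n) ‖∇ f‖_p^(1/n)` for every admissible `f`. -/
def IsBestConst {n : ℕ} (p : ℝ) (Ω : Set (E n)) (A : ℝ) : Prop :=
  IsGreatest {A : ℝ | ∀ f : E n → ℝ, Adm Ω f → A * rhs p f (gradient f) ≤ affEnergy p (gradient f)} A

/-- `f ∈ W^{1,p}_0(Ω)` with weak gradient `g`: both are in `L^p` and they are limits in `L^p` of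
`u k` and `∇ (u k)` for a sequence of admissible functions `u k`. -/
def MemW0 {n : ℕ} (p : ℝ) (Ω : Set (E n)) (f : E n → ℝ) (g : E n → E n) : Prop :=
  MemLp f (ENNReal.ofReal p) ∧ MemLp g (ENNReal.ofReal p) ∧
    ∃ u : ℕ → E n → ℝ, (∀ k, Adm Ω (u k)) ∧
      Tendsto (fun k => eLpNorm (u k - f) (ENNReal.ofReal p) volume) atTop (𝓝 0) ∧
      Tendsto (fun k => eLpNorm (gradient (u k) - g) (ENNReal.ofReal p) volume) atTop (𝓝 0)

/-- The open rhombus with vertices `(±1/2, 0)` and `(0, ±1/20)` in the plane. -/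
def rhombus : Set (E 2) := {x | 2 * |x 0| + 20 * |x 1| < 1}

/-- The open box with side lengths `a i`, centred at the origin, in `ℝ^n`. -/
def box {n : ℕ} (a : Fin n → ℝ) : Set (E n) := {x | ∀ i, |x i| < a i / 2}

/-- The number `(n^n π^(2(n-1)) / ((∏ a_i²) (∑ 1 / a_i²)))^(1/(2n))`. -/
noncomputable def boxConst {n : ℕ} (a : Fin n → ℝ) : ℝ :=
  ((n : ℝ) ^ n * Real.pi ^ (2 * (n - 1)) / ((∏ i, a i ^ 2) * ∑ i, 1 / a i ^ 2)) ^
    (1 / (2 * (n : ℝ)))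

/-- The function `∏ cos (π x_i / a_i)` on the box, `0` outside. -/
noncomputable def cosProd {n : ℕ} (a : Fin n → ℝ) : E n → ℝ :=
  (box a).indicator fun x => ∏ i, Real.cos (Real.pi * x i / a i)

end Pool.Agent.Lib.MP_9c48c1_an
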