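import Mathlib
import Pool.Agent.Lib.MP_9c48c1_an.Defs

set_option autoImplicit false

/-! The directional Poincaré inequality with sharp constant for functions supported in a slab. -/

namespace Pool.Agent.Lib.MP_9c48c1_an

open MeasureTheory Set Filter Topology

variable {n : ℕ}

lemma tan_hasFDerivAt (k : Fin n) (α : ℝ) {x : E n} (hx : Real.cos (α * x k) ≠ 0) :
    HasFDerivAt (fun x : E n => Real.tan (α * x k))
      ((1 / Real.cos (α * x k) ^ 2) • (α • (EuclideanSpace.proj k : E n →L[ℝ] ℝ))) x := by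
  have h1 : HasFDerivAt (fun x : E n => α * x k) (α • (EuclideanSpace.proj k : E n →L[ℝ] ℝ)) x :=
    (EuclideanSpace.proj k : E n →L[ℝ] ℝ).hasFDerivAt.const_mul α
  exact (Real.hasDerivAt_tan hx).comp_hasFDerivAt x h1

lemma cos_pos_of_slab {a t : ℝ} (ha : 0 < a) (h : |t| < a / 2) : 0 < Real.cos (Real.pi / a * t) := by
  have hpi := Real.pi_pos
  have h' := abs_lt.1 h
  refine Real.cos_pos_of_mem_Ioo ⟨?_, ?_⟩
  · have : -(Real.pi / 2) = Real.pi / a * (-(a / 2)) := by field_simp
    rw [this]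
    exact mul_lt_mul_of_pos_left (by linarith [h'.1]) (by positivity)
  · have : Real.pi / 2 = Real.pi / a * (a / 2) := by field_simp
    rw [this]
    exact mul_lt_mul_of_pos_left h'.2 (by positivity)

/-- Sharp Poincaré inequality in a direction `v`. -/
lemma dir_ineq {f : E n → ℝ} (hf : ContDiff ℝ 1 f) (hcs : HasCompactSupport f) {k : Fin n} {a : ℝ}
    (ha : 0 < a) (hsupp : ∀ x ∈ tsupport f, |x k| < a / 2) (v : E n) :
    Real.pi ^ 2 * (∫ x, f x ^ 2) / a ^ 2 * v k ^ 2 ≤ ∫ x, (fderiv ℝ f x v) ^ 2 := by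
  obtain ⟨T, hTdef⟩ : ∃ T : E n → ℝ, T = fun x => Real.tan (Real.pi / a * x k) := ⟨_, rfl⟩
  obtain ⟨c, hc⟩ : ∃ c : ℝ, c = Real.pi / a * v k := ⟨_, rfl⟩
  have hcos : ∀ x ∈ tsupport f, Real.cos (Real.pi / a * x k) ≠ 0 := fun x hx =>
    (cos_pos_of_slab ha (hsupp x hx)).ne'
  have hTd : ∀ x ∈ tsupport f, HasFDerivAt T
      ((1 / Real.cos (Real.pi / a * x k) ^ 2) • ((Real.pi / a) • (EuclideanSpace.proj k : E n →L[ℝ] ℝ))) x := by
    intro x hx
    rw [hTdef]
    exact tan_hasFDerivAt k _ (hcos x hx)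
  have hTv : ∀ x ∈ tsupport f, fderiv ℝ T x v = c * (1 + T x ^ 2) := by
    intro x hx
    rw [(hTd x hx).fderiv]
    simp only [smul_apply, smul_eq_mul]
    have e1 : (EuclideanSpace.proj k : E n →L[ℝ] ℝ) v = v k := rfl
    rw [e1, hc]
    have e2 : 1 + T x ^ 2 = 1 / Real.cos (Real.pi / a * x k) ^ 2 := by
      have h := hcos x hx
      rw [hTdef]
      simp only [Real.tan_eq_sin_div_cos]
      generalize Real.pi / a * x k = θ at h
      have := Real.sin_sq_add_cos_sq θ
      field_simp
      linarith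
    rw [e2]; ring
  obtain ⟨D, hD⟩ : ∃ D : E n → ℝ, D = fun x => fderiv ℝ f x v := ⟨_, rfl⟩
  have hDc : Continuous D := by
    rw [hD]; exact (hf.continuous_fderiv one_ne_zero).clm_apply continuous_const
  have hDcs : HasCompactSupport D := by
    rw [hD]; exact hcs.fderiv_apply (𝕜 := ℝ) v
  obtain ⟨h, hh⟩ : ∃ h : E n → ℝ, h = fun x => T x * f x := ⟨_, rfl⟩
  have hhsub : tsupport h ⊆ tsupport f := by
    rw [hh]; exact tsupport_mul_subset_right
  have hhc : Continuous h := by
    refine continuous_of_tsupport fun x hx => ?_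
    rw [hh]
    exact (hTd x (hhsub hx)).continuousAt.mul hf.continuous.continuousAt
  have hhcs : HasCompactSupport h := hcs.of_isClosed_subset (isClosed_tsupport _) hhsub
  -- integration by parts
  have hf2 : ∀ x, fderiv ℝ (fun x => f x ^ 2) x v = 2 * f x * D x := by
    intro x
    have h1 : HasFDerivAt (fun x => f x ^ 2) _ x := ((hf.differentiable one_ne_zero x).hasFDerivAt.pow 2)
    rw [h1.fderiv, hD]
    simp
  have hs2 : tsupport (fun x => f x ^ 2) ⊆ tsupport f := by
    refine closure_mono fun x hx => ?_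
    intro h0
    apply hx
    simp only
    rw [h0]; simp
  have e1 : (fun x => fderiv ℝ T x v * f x ^ 2) = fun x => c * (f x ^ 2 + h x ^ 2) := by
    funext x
    by_cases hx : x ∈ tsupport f
    · rw [hTv x hx, hh]; ring
    · have h0 : f x = 0 := image_eq_zero_of_notMem_tsupport hx
      rw [hh]; simp [h0]
  have e2 : (fun x => T x * fderiv ℝ (fun x => f x ^ 2) x v) = fun x => 2 * (h x * D x) := by
    funext x
    rw [hf2, hh]; ring
  have iff : Integrable (fun x => f x ^ 2) := by
    have h1 : Continuous (fun x => f x ^ 2) := by have := hf.continuous; fun_prop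
    exact h1.integrable_of_hasCompactSupport (hcs.comp_left (g := fun t : ℝ => t ^ 2) (by simp))
  have ihh : Integrable (fun x => h x ^ 2) := by
    have h1 : Continuous (fun x => h x ^ 2) := by fun_prop
    exact h1.integrable_of_hasCompactSupport (hhcs.comp_left (g := fun t : ℝ => t ^ 2) (by simp))
  have iDD : Integrable (fun x => D x ^ 2) := by
    have h1 : Continuous (fun x => D x ^ 2) := by fun_prop
    exact h1.integrable_of_hasCompactSupport (hDcs.comp_left (g := fun t : ℝ => t ^ 2) (by simp))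
  have ihD : Integrable (fun x => h x * D x) := by
    have h1 : Continuous (fun x => h x * D x) := by fun_prop
    exact h1.integrable_of_hasCompactSupport (hhcs.mul_right)
  have iTf : Integrable (fun x => T x * f x ^ 2) := by
    have h2 : (fun x => T x * f x ^ 2) = fun x => h x * f x := by funext x; rw [hh]; ring
    rw [h2]
    have h1 : Continuous (fun x => h x * f x) := hhc.mul hf.continuous
    exact h1.integrable_of_hasCompactSupport (hhcs.mul_right)
  have hparts := integral_mul_fderiv_eq_neg_fderiv_mul_of_integrable (μ := (volume : Measure (E n)))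
    (f := T) (g := fun x => f x ^ 2) (v := v)
    (by rw [e1]; exact (iff.add ihh).const_mul c)
    (by rw [e2]; exact ihD.const_mul 2)
    iTf
    (fun x hx => (hTd x (hs2 hx)).differentiableAt)
    (fun x _ => (hf.differentiable one_ne_zero x).pow 2)
  rw [e1, e2, integral_const_mul, integral_const_mul] at hparts
  have hadd : ∫ x, (f x ^ 2 + h x ^ 2) = (∫ x, f x ^ 2) + ∫ x, h x ^ 2 := integral_add iff ihh
  rw [hadd] at hparts
  have hsq : 0 ≤ ∫ x, (D x + c * h x) ^ 2 := integral_nonneg fun x => sq_nonneg _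
  have e3 : (fun x => (D x + c * h x) ^ 2) = fun x => D x ^ 2 + ((2 * c) * (h x * D x) + c ^ 2 * h x ^ 2) := by
    funext x; ring
  have h4 : ∫ x, (D x ^ 2 + ((2 * c) * (h x * D x) + c ^ 2 * h x ^ 2)) =
      (∫ x, D x ^ 2) + ∫ x, ((2 * c) * (h x * D x) + c ^ 2 * h x ^ 2) :=
    integral_add iDD ((ihD.const_mul _).add (ihh.const_mul _))
  have h5 : ∫ x, ((2 * c) * (h x * D x) + c ^ 2 * h x ^ 2) =
      (∫ x, (2 * c) * (h x * D x)) + ∫ x, c ^ 2 * h x ^ 2 :=
    integral_add (ihD.const_mul _) (ihh.const_mul _)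
  rw [e3, h4, h5, integral_const_mul, integral_const_mul] at hsq
  have h6 : Real.pi ^ 2 * (∫ x, f x ^ 2) / a ^ 2 * v k ^ 2 = c ^ 2 * ∫ x, f x ^ 2 := by
    rw [hc]; field_simp
  rw [h6]
  have h7 : ∫ x, (fderiv ℝ f x v) ^ 2 = ∫ x, D x ^ 2 := by rw [hD]
  rw [h7]
  have h8 : 2 * c * (∫ x, h x * D x) = -(c ^ 2 * (∫ x, f x ^ 2) + c ^ 2 * ∫ x, h x ^ 2) := by
    linear_combination c * hparts
  linarith

end Pool.Agent.Lib.MP_9c48c1_an
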