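import Mathlib

set_option autoImplicit false

/-! A determinant inequality for positive definite matrices. -/

namespace Pool.Agent.Lib.MP_9c48c1_an

open Matrix

variable {n : ℕ}

lemma det_le_one {K : Matrix (Fin n) (Fin n) ℝ} (hK : K.PosDef) (h : ∀ i, K i i ≤ 1) :
    K.det ≤ 1 := by
  have hH := hK.isHermitian
  rw [hH.det_eq_prod_eigenvalues]
  have htr : ∑ i, hH.eigenvalues i = K.trace := by
    rw [hH.trace_eq_sum_eigenvalues]; simp
  have hle : ∑ i, (hH.eigenvalues i - 1) ≤ 0 := by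
    rw [Finset.sum_sub_distrib, htr]
    have : K.trace ≤ ∑ i : Fin n, (1 : ℝ) := Finset.sum_le_sum fun i _ => h i
    linarith
  calc ∏ i, ((hH.eigenvalues i : ℝ)) ≤ ∏ i, Real.exp (hH.eigenvalues i - 1) := by
        refine Finset.prod_le_prod (fun i _ => (hK.eigenvalues_pos i).le) fun i _ => ?_
        have := Real.add_one_le_exp (hH.eigenvalues i - 1)
        linarith
    _ = Real.exp (∑ i, (hH.eigenvalues i - 1)) := (Real.exp_sum _ _).symm
    _ ≤ 1 := Real.exp_le_one_iff.2 hle

lemma prod_le_det {M : Matrix (Fin n) (Fin n) ℝ} (hM : M.PosDef) {c : Fin n → ℝ}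
    (hc : ∀ k, 0 < c k) (h : ∀ (v : Fin n → ℝ) k, c k * v k ^ 2 ≤ v ⬝ᵥ (M *ᵥ v)) :
    ∏ k, c k ≤ M.det := by
  have hdet := hM.det_pos
  have hu : IsUnit M.det := isUnit_iff_ne_zero.2 hdet.ne'
  let D : Matrix (Fin n) (Fin n) ℝ := diagonal fun k => Real.sqrt (c k)
  have hD : Dᴴ = D := by simp [D]
  have hDdet : D.det ^ 2 = ∏ k, c k := by
    simp only [D, det_diagonal]
    rw [← Finset.prod_pow]
    exact Finset.prod_congr rfl fun k _ => Real.sq_sqrt (hc k).le
  have hDne : D.det ≠ 0 := by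
    intro h0
    have : 0 < ∏ k, c k := Finset.prod_pos fun k _ => hc k
    rw [← hDdet, h0] at this
    norm_num at this
  have hDinj : Function.Injective D.mulVec :=
    Matrix.mulVec_injective_iff_isUnit.2 ((Matrix.isUnit_iff_isUnit_det _).2
      (isUnit_iff_ne_zero.2 hDne))
  have hK : (Dᴴ * M⁻¹ * D).PosDef := hM.inv.conjTranspose_mul_mul_same hDinj
  rw [hD] at hK
  have hdiag : ∀ i, (D * M⁻¹ * D) i i ≤ 1 := by
    intro i
    have e1 : (D * M⁻¹ * D) i i = c i * M⁻¹ i i := by
      simp only [D, mul_diagonal, diagonal_mul]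
      rw [mul_right_comm, Real.mul_self_sqrt (hc i).le]
    rw [e1]
    have hv : 0 < M⁻¹ i i := by
      have := hM.inv.diag_pos (i := i)
      exact this
    have h2 := h (fun k => M⁻¹ k i) i
    have h3 : M *ᵥ (fun k => M⁻¹ k i) = fun k => (1 : Matrix (Fin n) (Fin n) ℝ) k i := by
      funext k
      rw [← mul_nonsing_inv M hu]
      rfl
    rw [h3] at h2
    have h4 : (fun k => M⁻¹ k i) ⬝ᵥ (fun k => (1 : Matrix (Fin n) (Fin n) ℝ) k i) = M⁻¹ i i := by
      simp [dotProduct, Matrix.one_apply]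
    rw [h4] at h2
    by_contra hcon
    push Not at hcon
    nlinarith
  have h5 := det_le_one hK hdiag
  rw [det_mul, det_mul, det_nonsing_inv, Ring.inverse_eq_inv'] at h5
  have h6 : D.det * M.det⁻¹ * D.det = (∏ k, c k) / M.det := by rw [← hDdet]; field_simp
  rw [h6, div_le_one hdet] at h5
  exact h5

lemma diag_mul_prod_le_det {M : Matrix (Fin n) (Fin n) ℝ} (hM : M.PosDef) {c : Fin n → ℝ}
    (hc : ∀ k, 0 < c k) (h : ∀ (v : Fin n → ℝ) k, c k * v k ^ 2 ≤ v ⬝ᵥ (M *ᵥ v)) (i : Fin n) :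
    ∏ k, Function.update c i (M i i) k ≤ M.det := by
  have hii : 0 < M i i := hM.diag_pos
  let w : Fin n → ℝ := Function.update (fun k => M i k / M i i) i 0
  let T : Matrix (Fin n) (Fin n) ℝ :=
    1 + replicateCol Unit (-(Pi.single i (1 : ℝ))) * replicateRow Unit w
  have hT : T.det = 1 := by
    simp only [T]
    rw [det_one_add_replicateCol_mul_replicateRow]
    simp [w]
  have hTv : ∀ v : Fin n → ℝ, T *ᵥ v = v - Pi.single i (w ⬝ᵥ v) := by
    intro v
    funext k
    simp only [T, add_mulVec, one_mulVec, Pi.add_apply, Pi.sub_apply]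
    simp only [mulVec, dotProduct, mul_apply, replicateCol_apply, replicateRow_apply,
      Finset.univ_unique, Finset.sum_singleton, Pi.neg_apply]
    by_cases hk : k = i
    · subst hk
      simp [sub_eq_add_neg, Finset.sum_neg_distrib]
    · simp [Pi.single_eq_of_ne hk]
  have hTinj : Function.Injective T.mulVec :=
    Matrix.mulVec_injective_iff_isUnit.2 ((Matrix.isUnit_iff_isUnit_det _).2 (by rw [hT]; exact isUnit_one))
  have hM' : (Tᴴ * M * T).PosDef := hM.conjTranspose_mul_mul_same hTinj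
  have hdet : (Tᴴ * M * T).det = M.det := by
    rw [det_mul, det_mul, conjTranspose_eq_transpose_of_trivial, det_transpose, hT]; ring
  rw [← hdet]
  refine prod_le_det hM' (fun k => ?_) fun v k => ?_
  · by_cases hk : k = i
    · subst hk; simpa using hii
    · rw [Function.update_of_ne hk]; exact hc k
  · have e1 : v ⬝ᵥ ((Tᴴ * M * T) *ᵥ v) = (T *ᵥ v) ⬝ᵥ (M *ᵥ (T *ᵥ v)) := by
      rw [conjTranspose_eq_transpose_of_trivial, ← mulVec_mulVec, ← mulVec_mulVec,
        dotProduct_mulVec, vecMul_transpose]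
    rw [e1]
    by_cases hk : k = i
    · subst hk
      rw [Function.update_self]
      obtain ⟨u, hu⟩ : ∃ u, u = T *ᵥ v := ⟨_, rfl⟩
      rw [← hu]
      have hMu : (M *ᵥ u) k = M k k * v k := by
        rw [hu, hTv, mulVec_sub, Pi.sub_apply, mulVec_single]
        have h1 : (M *ᵥ v) k = M k k * v k + M k k * (w ⬝ᵥ v) := by
          simp only [mulVec, dotProduct, Finset.mul_sum]
          rw [← Finset.add_sum_erase _ _ (Finset.mem_univ k)]
          congr 1
          rw [← Finset.add_sum_erase _ _ (Finset.mem_univ k)]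
          simp only [w, Function.update_self, zero_mul, mul_zero, zero_add]
          refine Finset.sum_congr rfl fun j hj => ?_
          rw [Function.update_of_ne (Finset.ne_of_mem_erase hj)]
          field_simp
        rw [h1]
        simp
      obtain ⟨s, hs⟩ : ∃ s : ℝ, s = v k := ⟨_, rfl⟩
      have hnn : 0 ≤ (u - Pi.single k s) ⬝ᵥ (M *ᵥ (u - Pi.single k s)) := by
        have := hM.posSemidef.dotProduct_mulVec_nonneg (u - Pi.single k s)
        simpa using this
      have hsym : u ⬝ᵥ (M *ᵥ (Pi.single k s)) = (Pi.single k s) ⬝ᵥ (M *ᵥ u) := by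
        have hMt : Mᵀ = M := by
          have := hM.isHermitian
          rwa [IsHermitian, conjTranspose_eq_transpose_of_trivial] at this
        rw [dotProduct_mulVec, dotProduct_comm, ← mulVec_transpose, hMt]
      rw [mulVec_sub, sub_dotProduct, dotProduct_sub, dotProduct_sub, hsym, single_dotProduct,
        single_dotProduct, hMu] at hnn
      have h3 : (M *ᵥ Pi.single k s) k = M k k * s := by
        rw [mulVec_single]; simp
      rw [h3] at hnn
      rw [← hs] at hnn ⊢
      nlinarith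
    · rw [Function.update_of_ne hk]
      have := h (T *ᵥ v) k
      have e2 : (T *ᵥ v) k = v k := by
        rw [hTv, Pi.sub_apply, Pi.single_eq_of_ne hk, sub_zero]
      rwa [e2] at this

/-- The final algebraic inequality. -/
lemma det_ineq {M : Matrix (Fin n) (Fin n) ℝ} (hM : M.PosDef) {a : Fin n → ℝ} (ha : ∀ k, 0 < a k)
    {P : ℝ} (hP : 0 < P)
    (h : ∀ (v : Fin n → ℝ) k, P / a k ^ 2 * v k ^ 2 ≤ v ⬝ᵥ (M *ᵥ v)) :
    P ^ (n - 1) * M.trace ≤ ((∏ k, a k ^ 2) * ∑ k, 1 / a k ^ 2) * M.det := by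
  have hc : ∀ k, 0 < P / a k ^ 2 := fun k => by have := ha k; positivity
  have h1 : ∀ i, P ^ (n - 1) * M i i ≤ (∏ k, a k ^ 2) * (1 / a i ^ 2) * M.det := by
    intro i
    have h2 := diag_mul_prod_le_det hM hc h i
    rw [Finset.prod_update_of_mem (Finset.mem_univ i), ← Finset.erase_eq, Finset.prod_div_distrib,
      Finset.prod_const, Finset.card_erase_of_mem (Finset.mem_univ i), Finset.card_univ,
      Fintype.card_fin] at h2
    have h3 : 0 < ∏ k ∈ Finset.univ.erase i, a k ^ 2 :=
      Finset.prod_pos fun k _ => by have := ha k; positivity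
    have h4 : (∏ k, a k ^ 2) * (1 / a i ^ 2) = ∏ k ∈ Finset.univ.erase i, a k ^ 2 := by
      rw [← Finset.mul_prod_erase _ _ (Finset.mem_univ i)]
      have := (ha i).ne'
      field_simp
    rw [h4]
    calc P ^ (n - 1) * M i i = (∏ k ∈ Finset.univ.erase i, a k ^ 2) *
          (M i i * (P ^ (n - 1) / ∏ k ∈ Finset.univ.erase i, a k ^ 2)) := by field_simp
      _ ≤ _ := mul_le_mul_of_nonneg_left h2 h3.le
  calc P ^ (n - 1) * M.trace = ∑ i, P ^ (n - 1) * M i i := by
        rw [Matrix.trace, Finset.mul_sum]; rfl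
    _ ≤ ∑ i, (∏ k, a k ^ 2) * (1 / a i ^ 2) * M.det := Finset.sum_le_sum fun i _ => h1 i
    _ = _ := by rw [← Finset.sum_mul, ← Finset.mul_sum]

end Pool.Agent.Lib.MP_9c48c1_an
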