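import Mathlib
import Pool.Agent.Lib.MP_9c48c1_an.Defs

set_option autoImplicit false

/-! Polar coordinates and the spherical integral of `q(ξ)^(-n/2)` for a positive definite
quadratic form `q` on `ℝ^n`. -/

namespace Pool.Agent.Lib.MP_9c48c1_an

open MeasureTheory Set Filter Topology Matrix

/-- Polar coordinates in the form needed here. -/
lemma polar_En {n : ℕ} (hn : 0 < n) {φ : E n → ℝ} (hφ : Integrable φ) :
    ∫ x, φ x = ∫ ξ : Metric.sphere (0 : E n) 1, (∫ r in Ioi (0 : ℝ), r ^ (n - 1) * φ (r • (ξ : E n)))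
      ∂(volume : Measure (E n)).toSphere := by
  have hdim : Module.finrank ℝ (E n) = n := by simp
  have : Nontrivial (E n) := Module.nontrivial_of_finrank_pos (R := ℝ) (by rw [hdim]; exact hn)
  have hmp := (volume : Measure (E n)).measurePreserving_homeomorphUnitSphereProd
  have hemb := (Homeomorph.measurableEmbedding (homeomorphUnitSphereProd (E n)))
  set ψ : Metric.sphere (0 : E n) 1 × Ioi (0 : ℝ) → ℝ := fun p => φ ((p.2 : ℝ) • (p.1 : E n)) with hψ
  have hcomp : ∀ x : ({(0 : E n)}ᶜ : Set (E n)), ψ (homeomorphUnitSphereProd (E n) x) = φ x.1 := by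
    intro x
    simp only [hψ]
    congr 1
    have hx : ‖(x : E n)‖ ≠ 0 := norm_ne_zero_iff.2 x.2
    simp [homeomorphUnitSphereProd, smul_smul, hx]
  have h1 : ∫ x, φ x = ∫ x : ({(0)}ᶜ : Set (E n)), φ x.1 ∂(Measure.comap Subtype.val volume) := by
    rw [integral_subtype_comap (measurableSet_singleton _).compl φ, restrict_compl_singleton]
  have hintsub : Integrable (fun x : ({(0 : E n)}ᶜ : Set (E n)) => φ x.1)
      (Measure.comap Subtype.val volume) := by
    have : MeasurableEmbedding (Subtype.val : ({(0 : E n)}ᶜ : Set (E n)) → E n) :=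
      MeasurableEmbedding.subtype_coe (measurableSet_singleton _).compl
    exact this.integrableOn_range_iff_comap.1 hφ.integrableOn
  have hint : Integrable ψ (((volume : Measure (E n)).toSphere).prod
      (Measure.volumeIoiPow (Module.finrank ℝ (E n) - 1))) := by
    rw [← hmp.integrable_comp_emb hemb]
    refine hintsub.congr ?_
    filter_upwards with x
    exact (hcomp x).symm
  rw [h1]
  have h2 : ∫ x : ({(0)}ᶜ : Set (E n)), φ x.1 ∂(Measure.comap Subtype.val volume) =
      ∫ p, ψ p ∂(((volume : Measure (E n)).toSphere).prod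
        (Measure.volumeIoiPow (Module.finrank ℝ (E n) - 1))) := by
    rw [← hmp.integral_comp hemb]
    exact integral_congr_ae (by filter_upwards with x; exact (hcomp x).symm)
  rw [h2, integral_prod _ hint]
  refine integral_congr_ae ?_
  filter_upwards with ξ
  simp only [hψ, Measure.volumeIoiPow, ENNReal.ofReal]
  rw [integral_withDensity_eq_integral_smul ((measurable_subtype_coe.pow_const _).real_toNNReal),
    integral_subtype_comap measurableSet_Ioi fun a : ℝ =>
      Real.toNNReal (a ^ (Module.finrank ℝ (E n) - 1)) • φ (a • (ξ : E n))]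
  refine setIntegral_congr_fun measurableSet_Ioi fun r hr => ?_
  rw [NNReal.smul_def, Real.coe_toNNReal _ (pow_nonneg (le_of_lt hr) _), hdim]
  simp

/-- The quadratic form of a matrix. -/
noncomputable def qM {n : ℕ} (M : Matrix (Fin n) (Fin n) ℝ) (x : E n) : ℝ :=
  ∑ i, ∑ j, M i j * (x i * x j)

lemma qM_eq {n : ℕ} (M : Matrix (Fin n) (Fin n) ℝ) (x : E n) :
    qM M x = (x.ofLp) ⬝ᵥ (M *ᵥ x.ofLp) := by
  unfold qM
  simp only [dotProduct, mulVec, Finset.mul_sum]
  refine Finset.sum_congr rfl fun i _ => Finset.sum_congr rfl fun j _ => ?_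
  ring

lemma qM_pos {n : ℕ} {M : Matrix (Fin n) (Fin n) ℝ} (hM : M.PosDef) {x : E n} (hx : x ≠ 0) :
    0 < qM M x := by
  rw [qM_eq]
  have h : x.ofLp ≠ 0 := by
    intro h
    apply hx
    ext i
    exact congrFun h i
  have := hM.dotProduct_mulVec_pos h
  simpa using this

lemma gaussN {n : ℕ} {M : Matrix (Fin n) (Fin n) ℝ} (hM : M.PosDef) :
    Integrable (fun x : E n => Real.exp (-qM M x)) ∧
    ∫ x : E n, Real.exp (-qM M x) = Real.pi ^ ((n : ℝ) / 2) / Real.sqrt M.det := by
  obtain ⟨B, hB⟩ : ∃ B : Matrix (Fin n) (Fin n) ℝ, M = Bᵀ * B := by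
    open scoped MatrixOrder in
    obtain ⟨B, hB⟩ := CStarAlgebra.nonneg_iff_eq_star_mul_self.mp hM.posSemidef.nonneg
    exact ⟨B, by rw [hB, star_eq_conjTranspose, conjTranspose_eq_transpose_of_trivial]⟩
  have hdet : M.det = B.det ^ 2 := by rw [hB, det_mul, det_transpose]; ring
  have hBdet : B.det ≠ 0 := by
    intro h
    have := hM.det_pos
    rw [hdet, h] at this
    norm_num at this
  let L : E n →ₗ[ℝ] E n := Matrix.toEuclideanLin B
  have hL : LinearMap.det L = B.det := by
    exact LinearMap.det_toLin (EuclideanSpace.basisFun (Fin n) ℝ).toBasis B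
  have hq : ∀ x : E n, qM M x = ‖L x‖ ^ 2 := by
    intro x
    rw [qM_eq, hB, ← real_inner_self_eq_norm_sq]
    have e : (L x).ofLp = B *ᵥ x.ofLp := rfl
    rw [PiLp.inner_apply]
    simp only [e]
    rw [← mulVec_mulVec, dotProduct_mulVec, vecMul_transpose]
    simp [dotProduct, sq]
  have hmap := Measure.map_linearMap_addHaar_eq_smul_addHaar (volume : Measure (E n))
    (f := L) (by rw [hL]; exact hBdet)
  have hLm : Measurable L := (LinearMap.continuous_of_finiteDimensional L).measurable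
  let e : E n ≃ₗ[ℝ] E n := LinearEquiv.ofIsUnitDet (f := L) (v := (EuclideanSpace.basisFun (Fin n) ℝ).toBasis)
    (v' := (EuclideanSpace.basisFun (Fin n) ℝ).toBasis) (by
      have : LinearMap.toMatrix (EuclideanSpace.basisFun (Fin n) ℝ).toBasis
        (EuclideanSpace.basisFun (Fin n) ℝ).toBasis L = B := LinearMap.toMatrix_toLin _ _ _
      rw [this]
      exact isUnit_iff_ne_zero.2 hBdet)
  have hemb : MeasurableEmbedding L := by
    have : (L : E n → E n) = e.toContinuousLinearEquiv.toHomeomorph := rfl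
    rw [this]
    exact Homeomorph.measurableEmbedding _
  have hgi : Integrable (fun v : E n => Real.exp (-‖v‖ ^ 2)) := by
    have h1 := GaussianFourier.integrable_cexp_neg_mul_sq_norm_add (V := E n) (b := 1) (by simp) 0 0
    have h2 := h1.re
    refine h2.congr ?_
    filter_upwards with v
    simp
    norm_cast
  have hgv : ∫ v : E n, Real.exp (-‖v‖ ^ 2) = Real.pi ^ ((n : ℝ) / 2) := by
    have := GaussianFourier.integral_rexp_neg_mul_sq_norm (V := E n) (b := 1) one_pos
    simpa using this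
  have hfun : (fun x : E n => Real.exp (-qM M x)) = (fun v : E n => Real.exp (-‖v‖ ^ 2)) ∘ L := by
    funext x
    simp [hq]
  have hne : ENNReal.ofReal |(LinearMap.det L)⁻¹| ≠ ⊤ := ENNReal.ofReal_ne_top
  constructor
  · rw [hfun, ← hemb.integrable_map_iff, hmap]
    exact hgi.smul_measure hne
  · have h1 : ∫ x : E n, Real.exp (-qM M x) = ∫ v, Real.exp (-‖v‖ ^ 2) ∂(Measure.map L volume) := by
      rw [hemb.integral_map]
      simp only [hq]
    rw [h1, hmap, integral_smul_measure, hgv, hL, hdet, Real.sqrt_sq_eq_abs,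
      ENNReal.toReal_ofReal (abs_nonneg _), abs_inv, smul_eq_mul]
    field_simp

lemma radialN {n : ℕ} (hn : 0 < n) {q : ℝ} (hq : 0 < q) :
    ∫ r in Ioi (0 : ℝ), r ^ (n - 1) * Real.exp (-(r ^ 2 * q)) =
      q ^ (-((n : ℝ) / 2)) * (1 / 2) * Real.Gamma ((n : ℝ) / 2) := by
  have hn' : (0 : ℝ) < n := by exact_mod_cast hn
  have h := integral_rpow_mul_exp_neg_mul_rpow (p := 2) (q := (n : ℝ) - 1) (b := q) two_pos
    (by linarith) hq
  have e1 : (n : ℝ) - 1 + 1 = n := by ring
  rw [e1] at h
  rw [← neg_div, ← h]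
  refine setIntegral_congr_fun measurableSet_Ioi fun r hr => ?_
  have e2 : ((n : ℝ) - 1) = ((n - 1 : ℕ) : ℝ) := by
    rw [Nat.cast_sub hn]; simp
  rw [e2, Real.rpow_natCast, Real.rpow_two]
  congr 2
  ring

/-- The spherical integral. -/
lemma sphereN {n : ℕ} (hn : 0 < n) {M : Matrix (Fin n) (Fin n) ℝ} (hM : M.PosDef) :
    ∫ ξ : Metric.sphere (0 : E n) 1, (qM M (ξ : E n)) ^ (-((n : ℝ) / 2))
      ∂(volume : Measure (E n)).toSphere = n * omega n / Real.sqrt M.det := by
  have hn' : (0 : ℝ) < n := by exact_mod_cast hn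
  obtain ⟨hi, hv⟩ := gaussN hM
  have h1 := polar_En hn hi
  rw [hv] at h1
  have h2 : ∀ ξ : Metric.sphere (0 : E n) 1,
      (∫ r in Ioi (0 : ℝ), r ^ (n - 1) * Real.exp (-qM M (r • (ξ : E n)))) =
        (1 / 2 * Real.Gamma ((n : ℝ) / 2)) * (qM M (ξ : E n)) ^ (-((n : ℝ) / 2)) := by
    intro ξ
    have hξ : (ξ : E n) ≠ 0 := by
      intro h
      have := ξ.2
      rw [mem_sphere_zero_iff_norm, h, norm_zero] at this
      exact zero_ne_one this
    have hq := qM_pos hM hξ
    have h3 : ∀ r : ℝ, qM M (r • (ξ : E n)) = r ^ 2 * qM M (ξ : E n) := by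
      intro r
      simp only [qM, PiLp.smul_apply, smul_eq_mul, Finset.mul_sum]
      refine Finset.sum_congr rfl fun i _ => Finset.sum_congr rfl fun j _ => ?_
      ring
    simp only [h3]
    rw [radialN hn hq]
    ring
  simp only [h2] at h1
  rw [integral_const_mul] at h1
  have hG : 0 < Real.Gamma ((n : ℝ) / 2) := Real.Gamma_pos_of_pos (by positivity)
  have homega : (n : ℝ) * omega n = 2 * Real.pi ^ ((n : ℝ) / 2) / Real.Gamma ((n : ℝ) / 2) := by
    unfold omega
    have : (1 : ℝ) + (n : ℝ) / 2 = (n : ℝ) / 2 + 1 := by ring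
    rw [this, Real.Gamma_add_one (by positivity)]
    field_simp
  rw [homega]
  have hd : 0 < Real.sqrt M.det := Real.sqrt_pos.2 hM.det_pos
  field_simp at h1 ⊢
  linarith

end Pool.Agent.Lib.MP_9c48c1_an
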