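import Mathlib
import Pool.Agent.Lib.MP_9c48c1_an.SphereN
import Pool.Agent.Lib.MP_9c48c1_an.MatLem
import Pool.Agent.Lib.MP_9c48c1_an.DirIneq

set_option autoImplicit false

/-! The affine energy for `p = 2` in every dimension. -/

namespace Pool.Agent.Lib.MP_9c48c1_an

open MeasureTheory Set Filter Topology Matrix

variable {n : ℕ}

/-- The moment matrix of a vector field. -/
noncomputable def mm (g : E n → E n) : Matrix (Fin n) (Fin n) ℝ :=
  Matrix.of fun i j => ∫ x, g x i * g x j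

/-- `∫ f²`. -/
noncomputable def msN (f : E n → ℝ) : ℝ := ∫ x, f x ^ 2

lemma omega_one' : omega 1 = 2 := by
  unfold omega
  have h : (1 : ℝ) + 1 / 2 = 1 / 2 + 1 := by norm_num
  rw [h, Real.Gamma_add_one (by norm_num), Real.Gamma_one_half_eq, ← Real.sqrt_eq_rpow]
  have : Real.sqrt Real.pi ≠ 0 := (Real.sqrt_pos.2 Real.pi_pos).ne'
  field_simp

lemma omega_pos (hn : 0 < n) : 0 < omega n := by
  have hn' : (0 : ℝ) < n := by exact_mod_cast hn
  unfold omega
  have := Real.pi_pos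
  have h : 0 < Real.Gamma (1 + (n : ℝ) / 2) := Real.Gamma_pos_of_pos (by positivity)
  positivity

lemma cnp_two' (hn : 0 < n) : cnp n 2 = Real.sqrt n * (n * omega n) ^ (1 / (n : ℝ)) := by
  have hn' : (0 : ℝ) < n := by exact_mod_cast hn
  have := omega_pos hn
  unfold cnp
  have h2 : (2 : ℝ) - 1 = 1 := by norm_num
  have h3 : (n : ℝ) + 2 - 2 = n := by ring
  rw [h2, h3, omega_one', ← Real.sqrt_eq_rpow]
  congr 2
  field_simp

lemma memLp_compN {g : E n → E n} (hg : MemLp g 2) (i : Fin n) : MemLp (fun x => g x i) 2 := by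
  refine MemLp.of_le hg ?_ ?_
  · exact (continuous_apply i).comp_aestronglyMeasurable
      ((PiLp.continuous_ofLp 2 _).comp_aestronglyMeasurable hg.1)
  · filter_upwards with x
    exact PiLp.norm_apply_le (g x) i

lemma integrable_compN {g : E n → E n} (hg : MemLp g 2) (i j : Fin n) :
    Integrable (fun x => g x i * g x j) := (memLp_compN hg i).integrable_mul (memLp_compN hg j)

lemma dir_intN {g : E n → E n} (hg : MemLp g 2) (ξ : E n) :
    ∫ x, (inner ℝ (g x) ξ) ^ 2 = qM (mm g) ξ := by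
  have e : ∀ x, (inner ℝ (g x) ξ) ^ 2 = ∑ i, ∑ j, (ξ i * ξ j) * (g x i * g x j) := by
    intro x
    rw [PiLp.inner_apply, sq, Finset.sum_mul_sum]
    refine Finset.sum_congr rfl fun i _ => Finset.sum_congr rfl fun j _ => ?_
    simp
    ring
  simp_rw [e]
  rw [integral_finsetSum _ fun i _ => integrable_finsetSum _ fun j _ =>
    (integrable_compN hg i j).const_mul _]
  unfold qM
  refine Finset.sum_congr rfl fun i _ => ?_
  rw [integral_finsetSum _ fun j _ => (integrable_compN hg i j).const_mul _]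
  refine Finset.sum_congr rfl fun j _ => ?_
  rw [integral_const_mul]
  simp only [mm, of_apply]
  ring

lemma dirNorm_eq {g : E n → E n} (hg : MemLp g 2) (ξ : E n) :
    dirNorm 2 g ξ = (qM (mm g) ξ) ^ ((1 : ℝ) / 2) := by
  unfold dirNorm
  congr 1
  rw [← dir_intN hg]
  refine integral_congr_ae ?_
  filter_upwards with x
  rw [Real.rpow_two, sq_abs]

/-- The affine energy for `p = 2`, raised to the power `2n`. -/
lemma affEnergy_pow (hn : 0 < n) {g : E n → E n} (hg : MemLp g 2) (hM : (mm g).PosDef) :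
    0 < affEnergy 2 g ∧ affEnergy 2 g ^ (2 * n) = (n : ℝ) ^ n * (mm g).det := by
  have hn' : (0 : ℝ) < n := by exact_mod_cast hn
  have hω := omega_pos hn
  have hd := hM.det_pos
  have hsd : 0 < Real.sqrt (mm g).det := Real.sqrt_pos.2 hd
  have h1 : ∀ ξ : Metric.sphere (0 : E n) 1, dirNorm 2 g (ξ : E n) ^ (-(n : ℝ)) =
      (qM (mm g) (ξ : E n)) ^ (-((n : ℝ) / 2)) := by
    intro ξ
    have hξ : (ξ : E n) ≠ 0 := by
      intro h
      have := ξ.2
      rw [mem_sphere_zero_iff_norm, h, norm_zero] at this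
      exact zero_ne_one this
    have hq := qM_pos hM hξ
    rw [dirNorm_eq hg, ← Real.rpow_mul hq.le]
    congr 1
    ring
  have h2 : affEnergy 2 g = Real.sqrt n * (n * omega n) ^ (1 / (n : ℝ)) *
      (n * omega n / Real.sqrt (mm g).det) ^ (-(1 / (n : ℝ))) := by
    unfold affEnergy
    simp_rw [h1]
    rw [sphereN hn hM, cnp_two' hn]
  have h3 : affEnergy 2 g = Real.sqrt n * (Real.sqrt (mm g).det) ^ (1 / (n : ℝ)) := by
    rw [h2, Real.rpow_neg (by positivity), Real.div_rpow (by positivity) hsd.le]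
    have : 0 < (n * omega n) ^ (1 / (n : ℝ)) := by positivity
    have : 0 < (Real.sqrt (mm g).det) ^ (1 / (n : ℝ)) := by positivity
    field_simp
  constructor
  · rw [h3]; positivity
  · rw [h3, mul_pow, pow_mul, Real.sq_sqrt hn'.le, mul_comm 2 n, pow_mul, ← Real.rpow_natCast
      ((Real.sqrt (mm g).det) ^ (1 / (n : ℝ))) n, ← Real.rpow_mul hsd.le]
    have : 1 / (n : ℝ) * (n : ℝ) = 1 := by field_simp
    rw [this, Real.rpow_one, Real.sq_sqrt hd.le]

lemma msN_nonneg (f : E n → ℝ) : 0 ≤ msN f := integral_nonneg fun _ => sq_nonneg _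

lemma trace_eq {g : E n → E n} (hg : MemLp g 2) : ∫ x, ‖g x‖ ^ (2 : ℝ) = (mm g).trace := by
  have e : ∀ x, ‖g x‖ ^ (2 : ℝ) = ∑ i, g x i * g x i := by
    intro x
    rw [Real.rpow_two, EuclideanSpace.norm_sq_eq]
    refine Finset.sum_congr rfl fun i _ => ?_
    rw [Real.norm_eq_abs, sq_abs, sq]
  simp_rw [e]
  rw [integral_finsetSum _ fun i _ => integrable_compN hg i i]
  rfl

lemma trace_nonneg (g : E n → E n) : 0 ≤ (mm g).trace :=
  Finset.sum_nonneg fun _ _ => integral_nonneg fun _ => mul_self_nonneg _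

lemma rhs_powN (hn : 0 < n) (f : E n → ℝ) {g : E n → E n} (hg : MemLp g 2) :
    0 ≤ rhs 2 f g ∧ rhs 2 f g ^ (2 * n) = msN f ^ (n - 1) * (mm g).trace := by
  have hn' : (0 : ℝ) < n := by exact_mod_cast hn
  have h0 := msN_nonneg f
  have h1 := trace_nonneg g
  have e1 : lpNorm 2 f = (msN f) ^ ((1 : ℝ) / 2) := by
    unfold lpNorm msN
    congr 1
    refine integral_congr_ae ?_
    filter_upwards with x
    rw [Real.rpow_two, sq_abs]
  have e2 : gradNorm 2 g = ((mm g).trace) ^ ((1 : ℝ) / 2) := by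
    unfold gradNorm
    rw [trace_eq hg]
  unfold rhs
  rw [e1, e2]
  constructor
  · positivity
  · rw [mul_pow, ← Real.rpow_mul h0, ← Real.rpow_mul h1, ← Real.rpow_natCast, ← Real.rpow_natCast,
      ← Real.rpow_mul h0, ← Real.rpow_mul h1]
    have a1 : (1 : ℝ) / 2 * (((n : ℝ) - 1) / n) * ((2 * n : ℕ) : ℝ) = ((n - 1 : ℕ) : ℝ) := by
      rw [Nat.cast_sub hn]
      push_cast
      field_simp
    have a2 : (1 : ℝ) / 2 * (1 / (n : ℝ)) * ((2 * n : ℕ) : ℝ) = 1 := by
      push_cast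
      field_simp
    rw [a1, a2, Real.rpow_one, Real.rpow_natCast]

/-- Comparison of the two sides after raising to the power `2n`. -/
lemma le_iff_pow (hn : 0 < n) {f : E n → ℝ} {g : E n → E n} (hg : MemLp g 2)
    (hM : (mm g).PosDef) {A : ℝ} (hA : 0 ≤ A) :
    A * rhs 2 f g ≤ affEnergy 2 g ↔
      A ^ (2 * n) * (msN f ^ (n - 1) * (mm g).trace) ≤ (n : ℝ) ^ n * (mm g).det := by
  obtain ⟨h1, h2⟩ := affEnergy_pow hn hg hM
  obtain ⟨h3, h4⟩ := rhs_powN hn f hg
  rw [← h2, ← h4, ← mul_pow]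
  constructor
  · intro h
    exact pow_le_pow_left₀ (by positivity) h _
  · intro h
    exact le_of_pow_le_pow_left₀ (by omega) h1.le h

lemma eq_of_pow (hn : 0 < n) {f : E n → ℝ} {g : E n → E n} (hg : MemLp g 2)
    (hM : (mm g).PosDef) {A : ℝ} (hA : 0 ≤ A)
    (h : A ^ (2 * n) * (msN f ^ (n - 1) * (mm g).trace) = (n : ℝ) ^ n * (mm g).det) :
    affEnergy 2 g = A * rhs 2 f g := by
  obtain ⟨h1, h2⟩ := affEnergy_pow hn hg hM
  obtain ⟨h3, h4⟩ := rhs_powN hn f hg
  rw [← h2, ← h4, ← mul_pow] at h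
  exact ((pow_left_inj₀ (by positivity) h1.le (by omega)).1 h).symm

end Pool.Agent.Lib.MP_9c48c1_an
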