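import Mathlib

set_option autoImplicit false

/-! One-dimensional test functions. -/

namespace Pool.Agent.Lib.MP_9c48c1_an

open MeasureTheory Set Filter Topology

/-- The `C^1` truncation `s ↦ (s - δ)_+^2 / s`. -/
noncomputable def HH (δ s : ℝ) : ℝ := (max (s - δ) 0) ^ 2 / max s δ

lemma HH_continuous {δ : ℝ} (hδ : 0 < δ) : Continuous (HH δ) := by
  unfold HH
  refine Continuous.div (by fun_prop) (by fun_prop) fun s => ?_
  exact (lt_of_lt_of_le hδ (le_max_right _ _)).ne'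

lemma HHd_continuous {δ : ℝ} (hδ : 0 < δ) : Continuous (fun s : ℝ => 1 - δ ^ 2 / (max s δ) ^ 2) := by
  refine Continuous.sub continuous_const (Continuous.div (by fun_prop) (by fun_prop) fun s => ?_)
  have := lt_of_lt_of_le hδ (le_max_right s δ)
  positivity

lemma HH_hasDerivAt {δ : ℝ} (hδ : 0 < δ) (s : ℝ) :
    HasDerivAt (HH δ) (1 - δ ^ 2 / (max s δ) ^ 2) s := by
  refine hasDerivAt_of_hasDerivAt_of_ne' (x := δ) (g := fun s => 1 - δ ^ 2 / (max s δ) ^ 2) ?_
    (HH_continuous hδ).continuousAt (HHd_continuous hδ).continuousAt s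
  intro y hy
  rcases lt_or_gt_of_ne hy with h | h
  · have e1 : HH δ =ᶠ[𝓝 y] fun _ => 0 := by
      filter_upwards [Iio_mem_nhds h] with z hz
      have hz' : z - δ ≤ 0 := by have : z < δ := hz; linarith
      unfold HH
      rw [max_eq_right hz']; simp
    have e2 : max y δ = δ := max_eq_right h.le
    have e3 : 1 - δ ^ 2 / (max y δ) ^ 2 = 0 := by rw [e2]; field_simp; ring
    simp only [e3]
    exact (hasDerivAt_const y (0 : ℝ)).congr_of_eventuallyEq e1
  · have hy0 : y ≠ 0 := by linarith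
    have e1 : HH δ =ᶠ[𝓝 y] fun z => (z - δ) ^ 2 / z := by
      filter_upwards [Ioi_mem_nhds h] with z hz
      have hz' : δ < z := hz
      unfold HH
      rw [max_eq_left (by linarith : (0 : ℝ) ≤ z - δ), max_eq_left hz'.le]
    have e2 : max y δ = y := max_eq_left h.le
    simp only [e2]
    have h1 : HasDerivAt (fun z : ℝ => (z - δ) ^ 2) (2 * (y - δ)) y := by
      have := ((hasDerivAt_id y).sub_const δ).pow 2
      exact this.congr_deriv (by simp)
    have h2 := h1.div (hasDerivAt_id y) hy0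
    refine (h2.congr_of_eventuallyEq e1).congr_deriv ?_
    simp only [id]
    field_simp
    ring

lemma HH_contDiff {δ : ℝ} (hδ : 0 < δ) : ContDiff ℝ 1 (HH δ) := by
  rw [contDiff_one_iff_deriv]
  refine ⟨fun s => (HH_hasDerivAt hδ s).differentiableAt, ?_⟩
  have : deriv (HH δ) = fun s => 1 - δ ^ 2 / (max s δ) ^ 2 := by
    funext s
    exact (HH_hasDerivAt hδ s).deriv
  rw [this]
  exact HHd_continuous hδ

lemma HH_zero {δ s : ℝ} (h : s ≤ δ) : HH δ s = 0 := by
  unfold HH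
  rw [max_eq_right (by linarith : s - δ ≤ 0)]; simp

lemma HH_lower {δ : ℝ} (hδ : 0 < δ) (s : ℝ) (hs0 : 0 ≤ s) (hs1 : s ≤ 1) :
    s ^ 2 - 4 * δ ≤ HH δ s ^ 2 := by
  rcases le_or_gt s (2 * δ) with h | h
  · have : s ^ 2 ≤ 4 * δ := by nlinarith
    have := sq_nonneg (HH δ s)
    linarith
  · have h1 : s - 2 * δ ≤ HH δ s := by
      unfold HH
      rw [max_eq_left (by linarith : (0 : ℝ) ≤ s - δ), max_eq_left (by linarith : δ ≤ s),
        le_div_iff₀ (by linarith)]
      nlinarith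
    have h2 : (s - 2 * δ) ^ 2 ≤ HH δ s ^ 2 := pow_le_pow_left₀ (by linarith) h1 2
    nlinarith

lemma HHd_sq {δ : ℝ} (hδ : 0 < δ) (s : ℝ) : (1 - δ ^ 2 / (max s δ) ^ 2) ^ 2 ≤ 1 := by
  have h0 := lt_of_lt_of_le hδ (le_max_right s δ)
  have h1 : δ ^ 2 / (max s δ) ^ 2 ≤ 1 := by
    rw [div_le_one (by positivity)]
    exact pow_le_pow_left₀ hδ.le (le_max_right s δ) 2
  have h2 : 0 ≤ δ ^ 2 / (max s δ) ^ 2 := by positivity
  nlinarith

/-- The bump used to cut off the other periods of the cosine. -/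
noncomputable def bmp : ContDiffBump (0 : ℝ) := ⟨3 / 4, 1, by norm_num, by norm_num⟩

/-- The test function. -/
noncomputable def uu (δ x : ℝ) : ℝ := HH δ (Real.cos (Real.pi * x)) * bmp x

lemma uu_contDiff {δ : ℝ} (hδ : 0 < δ) : ContDiff ℝ 1 (uu δ) := by
  unfold uu
  refine ContDiff.mul ((HH_contDiff hδ).comp ?_) ?_
  · fun_prop
  · exact bmp.contDiff

lemma uu_zero {δ : ℝ} (hδ : 0 < δ) {x : ℝ} (hx : 1 / 2 ≤ |x|) : uu δ =ᶠ[𝓝 x] fun _ => 0 := by
  rcases le_or_gt |x| 1 with h | h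
  · have h1 : Real.cos (Real.pi * x) ≤ 0 := by
      have : Real.cos (Real.pi * x) = Real.cos (Real.pi * |x|) := by
        rcases abs_cases x with ⟨h2, _⟩ | ⟨h2, _⟩
        · rw [h2]
        · rw [h2, mul_neg, Real.cos_neg]
      rw [this]
      refine Real.cos_nonpos_of_pi_div_two_le_of_le ?_ ?_
      · nlinarith [Real.pi_pos]
      · nlinarith [Real.pi_pos]
    have h2 : ∀ᶠ y in 𝓝 x, Real.cos (Real.pi * y) < δ := by
      have hc : ContinuousAt (fun y => Real.cos (Real.pi * y)) x := by fun_prop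
      exact hc.eventually_lt continuousAt_const (lt_of_le_of_lt h1 hδ)
    filter_upwards [h2] with y hy
    unfold uu
    rw [HH_zero hy.le, zero_mul]
  · have h2 : ∀ᶠ y in 𝓝 x, 1 < |y| := continuous_abs.continuousAt.eventually_const_lt h
    filter_upwards [h2] with y hy
    unfold uu
    have : bmp y = 0 := by
      refine bmp.zero_of_le_dist ?_
      rw [Real.dist_eq, sub_zero]
      exact hy.le
    rw [this, mul_zero]

lemma uu_eq {δ : ℝ} {x : ℝ} (hx : |x| < 3 / 4) :
    uu δ =ᶠ[𝓝 x] fun y => HH δ (Real.cos (Real.pi * y)) := by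
  have h2 : ∀ᶠ y in 𝓝 x, |y| < 3 / 4 := continuous_abs.continuousAt.eventually_lt_const hx
  filter_upwards [h2] with y hy
  unfold uu
  have : bmp y = 1 := by
    refine bmp.one_of_mem_closedBall ?_
    rw [mem_closedBall_zero_iff, Real.norm_eq_abs]
    exact hy.le
  rw [this, mul_one]

lemma uu_tsupport {δ : ℝ} (hδ : 0 < δ) : ∃ a : ℝ, 0 ≤ a ∧ a < 1 / 2 ∧ ∀ x ∈ tsupport (uu δ), |x| ≤ a := by
  have h1 : ∀ x ∈ tsupport (uu δ), |x| < 1 / 2 := by
    intro x hx
    by_contra hcon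
    push Not at hcon
    exact (notMem_tsupport_iff_eventuallyEq.2 (uu_zero hδ hcon)) hx
  have hc : IsCompact (tsupport (uu δ)) := by
    refine Metric.isCompact_of_isClosed_isBounded (isClosed_tsupport _) ?_
    refine (Metric.isBounded_iff_subset_closedBall 0).2 ⟨1 / 2, fun x hx => ?_⟩
    rw [mem_closedBall_zero_iff, Real.norm_eq_abs]
    exact (h1 x hx).le
  rcases (tsupport (uu δ)).eq_empty_or_nonempty with he | hne
  · exact ⟨0, le_refl _, by norm_num, fun x hx => by rw [he] at hx; exact absurd hx (notMem_empty _)⟩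
  · obtain ⟨x0, hx0, hmax⟩ := hc.exists_isMaxOn hne continuous_abs.continuousOn
    exact ⟨|x0|, abs_nonneg _, h1 x0 hx0, fun x hx => hmax hx⟩

lemma uu_deriv_sq {δ : ℝ} (hδ : 0 < δ) (x : ℝ) : deriv (uu δ) x ^ 2 ≤
    (Ioc (-(1 / 2) : ℝ) (1 / 2)).indicator (fun x => Real.pi ^ 2 * Real.sin (Real.pi * x) ^ 2) x := by
  rcases lt_or_ge |x| (1 / 2) with h | h
  · have hmem : x ∈ Ioc (-(1 / 2) : ℝ) (1 / 2) := by
      have := abs_lt.1 h
      exact ⟨this.1, this.2.le⟩
    rw [indicator_of_mem hmem]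
    have h1 : HasDerivAt (fun y => HH δ (Real.cos (Real.pi * y)))
        ((1 - δ ^ 2 / (max (Real.cos (Real.pi * x)) δ) ^ 2) *
          (-Real.sin (Real.pi * x) * Real.pi)) x := by
      have h2 : HasDerivAt (fun y : ℝ => Real.pi * y) Real.pi x :=
        ((hasDerivAt_id x).const_mul Real.pi).congr_deriv (by simp)
      exact (HH_hasDerivAt hδ _).comp x (h2.cos)
    rw [(uu_eq (by linarith)).deriv_eq, h1.deriv]
    have h3 := HHd_sq hδ (Real.cos (Real.pi * x))
    have h4 : 0 ≤ Real.pi ^ 2 * Real.sin (Real.pi * x) ^ 2 := by positivity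
    nlinarith
  · rw [(uu_zero hδ h).deriv_eq]
    simp only [deriv_const]
    refine le_trans (le_of_eq (by norm_num)) (indicator_nonneg (fun y _ => ?_) x)
    positivity

lemma uu_sq_lower {δ : ℝ} (hδ : 0 < δ) (x : ℝ) :
    (Ioc (-(1 / 2) : ℝ) (1 / 2)).indicator (fun x => Real.cos (Real.pi * x) ^ 2 - 4 * δ) x ≤
      uu δ x ^ 2 := by
  by_cases hmem : x ∈ Ioc (-(1 / 2) : ℝ) (1 / 2)
  · rw [indicator_of_mem hmem]
    have h1 : |x| < 3 / 4 := by
      rw [abs_lt]
      exact ⟨by linarith [hmem.1], by linarith [hmem.2]⟩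
    rw [(uu_eq (δ := δ) h1).eq_of_nhds]
    refine HH_lower hδ _ ?_ (Real.cos_le_one _)
    refine Real.cos_nonneg_of_neg_pi_div_two_le_of_le ?_ ?_
    · nlinarith [hmem.1, Real.pi_pos]
    · nlinarith [hmem.2, Real.pi_pos]
  · rw [indicator_of_notMem hmem]; positivity

lemma int_sin_sq : ∫ x in Ioc (-(1 / 2) : ℝ) (1 / 2), Real.pi ^ 2 * Real.sin (Real.pi * x) ^ 2 =
    Real.pi ^ 2 / 2 := by
  have hpi := Real.pi_pos
  rw [integral_const_mul, ← intervalIntegral.integral_of_le (by norm_num),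
    intervalIntegral.integral_comp_mul_left (fun x => Real.sin x ^ 2) hpi.ne', integral_sin_sq]
  have e1 : Real.pi * -(1 / 2) = -(Real.pi / 2) := by ring
  have e2 : Real.pi * (1 / 2) = Real.pi / 2 := by ring
  rw [e1, e2, Real.cos_neg, Real.cos_pi_div_two]
  simp only [smul_eq_mul]
  field_simp
  ring

lemma int_cos_sq (δ : ℝ) : ∫ x in Ioc (-(1 / 2) : ℝ) (1 / 2), (Real.cos (Real.pi * x) ^ 2 - 4 * δ) =
    1 / 2 - 4 * δ := by
  have hpi := Real.pi_pos
  have hc : Continuous (fun x : ℝ => Real.cos (Real.pi * x) ^ 2) := by fun_prop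
  rw [← intervalIntegral.integral_of_le (by norm_num),
    intervalIntegral.integral_sub (hc.intervalIntegrable _ _)
      (continuous_const.intervalIntegrable _ _),
    intervalIntegral.integral_comp_mul_left (fun x => Real.cos x ^ 2) hpi.ne', integral_cos_sq]
  have e1 : Real.pi * -(1 / 2) = -(Real.pi / 2) := by ring
  have e2 : Real.pi * (1 / 2) = Real.pi / 2 := by ring
  rw [e1, e2, Real.cos_neg, Real.cos_pi_div_two]
  simp only [smul_eq_mul, intervalIntegral.integral_const]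
  field_simp
  ring

/-- The one-dimensional test functions. -/
lemma exists_test {δ : ℝ} (hδ : 0 < δ) : ∃ u : ℝ → ℝ, ContDiff ℝ 1 u ∧
    (∃ a : ℝ, 0 ≤ a ∧ a < 1 / 2 ∧ ∀ x ∈ tsupport u, |x| ≤ a) ∧
    ∫ x, deriv u x ^ 2 ≤ Real.pi ^ 2 / 2 ∧ 1 / 2 - 4 * δ ≤ ∫ x, u x ^ 2 := by
  have hcs : HasCompactSupport (uu δ) := by
    obtain ⟨a, _, _, h⟩ := uu_tsupport hδ
    refine Metric.isCompact_of_isClosed_isBounded (isClosed_tsupport _) ?_
    refine (Metric.isBounded_iff_subset_closedBall 0).2 ⟨a, fun x hx => ?_⟩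
    rw [mem_closedBall_zero_iff, Real.norm_eq_abs]
    exact h x hx
  have hu := uu_contDiff hδ
  refine ⟨uu δ, hu, uu_tsupport hδ, ?_, ?_⟩
  · rw [← int_sin_sq, ← integral_indicator measurableSet_Ioc]
    refine integral_mono ?_ ?_ (uu_deriv_sq hδ)
    · have h1 : Continuous (fun x => deriv (uu δ) x ^ 2) :=
        (hu.continuous_deriv (le_refl _)).pow 2
      exact h1.integrable_of_hasCompactSupport
        (hcs.deriv.comp_left (g := fun t : ℝ => t ^ 2) (by simp))
    · refine (integrable_indicator_iff measurableSet_Ioc).2 ?_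
      have h1 : Continuous (fun x : ℝ => Real.pi ^ 2 * Real.sin (Real.pi * x) ^ 2) := by fun_prop
      exact (h1.integrableOn_Icc (a := -(1 / 2)) (b := 1 / 2)).mono_set Ioc_subset_Icc_self
  · rw [← int_cos_sq, ← integral_indicator measurableSet_Ioc]
    refine integral_mono ?_ ?_ (uu_sq_lower hδ)
    · refine (integrable_indicator_iff measurableSet_Ioc).2 ?_
      have h1 : Continuous (fun x : ℝ => Real.cos (Real.pi * x) ^ 2 - 4 * δ) := by fun_prop
      exact (h1.integrableOn_Icc (a := -(1 / 2)) (b := 1 / 2)).mono_set Ioc_subset_Icc_self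
    · have h1 : Continuous (fun x => uu δ x ^ 2) := hu.continuous.pow 2
      exact h1.integrable_of_hasCompactSupport
        (hcs.comp_left (g := fun t : ℝ => t ^ 2) (by simp))

end Pool.Agent.Lib.MP_9c48c1_an
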