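import Mathlib
import Pool.Agent.Lib.MP_9c48c1_an.EnergyN
import Pool.Agent.Lib.MP_9c48c1_an.Test1D

set_option autoImplicit false

/-! Product functions and their gradients. -/

namespace Pool.Agent.Lib.MP_9c48c1_an

open MeasureTheory Set Filter Topology

variable {n : ℕ}

/-- Product function. -/
noncomputable def pf (φ : Fin n → ℝ → ℝ) (x : E n) : ℝ := ∏ i, φ i (x i)

/-- The factor functions of the partial derivatives. -/
noncomputable def ψf (φ φ' : Fin n → ℝ → ℝ) (i j : Fin n) (t : ℝ) : ℝ :=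
  if j = i then φ' j t else φ j t

/-- Gradient of a product function. -/
noncomputable def gp (φ φ' : Fin n → ℝ → ℝ) (x : E n) : E n :=
  WithLp.toLp 2 fun i => ∏ j, ψf φ φ' i j (x j)

lemma gp_apply (φ φ' : Fin n → ℝ → ℝ) (x : E n) (i : Fin n) :
    gp φ φ' x i = ∏ j, ψf φ φ' i j (x j) := rfl

lemma gradN_apply (f : E n → ℝ) (x v : E n) : inner ℝ (gradient f x) v = fderiv ℝ f x v := by
  unfold gradient
  exact InnerProductSpace.toDual_symm_apply

lemma gradient_pf {φ φ' : Fin n → ℝ → ℝ} {x : E n} (h : ∀ i, HasDerivAt (φ i) (φ' i (x i)) (x i)) :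
    gradient (pf φ) x = gp φ φ' x := by
  have h1 : HasFDerivAt (pf φ) (∑ i, (∏ j ∈ Finset.univ.erase i, φ j (x j)) •
      (φ' i (x i) • (EuclideanSpace.proj i : E n →L[ℝ] ℝ))) x := by
    refine HasFDerivAt.finsetProd (u := Finset.univ) (g := fun i (x : E n) => φ i (x i)) fun i _ => ?_
    exact (h i).comp_hasFDerivAt x (EuclideanSpace.proj i : E n →L[ℝ] ℝ).hasFDerivAt
  refine ext_inner_right ℝ fun v => ?_
  rw [gradN_apply, h1.fderiv, PiLp.inner_apply]
  simp only [sum_apply, smul_apply, smul_eq_mul]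
  refine Finset.sum_congr rfl fun i _ => ?_
  have e1 : (EuclideanSpace.proj i : E n →L[ℝ] ℝ) v = v i := rfl
  have e2 : ∏ j, ψf φ φ' i j (x j) = φ' i (x i) * ∏ j ∈ Finset.univ.erase i, φ j (x j) := by
    rw [← Finset.mul_prod_erase _ _ (Finset.mem_univ i)]
    congr 1
    · simp [ψf]
    · refine Finset.prod_congr rfl fun j hj => ?_
      simp [ψf, Finset.ne_of_mem_erase hj]
  rw [e1, gp_apply, e2]
  simp
  ring

lemma integral_prodE (φ : Fin n → ℝ → ℝ) : ∫ x : E n, ∏ i, φ i (x i) = ∏ i, ∫ t, φ i t := by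
  rw [← integral_fintype_prod_volume_eq_prod]
  have := (EuclideanSpace.volume_preserving_symm_measurableEquiv_toLp (Fin n)).integral_comp'
    (g := fun y : Fin n → ℝ => ∏ i, φ i (y i))
  rw [← this]
  rfl

lemma mm_gp (φ φ' : Fin n → ℝ → ℝ) (i j : Fin n) :
    mm (gp φ φ') i j = ∏ k, ∫ t, ψf φ φ' i k t * ψf φ φ' j k t := by
  simp only [mm, Matrix.of_apply, gp_apply]
  rw [← integral_prodE]
  refine integral_congr_ae ?_
  filter_upwards with x
  rw [Finset.prod_mul_distrib]

lemma msN_pf (φ : Fin n → ℝ → ℝ) : msN (pf φ) = ∏ k, ∫ t, φ k t ^ 2 := by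
  simp only [msN, pf]
  rw [← integral_prodE]
  refine integral_congr_ae ?_
  filter_upwards with x
  rw [Finset.prod_pow]

/-- The limit profile. -/
noncomputable def cc (t : ℝ) : ℝ := if |t| < 1 / 2 then Real.cos (Real.pi * t) else 0

/-- The derivative of the limit profile. -/
noncomputable def ss (t : ℝ) : ℝ := if |t| < 1 / 2 then -Real.pi * Real.sin (Real.pi * t) else 0

lemma cc_eq : cc = (Ioo (-(1 / 2) : ℝ) (1 / 2)).indicator fun t => Real.cos (Real.pi * t) := by
  funext t
  unfold cc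
  by_cases h : |t| < 1 / 2
  · rw [if_pos h, indicator_of_mem (show t ∈ Ioo (-(1 / 2) : ℝ) (1 / 2) from abs_lt.1 h)]
  · rw [if_neg h, indicator_of_notMem (fun hm : t ∈ Ioo (-(1 / 2) : ℝ) (1 / 2) => h (abs_lt.2 hm))]

lemma cc_sq_int : ∫ t, cc t ^ 2 = 1 / 2 := by
  have h := int_cos_sq 0
  simp only [mul_zero, sub_zero] at h
  rw [← h, integral_Ioc_eq_integral_Ioo, ← integral_indicator measurableSet_Ioo]
  congr 1
  funext t
  rw [cc_eq]
  by_cases hm : t ∈ Ioo (-(1 / 2) : ℝ) (1 / 2)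
  · rw [indicator_of_mem hm, indicator_of_mem hm]
  · rw [indicator_of_notMem hm, indicator_of_notMem hm]; simp

lemma ss_sq_int : ∫ t, ss t ^ 2 = Real.pi ^ 2 / 2 := by
  rw [← int_sin_sq, integral_Ioc_eq_integral_Ioo, ← integral_indicator measurableSet_Ioo]
  congr 1
  funext t
  unfold ss
  by_cases h : |t| < 1 / 2
  · rw [if_pos h, indicator_of_mem (show t ∈ Ioo (-(1 / 2) : ℝ) (1 / 2) from abs_lt.1 h)]; ring
  · rw [if_neg h, indicator_of_notMem (fun hm : t ∈ Ioo (-(1 / 2) : ℝ) (1 / 2) => h (abs_lt.2 hm))]; ring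

lemma cs_int : ∫ t, cc t * ss t = 0 := by
  have h1 : ∫ t, cc (-t) * ss (-t) = ∫ t, cc t * ss t :=
    integral_neg_eq_self (fun t => cc t * ss t) volume
  have h2 : ∀ t, cc (-t) * ss (-t) = -(cc t * ss t) := by
    intro t
    unfold cc ss
    rw [abs_neg]
    by_cases h : |t| < 1 / 2
    · rw [if_pos h, if_pos h, if_pos h, if_pos h, mul_neg, Real.cos_neg, Real.sin_neg]; ring
    · simp only [if_neg h]; simp
  simp_rw [h2] at h1
  rw [integral_neg] at h1
  linarith

/-- The limit family. -/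
noncomputable def c0 (a : Fin n → ℝ) (i : Fin n) (t : ℝ) : ℝ := cc (t / a i)

/-- The derivatives of the limit family. -/
noncomputable def s0 (a : Fin n → ℝ) (i : Fin n) (t : ℝ) : ℝ := ss (t / a i) / a i

lemma msN_lim {a : Fin n → ℝ} (ha : ∀ i, 0 < a i) : msN (pf (c0 a)) = ∏ k, (a k / 2) := by
  rw [msN_pf]
  refine Finset.prod_congr rfl fun k _ => ?_
  unfold c0
  rw [Measure.integral_comp_div (fun t => cc t ^ 2), cc_sq_int, abs_of_pos (ha k), smul_eq_mul]
  ring

lemma mm_lim {a : Fin n → ℝ} (ha : ∀ i, 0 < a i) :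
    mm (gp (c0 a) (s0 a)) = Matrix.diagonal fun i => Real.pi ^ 2 / a i ^ 2 * ∏ k, (a k / 2) := by
  ext i j
  rw [mm_gp]
  by_cases hij : i = j
  · subst hij
    rw [Matrix.diagonal_apply_eq, ← Finset.mul_prod_erase _ _ (Finset.mem_univ i),
      ← Finset.mul_prod_erase _ (fun k => a k / 2) (Finset.mem_univ i), ← mul_assoc]
    congr 1
    · simp only [ψf, if_true, s0]
      have e : ∀ t, ss (t / a i) / a i * (ss (t / a i) / a i) = (1 / a i ^ 2) * (ss (t / a i)) ^ 2 := by
        intro t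
        have := (ha i).ne'
        field_simp
      simp_rw [e]
      rw [integral_const_mul, Measure.integral_comp_div (fun t => ss t ^ 2), ss_sq_int,
        abs_of_pos (ha i), smul_eq_mul]
      have := (ha i).ne'
      field_simp
    · refine Finset.prod_congr rfl fun k hk => ?_
      have hki := Finset.ne_of_mem_erase hk
      simp only [ψf, if_neg hki, c0]
      have e : ∀ t, cc (t / a k) * cc (t / a k) = cc (t / a k) ^ 2 := fun t => by ring
      simp_rw [e]
      rw [Measure.integral_comp_div (fun t => cc t ^ 2), cc_sq_int, abs_of_pos (ha k), smul_eq_mul]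
      ring
  · rw [Matrix.diagonal_apply_ne _ hij]
    refine Finset.prod_eq_zero (Finset.mem_univ i) ?_
    simp only [ψf, if_true, if_neg hij, s0, c0]
    have e : ∀ t, ss (t / a i) / a i * cc (t / a i) = (1 / a i) * (cc (t / a i) * ss (t / a i)) := by
      intro t; ring
    simp_rw [e]
    rw [integral_const_mul, Measure.integral_comp_div (fun t => cc t * ss t), cs_int]
    simp

end Pool.Agent.Lib.MP_9c48c1_an
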