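import Mathlib
import Pool.Agent.Lib.MP_9c48c1_an.BoxProd

set_option autoImplicit false

/-! Approximation of the product of cosines by admissible functions. -/

namespace Pool.Agent.Lib.MP_9c48c1_an

open MeasureTheory Set Filter Topology

variable {n : ℕ}

/-- Dominated convergence in `L²`. -/
lemma tendsto_dom {F : Type*} [NormedAddCommGroup F] {h : ℕ → E n → F}
    {h0 : E n → F} {K : Set (E n)} {B : ℝ} (hK : MeasurableSet K) (hKf : volume K ≠ ⊤)
    (hm : ∀ k, AEStronglyMeasurable (h k) volume)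
    (hm0 : AEStronglyMeasurable h0 volume)
    (hb : ∀ k x, ‖h k x‖ ≤ K.indicator (fun _ => B) x)
    (hb0 : ∀ x, ‖h0 x‖ ≤ K.indicator (fun _ => B) x)
    (hlim : ∀ x, Tendsto (fun k => h k x) atTop (𝓝 (h0 x))) :
    Tendsto (fun k => eLpNorm (h k - h0) 2 volume) atTop (𝓝 0) := by
  have h1 : Tendsto (fun k => ∫⁻ x, ‖(h k - h0) x‖ₑ ^ (2 : ℝ)) atTop (𝓝 (∫⁻ _ : E n, (0 : ENNReal))) := by
    refine tendsto_lintegral_of_dominated_convergence'
      (K.indicator fun _ => (ENNReal.ofReal (2 * B)) ^ (2 : ℝ)) ?_ ?_ ?_ ?_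
    · intro k
      exact ((hm k).sub hm0).enorm.pow_const 2
    · intro k
      filter_upwards with x
      have h2 : ‖(h k - h0) x‖ ≤ K.indicator (fun _ => 2 * B) x := by
        refine (norm_sub_le _ _).trans ?_
        have a1 := hb k x
        have a2 := hb0 x
        by_cases hx : x ∈ K
        · rw [indicator_of_mem hx] at *
          linarith
        · rw [indicator_of_notMem hx] at *
          linarith
      by_cases hx : x ∈ K
      · rw [indicator_of_mem hx] at h2 ⊢
        refine ENNReal.rpow_le_rpow ?_ (by norm_num)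
        rw [← ofReal_norm]
        exact ENNReal.ofReal_le_ofReal h2
      · rw [indicator_of_notMem hx] at h2 ⊢
        have : (h k - h0) x = 0 := norm_le_zero_iff.1 h2
        rw [this]; simp
    · rw [lintegral_indicator hK, setLIntegral_const]
      exact ENNReal.mul_ne_top (ENNReal.rpow_ne_top_of_nonneg (by norm_num) ENNReal.ofReal_ne_top) hKf
    · filter_upwards with x
      have h3 : Tendsto (fun k => (h k - h0) x) atTop (𝓝 0) := by
        have := (hlim x).sub_const (h0 x)
        simpa using this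
      have h4 : Tendsto (fun k => ‖(h k - h0) x‖ₑ) atTop (𝓝 0) := by
        have := h3.enorm
        simpa using this
      have h5 := (ENNReal.continuous_rpow_const (y := 2)).tendsto (0 : ENNReal)
      have h6 := h5.comp h4
      simpa [Function.comp_def] using h6
  simp only [lintegral_zero] at h1
  have h7 := (ENNReal.continuous_rpow_const (y := 1 / 2)).tendsto (0 : ENNReal)
  have h8 := h7.comp h1
  have e0 : (0 : ENNReal) ^ ((1 : ℝ) / 2) = 0 := ENNReal.zero_rpow_of_pos (by norm_num)
  rw [e0] at h8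
  refine h8.congr fun k => ?_
  rw [eLpNorm_eq_lintegral_rpow_enorm_toReal (by norm_num) (by norm_num)]
  simp

lemma memLp_dom {F : Type*} [NormedAddCommGroup F] {h0 : E n → F} {K : Set (E n)} {B : ℝ}
    (hK : MeasurableSet K) (hKf : volume K ≠ ⊤)
    (hm0 : AEStronglyMeasurable h0 volume)
    (hb0 : ∀ x, ‖h0 x‖ ≤ K.indicator (fun _ => B) x) : MemLp h0 2 := by
  have h1 : MemLp (K.indicator (fun _ : E n => B)) 2 (volume : Measure (E n)) :=
    memLp_indicator_const 2 hK B (Or.inr hKf)
  refine h1.mono' hm0 ?_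
  filter_upwards with x
  exact hb0 x

/-- Bounds of the test function. -/
lemma uu_bound {δ : ℝ} (hδ : 0 < δ) (t : ℝ) :
    |uu δ t| ≤ (Icc (-(1 / 2) : ℝ) (1 / 2)).indicator (fun _ => (1 : ℝ)) t := by
  by_cases hm : t ∈ Icc (-(1 / 2) : ℝ) (1 / 2)
  · rw [indicator_of_mem hm]
    have h1 : |t| < 3 / 4 := by
      rw [abs_lt]
      exact ⟨by linarith [hm.1], by linarith [hm.2]⟩
    rw [(uu_eq (δ := δ) h1).eq_of_nhds]
    unfold HH
    have hc := Real.cos_le_one (Real.pi * t)
    have h2 : 0 ≤ max (Real.cos (Real.pi * t) - δ) 0 := le_max_right _ _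
    have h3 : 0 < max (Real.cos (Real.pi * t)) δ := lt_of_lt_of_le hδ (le_max_right _ _)
    rw [abs_of_nonneg (by positivity), div_le_one h3]
    rcases le_or_gt (Real.cos (Real.pi * t)) δ with h | h
    · rw [max_eq_right (by linarith : Real.cos (Real.pi * t) - δ ≤ 0)]
      simp only [ne_eq, OfNat.ofNat_ne_zero, not_false_eq_true, zero_pow]
      exact h3.le
    · rw [max_eq_left (by linarith : 0 ≤ Real.cos (Real.pi * t) - δ), max_eq_left h.le]
      nlinarith
  · rw [indicator_of_notMem hm]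
    have h1 : 1 / 2 ≤ |t| := by
      by_contra hcon
      push Not at hcon
      have := abs_lt.1 hcon
      exact hm ⟨this.1.le, this.2.le⟩
    rw [(uu_zero hδ h1).eq_of_nhds]
    simp

lemma uu_deriv_bound {δ : ℝ} (hδ : 0 < δ) (t : ℝ) :
    |deriv (uu δ) t| ≤ (Icc (-(1 / 2) : ℝ) (1 / 2)).indicator (fun _ => Real.pi) t := by
  have h := uu_deriv_sq hδ t
  by_cases hm : t ∈ Ioc (-(1 / 2) : ℝ) (1 / 2)
  · rw [indicator_of_mem (Ioc_subset_Icc_self hm)]
    rw [indicator_of_mem hm] at h
    have h1 : deriv (uu δ) t ^ 2 ≤ Real.pi ^ 2 := by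
      have := Real.sin_sq_le_one (Real.pi * t)
      nlinarith [sq_nonneg Real.pi]
    exact abs_le_of_sq_le_sq h1 Real.pi_pos.le
  · rw [indicator_of_notMem hm] at h
    have h1 : deriv (uu δ) t = 0 := by nlinarith [sq_nonneg (deriv (uu δ) t)]
    rw [h1, abs_zero]
    exact indicator_nonneg (fun _ _ => Real.pi_pos.le) t

/-- The sequence of parameters. -/
noncomputable def dk (k : ℕ) : ℝ := 1 / ((k : ℝ) + 1)

lemma dk_pos (k : ℕ) : 0 < dk k := by unfold dk; positivity

lemma dk_tendsto : Tendsto dk atTop (𝓝 0) := tendsto_one_div_add_atTop_nhds_zero_nat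

lemma uu_lim (t : ℝ) : Tendsto (fun k => uu (dk k) t) atTop (𝓝 (cc t)) := by
  unfold cc
  by_cases h : |t| < 1 / 2
  · rw [if_pos h]
    have hcos : 0 < Real.cos (Real.pi * t) := by
      have h' := abs_lt.1 h
      refine Real.cos_pos_of_mem_Ioo ⟨?_, ?_⟩
      · nlinarith [Real.pi_pos, h'.1]
      · nlinarith [Real.pi_pos, h'.2]
    have e : ∀ᶠ k in atTop, uu (dk k) t =
        (Real.cos (Real.pi * t) - dk k) ^ 2 / Real.cos (Real.pi * t) := by
      filter_upwards [dk_tendsto.eventually_lt_const hcos] with k hk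
      rw [(uu_eq (δ := dk k) (by linarith : |t| < 3 / 4)).eq_of_nhds]
      unfold HH
      rw [max_eq_left (by linarith : 0 ≤ Real.cos (Real.pi * t) - dk k), max_eq_left hk.le]
    refine Tendsto.congr' (EventuallyEq.symm e) ?_
    have h1 : Tendsto (fun k => (Real.cos (Real.pi * t) - dk k) ^ 2 / Real.cos (Real.pi * t)) atTop
        (𝓝 ((Real.cos (Real.pi * t) - 0) ^ 2 / Real.cos (Real.pi * t))) :=
      ((dk_tendsto.const_sub _).pow 2).div_const _
    have e2 : (Real.cos (Real.pi * t) - 0) ^ 2 / Real.cos (Real.pi * t) = Real.cos (Real.pi * t) := by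
      field_simp
      ring
    rwa [e2] at h1
  · rw [if_neg h]
    push Not at h
    refine tendsto_const_nhds.congr fun k => ?_
    rw [(uu_zero (dk_pos k) h).eq_of_nhds]

lemma uu_deriv_lim (t : ℝ) : Tendsto (fun k => deriv (uu (dk k)) t) atTop (𝓝 (ss t)) := by
  unfold ss
  by_cases h : |t| < 1 / 2
  · rw [if_pos h]
    have hcos : 0 < Real.cos (Real.pi * t) := by
      have h' := abs_lt.1 h
      refine Real.cos_pos_of_mem_Ioo ⟨?_, ?_⟩
      · nlinarith [Real.pi_pos, h'.1]
      · nlinarith [Real.pi_pos, h'.2]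
    have e : ∀ᶠ k in atTop, deriv (uu (dk k)) t =
        (1 - dk k ^ 2 / Real.cos (Real.pi * t) ^ 2) * (-Real.sin (Real.pi * t) * Real.pi) := by
      filter_upwards [dk_tendsto.eventually_lt_const hcos] with k hk
      have h1 : HasDerivAt (fun y => HH (dk k) (Real.cos (Real.pi * y)))
          ((1 - (dk k) ^ 2 / (max (Real.cos (Real.pi * t)) (dk k)) ^ 2) *
            (-Real.sin (Real.pi * t) * Real.pi)) t := by
        have h2 : HasDerivAt (fun y : ℝ => Real.pi * y) Real.pi t :=
          ((hasDerivAt_id t).const_mul Real.pi).congr_deriv (by simp)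
        exact (HH_hasDerivAt (dk_pos k) _).comp t (h2.cos)
      rw [(uu_eq (by linarith)).deriv_eq, h1.deriv, max_eq_left hk.le]
    refine Tendsto.congr' (EventuallyEq.symm e) ?_
    have h1 : Tendsto (fun k => (1 - dk k ^ 2 / Real.cos (Real.pi * t) ^ 2) *
        (-Real.sin (Real.pi * t) * Real.pi)) atTop
        (𝓝 ((1 - 0 ^ 2 / Real.cos (Real.pi * t) ^ 2) * (-Real.sin (Real.pi * t) * Real.pi))) :=
      (((dk_tendsto.pow 2).div_const _).const_sub 1).mul_const _
    have e2 : (1 - 0 ^ 2 / Real.cos (Real.pi * t) ^ 2) * (-Real.sin (Real.pi * t) * Real.pi) =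
        -Real.pi * Real.sin (Real.pi * t) := by
      simp; ring
    rwa [e2] at h1
  · rw [if_neg h]
    push Not at h
    refine tendsto_const_nhds.congr fun k => ?_
    rw [(uu_zero (dk_pos k) h).deriv_eq]
    simp

end Pool.Agent.Lib.MP_9c48c1_an
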