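import Mathlib
import Pool.Agent.Lib.MP_9c48c1_an.BoxConv

set_option autoImplicit false

/-! The exact constant for boxes, `p = 2`. -/

namespace Pool.Agent.Lib.MP_9c48c1_an

open MeasureTheory Set Filter Topology Matrix

variable {n : ℕ}

section general

variable {Ω : Set (E n)} {f : E n → ℝ}

lemma admN_compact (hΩ : Bornology.IsBounded Ω) (hf : Adm Ω f) : HasCompactSupport f :=
  Metric.isCompact_of_isClosed_isBounded (isClosed_tsupport f) (hΩ.subset hf.2)

lemma gradientN_continuous (hf : ContDiff ℝ 1 f) : Continuous (gradient f) :=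
  (InnerProductSpace.toDual ℝ (E n)).symm.continuous.comp (hf.continuous_fderiv one_ne_zero)

lemma gradientN_compact (hcs : HasCompactSupport f) : HasCompactSupport (gradient f) :=
  (hcs.fderiv (𝕜 := ℝ)).comp_left (g := (InnerProductSpace.toDual ℝ (E n)).symm) (map_zero _)

lemma admN_memLp (hΩ : Bornology.IsBounded Ω) (hf : Adm Ω f) : MemLp f 2 :=
  hf.1.continuous.memLp_of_hasCompactSupport (admN_compact hΩ hf)

lemma admN_grad_memLp (hΩ : Bornology.IsBounded Ω) (hf : Adm Ω f) : MemLp (gradient f) 2 :=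
  (gradientN_continuous hf.1).memLp_of_hasCompactSupport (gradientN_compact (admN_compact hΩ hf))

lemma mm_symm (g : E n → E n) : (mm g).IsHermitian := by
  rw [IsHermitian, conjTranspose_eq_transpose_of_trivial]
  ext i j
  simp only [mm, transpose_apply, of_apply]
  refine integral_congr_ae ?_
  filter_upwards with x
  ring

lemma affEnergy_nonneg (hn : 0 < n) (g : E n → E n) : 0 ≤ affEnergy 2 g := by
  unfold affEnergy
  have h := omega_pos hn
  have h1 : (0 : ℝ) < n := by exact_mod_cast hn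
  rw [cnp_two' hn]
  refine mul_nonneg (by positivity) (Real.rpow_nonneg (integral_nonneg fun ξ => ?_) _)
  refine Real.rpow_nonneg ?_ _
  exact Real.rpow_nonneg (integral_nonneg fun x => Real.rpow_nonneg (abs_nonneg _) _) _

end general

variable {a : Fin n → ℝ}

lemma box_bounded (a : Fin n → ℝ) : Bornology.IsBounded (box a) := by
  refine (Metric.isBounded_iff_subset_closedBall 0).2 ⟨∑ i, |a i|, fun x hx => ?_⟩
  rw [mem_closedBall_zero_iff]
  have h1 : ‖x‖ ≤ ∑ i, ‖x i‖ := by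
    rw [EuclideanSpace.norm_eq]
    rw [Real.sqrt_le_left (Finset.sum_nonneg fun i _ => norm_nonneg _)]
    exact Finset.sum_sq_le_sq_sum_of_nonneg fun i _ => norm_nonneg _
  refine h1.trans (Finset.sum_le_sum fun i _ => ?_)
  rw [Real.norm_eq_abs]
  have h2 := hx i
  have h3 := le_abs_self (a i)
  have h4 := abs_nonneg (a i)
  linarith

/-- The key quadratic form inequality for admissible functions of the box. -/
lemma quad_ineq (ha : ∀ i, 0 < a i) {f : E n → ℝ} (hf : Adm (box a) f) (v : Fin n → ℝ) (k : Fin n) :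
    (Real.pi ^ 2 * msN f) / a k ^ 2 * v k ^ 2 ≤ v ⬝ᵥ (mm (gradient f) *ᵥ v) := by
  have h := dir_ineq hf.1 (admN_compact (box_bounded a) hf) (k := k) (ha k)
    (fun x hx => hf.2 hx k) (WithLp.toLp 2 v)
  have h2 : ∫ x, (fderiv ℝ f x (WithLp.toLp 2 v)) ^ 2 = v ⬝ᵥ (mm (gradient f) *ᵥ v) := by
    have h3 := dir_intN (admN_grad_memLp (box_bounded a) hf) (WithLp.toLp 2 v)
    rw [qM_eq] at h3
    rw [← h3]
    refine integral_congr_ae ?_
    filter_upwards with x
    rw [gradN_apply]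
  rw [← h2]
  exact h

lemma msN_pos {f : E n → ℝ} (hf : MemLp f 2) (h0 : ¬ f =ᵐ[volume] 0) : 0 < msN f := by
  have hint : Integrable (fun x => f x ^ 2) := hf.integrable_sq
  refine lt_of_le_of_ne (msN_nonneg f) fun h2 => h0 ?_
  have h3 := (integral_eq_zero_iff_of_nonneg (fun x => sq_nonneg (f x)) hint).1 h2.symm
  filter_upwards [h3] with x hx
  simpa using hx

lemma mm_posDef (ha : ∀ i, 0 < a i) {f : E n → ℝ} (hf : Adm (box a) f) (hN : 0 < msN f) :
    (mm (gradient f)).PosDef := by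
  rw [posDef_iff_dotProduct_mulVec]
  refine ⟨mm_symm _, fun v hv => ?_⟩
  obtain ⟨k, hk⟩ : ∃ k, v k ≠ 0 := by
    by_contra hcon
    push Not at hcon
    exact hv (funext hcon)
  have h1 := quad_ineq ha hf v k
  have h2 : 0 < (Real.pi ^ 2 * msN f) / a k ^ 2 * v k ^ 2 := by
    have := ha k
    have := Real.pi_pos
    have : 0 < v k ^ 2 := by positivity
    positivity
  rw [star_trivial]
  linarith

/-- The number `C = (∏ a_i²) (∑ 1 / a_i²)`. -/
noncomputable def CC (a : Fin n → ℝ) : ℝ := (∏ k, a k ^ 2) * ∑ k, 1 / a k ^ 2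

lemma CC_pos (hn : 0 < n) (ha : ∀ i, 0 < a i) : 0 < CC a := by
  have : Nonempty (Fin n) := ⟨⟨0, hn⟩⟩
  refine mul_pos (Finset.prod_pos fun i _ => ?_) (Finset.sum_pos (fun i _ => ?_) Finset.univ_nonempty)
  · have := ha i; positivity
  · have := ha i; positivity

lemma boxConst_pow (hn : 0 < n) (ha : ∀ i, 0 < a i) :
    0 ≤ boxConst a ∧ boxConst a ^ (2 * n) = (n : ℝ) ^ n * Real.pi ^ (2 * (n - 1)) / CC a := by
  have h1 := CC_pos hn ha
  have hn' : (0 : ℝ) < n := by exact_mod_cast hn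
  have hpi := Real.pi_pos
  have e : boxConst a = ((n : ℝ) ^ n * Real.pi ^ (2 * (n - 1)) / CC a) ^ (1 / (2 * (n : ℝ))) := rfl
  rw [e]
  constructor
  · positivity
  · rw [← Real.rpow_natCast, ← Real.rpow_mul (by positivity)]
    have : 1 / (2 * (n : ℝ)) * ((2 * n : ℕ) : ℝ) = 1 := by push_cast; field_simp
    rw [this, Real.rpow_one]

/-- The inequality with the constant `boxConst a`. -/
lemma box_lower (hn : 0 < n) (ha : ∀ i, 0 < a i) {f : E n → ℝ} (hf : Adm (box a) f) :
    boxConst a * rhs 2 f (gradient f) ≤ affEnergy 2 (gradient f) := by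
  have hg := admN_grad_memLp (box_bounded a) hf
  have hf2 := admN_memLp (box_bounded a) hf
  by_cases h0 : f =ᵐ[volume] 0
  · have h1 : f = 0 := (Continuous.ae_eq_iff_eq volume hf.1.continuous continuous_zero).1 h0
    have h2 : (mm (gradient f)).trace = 0 := by
      have hz : gradient f = fun _ => 0 := by
        funext x
        rw [h1]
        refine ext_inner_right ℝ fun v => ?_
        rw [gradN_apply]
        have : (0 : E n → ℝ) = fun _ => 0 := rfl
        rw [this]
        simp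
      rw [hz]
      simp [mm, Matrix.trace]
    obtain ⟨h3, h4⟩ := rhs_powN hn f hg
    rw [h2, mul_zero] at h4
    have h5 : rhs 2 f (gradient f) = 0 := pow_eq_zero_iff (by omega) |>.1 h4
    rw [h5, mul_zero]
    exact affEnergy_nonneg hn _
  · have hN := msN_pos hf2 h0
    have hM := mm_posDef ha hf hN
    obtain ⟨hb0, hb⟩ := boxConst_pow hn ha
    rw [le_iff_pow hn hg hM hb0, hb]
    have hP : 0 < Real.pi ^ 2 * msN f := by positivity
    have h1 := det_ineq hM ha hP (fun v k => quad_ineq ha hf v k)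
    have hC := CC_pos hn ha
    have e : (∏ k, a k ^ 2) * ∑ k, 1 / a k ^ 2 = CC a := rfl
    rw [e] at h1
    have hn' : (0 : ℝ) < (n : ℝ) ^ n := by positivity
    calc (n : ℝ) ^ n * Real.pi ^ (2 * (n - 1)) / CC a * (msN f ^ (n - 1) * (mm (gradient f)).trace)
        = (n : ℝ) ^ n * (((Real.pi ^ 2 * msN f) ^ (n - 1) * (mm (gradient f)).trace) / CC a) := by
          rw [mul_pow, ← pow_mul]; ring
      _ ≤ (n : ℝ) ^ n * ((mm (gradient f)).det) := by
          refine mul_le_mul_of_nonneg_left ?_ hn'.le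
          rw [div_le_iff₀ hC]
          linarith

/-- The approximating functions. -/
noncomputable def φk (a : Fin n → ℝ) (k : ℕ) (i : Fin n) (t : ℝ) : ℝ := uu (dk k) (t / a i)

/-- Their derivatives. -/
noncomputable def φk' (a : Fin n → ℝ) (k : ℕ) (i : Fin n) (t : ℝ) : ℝ :=
  deriv (uu (dk k)) (t / a i) / a i

lemma φk_hasDerivAt (a : Fin n → ℝ) (k : ℕ) (i : Fin n) (t : ℝ) :
    HasDerivAt (φk a k i) (φk' a k i t) t := by
  have h1 : HasDerivAt (uu (dk k)) (deriv (uu (dk k)) (t / a i)) (t / a i) :=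
    ((uu_contDiff (dk_pos k)).differentiable one_ne_zero _).hasDerivAt
  have h2 : HasDerivAt (fun t : ℝ => t / a i) (1 / a i) t := (hasDerivAt_id t).div_const _
  refine (h1.comp t h2).congr_deriv ?_
  unfold φk'
  ring

lemma gradient_k (a : Fin n → ℝ) (k : ℕ) : gradient (pf (φk a k)) = gp (φk a k) (φk' a k) := by
  funext x
  exact gradient_pf fun i => φk_hasDerivAt a k i (x i)

lemma adm_k (ha : ∀ i, 0 < a i) (k : ℕ) : Adm (box a) (pf (φk a k)) := by
  obtain ⟨α, hα0, hα1, hα⟩ := uu_tsupport (dk_pos k)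
  constructor
  · unfold pf φk
    refine contDiff_prod fun i _ => ?_
    exact (uu_contDiff (dk_pos k)).comp (by fun_prop)
  · have h1 : tsupport (pf (φk a k)) ⊆ {x : E n | ∀ i, |x i| ≤ a i * α} := by
      refine closure_minimal ?_ ?_
      · intro x hx i
        have hx' : ∏ i, uu (dk k) (x i / a i) ≠ 0 := hx
        have h2 : uu (dk k) (x i / a i) ≠ 0 := (Finset.prod_ne_zero_iff.1 hx') i (Finset.mem_univ i)
        have h3 := hα _ (subset_tsupport _ h2)
        rw [abs_div, abs_of_pos (ha i), div_le_iff₀ (ha i)] at h3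
        linarith
      · have : {x : E n | ∀ i, |x i| ≤ a i * α} = ⋂ i, {x : E n | |x i| ≤ a i * α} := by
          ext x; simp
        rw [this]
        refine isClosed_iInter fun i => ?_
        have c0 : Continuous (fun x : E n => |x i|) := by fun_prop
        exact isClosed_le c0 continuous_const
    intro x hx i
    have h2 := h1 hx i
    have := ha i
    nlinarith

/-- The closed box. -/
def cbox (a : Fin n → ℝ) : Set (E n) := {x | ∀ i, |x i / a i| ≤ 1 / 2}

lemma cbox_meas (a : Fin n → ℝ) : MeasurableSet (cbox a) := by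
  have : cbox a = ⋂ i, {x : E n | |x i / a i| ≤ 1 / 2} := by
    ext x; simp [cbox]
  rw [this]
  refine MeasurableSet.iInter fun i => ?_
  have c0 : Continuous (fun x : E n => |x i / a i|) := by fun_prop
  exact (isClosed_le c0 continuous_const).measurableSet

lemma cbox_fin (ha : ∀ i, 0 < a i) : volume (cbox a) ≠ ⊤ := by
  have h1 : Bornology.IsBounded (cbox a) := by
    refine (box_bounded (fun i => 2 * a i)).subset fun x hx i => ?_
    have := hx i
    have h2 := ha i
    rw [abs_div, abs_of_pos h2, div_le_iff₀ h2] at this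
    simp only
    linarith
  exact (h1.measure_lt_top).ne

/-- A common bound for all products. -/
noncomputable def BB (a : Fin n → ℝ) : ℝ := ∏ i, (1 + Real.pi / a i)

lemma BB_ge (ha : ∀ i, 0 < a i) (i : Fin n) : 1 ≤ 1 + Real.pi / a i := by
  have := ha i
  have := Real.pi_pos
  have : 0 < Real.pi / a i := by positivity
  linarith

lemma prod_bound (ha : ∀ i, 0 < a i) {φ : Fin n → ℝ → ℝ}
    (h : ∀ i t, |φ i t| ≤ (Icc (-(1 / 2) : ℝ) (1 / 2)).indicator (fun _ => 1 + Real.pi / a i) (t / a i))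
    (x : E n) : |∏ i, φ i (x i)| ≤ (cbox a).indicator (fun _ => BB a) x := by
  rw [Finset.abs_prod]
  by_cases hx : x ∈ cbox a
  · rw [indicator_of_mem hx]
    refine Finset.prod_le_prod (fun i _ => abs_nonneg _) fun i _ => ?_
    have h1 := h i (x i)
    rwa [indicator_of_mem (show x i / a i ∈ Icc (-(1 / 2) : ℝ) (1 / 2) from abs_le.1 (hx i))] at h1
  · rw [indicator_of_notMem hx]
    have : ∃ i, ¬ |x i / a i| ≤ 1 / 2 := by
      by_contra hcon
      push Not at hcon
      exact hx hcon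
    obtain ⟨i, hi⟩ := this
    have h1 := h i (x i)
    rw [indicator_of_notMem (fun hm : x i / a i ∈ Icc (-(1 / 2) : ℝ) (1 / 2) => hi (abs_le.2 hm))] at h1
    have h2 : |φ i (x i)| = 0 := le_antisymm h1 (abs_nonneg _)
    exact (Finset.prod_eq_zero (Finset.mem_univ i) h2).le

lemma φk_bound (ha : ∀ i, 0 < a i) (k : ℕ) (i : Fin n) (t : ℝ) : |φk a k i t| ≤
    (Icc (-(1 / 2) : ℝ) (1 / 2)).indicator (fun _ => 1 + Real.pi / a i) (t / a i) := by
  refine (uu_bound (dk_pos k) (t / a i)).trans ?_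
  exact indicator_le_indicator (BB_ge ha i)

lemma φk'_bound (ha : ∀ i, 0 < a i) (k : ℕ) (i : Fin n) (t : ℝ) : |φk' a k i t| ≤
    (Icc (-(1 / 2) : ℝ) (1 / 2)).indicator (fun _ => 1 + Real.pi / a i) (t / a i) := by
  unfold φk'
  rw [abs_div, abs_of_pos (ha i), div_le_iff₀ (ha i)]
  refine (uu_deriv_bound (dk_pos k) (t / a i)).trans ?_
  by_cases hm : t / a i ∈ Icc (-(1 / 2) : ℝ) (1 / 2)
  · rw [indicator_of_mem hm, indicator_of_mem hm]
    have := (ha i)
    have e : (1 + Real.pi / a i) * a i = a i + Real.pi := by field_simp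
    rw [e]; linarith
  · rw [indicator_of_notMem hm, indicator_of_notMem hm]; simp

lemma ψf_bound (ha : ∀ i, 0 < a i) (k : ℕ) (j i : Fin n) (t : ℝ) :
    |ψf (φk a k) (φk' a k) j i t| ≤
    (Icc (-(1 / 2) : ℝ) (1 / 2)).indicator (fun _ => 1 + Real.pi / a i) (t / a i) := by
  unfold ψf
  split_ifs
  · exact φk'_bound ha k i t
  · exact φk_bound ha k i t

lemma φk_lim (a : Fin n → ℝ) (i : Fin n) (t : ℝ) :
    Tendsto (fun k => φk a k i t) atTop (𝓝 (c0 a i t)) := uu_lim _

lemma φk'_lim (a : Fin n → ℝ) (i : Fin n) (t : ℝ) :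
    Tendsto (fun k => φk' a k i t) atTop (𝓝 (s0 a i t)) := (uu_deriv_lim _).div_const _

lemma ψf_lim (a : Fin n → ℝ) (j i : Fin n) (t : ℝ) :
    Tendsto (fun k => ψf (φk a k) (φk' a k) j i t) atTop (𝓝 (ψf (c0 a) (s0 a) j i t)) := by
  unfold ψf
  split_ifs
  · exact φk'_lim a i t
  · exact φk_lim a i t

lemma pf_lim (a : Fin n → ℝ) (x : E n) :
    Tendsto (fun k => pf (φk a k) x) atTop (𝓝 (pf (c0 a) x)) :=
  tendsto_finsetProd _ fun i _ => φk_lim a i (x i)

lemma gp_lim_comp (a : Fin n → ℝ) (x : E n) (i : Fin n) :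
    Tendsto (fun k => gp (φk a k) (φk' a k) x i) atTop (𝓝 (gp (c0 a) (s0 a) x i)) := by
  simp only [gp_apply]
  exact tendsto_finsetProd _ fun j _ => ψf_lim a i j (x j)

lemma gp_lim (a : Fin n → ℝ) (x : E n) :
    Tendsto (fun k => gp (φk a k) (φk' a k) x) atTop (𝓝 (gp (c0 a) (s0 a) x)) := by
  have h1 : Tendsto (fun k => (gp (φk a k) (φk' a k) x).ofLp) atTop
      (𝓝 ((gp (c0 a) (s0 a) x).ofLp)) := tendsto_pi_nhds.2 fun i => gp_lim_comp a x i
  exact ((PiLp.continuous_toLp 2 _).tendsto _).comp h1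

lemma pf_bound (ha : ∀ i, 0 < a i) (k : ℕ) (x : E n) :
    ‖pf (φk a k) x‖ ≤ (cbox a).indicator (fun _ => BB a) x :=
  prod_bound ha (fun i t => φk_bound ha k i t) x

lemma gp_bound (ha : ∀ i, 0 < a i) (k : ℕ) (x : E n) :
    ‖gp (φk a k) (φk' a k) x‖ ≤ (cbox a).indicator (fun _ => n * BB a) x := by
  have h1 : ‖gp (φk a k) (φk' a k) x‖ ≤ ∑ i, ‖gp (φk a k) (φk' a k) x i‖ := by
    rw [EuclideanSpace.norm_eq]
    rw [Real.sqrt_le_left (Finset.sum_nonneg fun i _ => norm_nonneg _)]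
    exact Finset.sum_sq_le_sq_sum_of_nonneg fun i _ => norm_nonneg _
  have h2 : ∀ i, ‖gp (φk a k) (φk' a k) x i‖ ≤ (cbox a).indicator (fun _ => BB a) x := fun i =>
    prod_bound ha (fun j t => ψf_bound ha k i j t) x
  refine h1.trans ((Finset.sum_le_sum fun i _ => h2 i).trans ?_)
  rw [Finset.sum_const, Finset.card_univ, Fintype.card_fin, nsmul_eq_mul]
  by_cases hx : x ∈ cbox a
  · rw [indicator_of_mem hx, indicator_of_mem hx]
  · rw [indicator_of_notMem hx, indicator_of_notMem hx, mul_zero]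

lemma bound_lim {F : Type*} [NormedAddCommGroup F] {h : ℕ → E n → F} {h0 : E n → F} {B : E n → ℝ}
    (hb : ∀ k x, ‖h k x‖ ≤ B x) (hlim : ∀ x, Tendsto (fun k => h k x) atTop (𝓝 (h0 x))) (x : E n) :
    ‖h0 x‖ ≤ B x := le_of_tendsto (hlim x).norm (Eventually.of_forall fun k => hb k x)

lemma meas_k (ha : ∀ i, 0 < a i) (k : ℕ) : AEStronglyMeasurable (pf (φk a k)) volume :=
  (adm_k ha k).1.continuous.aestronglyMeasurable

lemma meas_gk (ha : ∀ i, 0 < a i) (k : ℕ) : AEStronglyMeasurable (gp (φk a k) (φk' a k)) volume := by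
  rw [← gradient_k]
  exact (gradientN_continuous (adm_k ha k).1).aestronglyMeasurable

lemma meas_0 (ha : ∀ i, 0 < a i) : AEStronglyMeasurable (pf (c0 a)) volume :=
  aestronglyMeasurable_of_tendsto_ae atTop (fun k => meas_k ha k)
    (Eventually.of_forall fun x => pf_lim a x)

lemma meas_g0 (ha : ∀ i, 0 < a i) : AEStronglyMeasurable (gp (c0 a) (s0 a)) volume :=
  aestronglyMeasurable_of_tendsto_ae atTop (fun k => meas_gk ha k)
    (Eventually.of_forall fun x => gp_lim a x)

lemma memLp_0 (ha : ∀ i, 0 < a i) : MemLp (pf (c0 a)) 2 :=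
  memLp_dom (cbox_meas a) (cbox_fin ha) (meas_0 ha) (bound_lim (pf_bound ha) (pf_lim a))

lemma memLp_g0 (ha : ∀ i, 0 < a i) : MemLp (gp (c0 a) (s0 a)) 2 :=
  memLp_dom (cbox_meas a) (cbox_fin ha) (meas_g0 ha) (bound_lim (gp_bound ha) (gp_lim a))

lemma conv_f (ha : ∀ i, 0 < a i) :
    Tendsto (fun k => eLpNorm (pf (φk a k) - pf (c0 a)) 2 volume) atTop (𝓝 0) :=
  tendsto_dom (cbox_meas a) (cbox_fin ha) (meas_k ha) (meas_0 ha) (pf_bound ha)
    (bound_lim (pf_bound ha) (pf_lim a)) (pf_lim a)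

lemma conv_g (ha : ∀ i, 0 < a i) :
    Tendsto (fun k => eLpNorm (gp (φk a k) (φk' a k) - gp (c0 a) (s0 a)) 2 volume) atTop (𝓝 0) :=
  tendsto_dom (cbox_meas a) (cbox_fin ha) (meas_gk ha) (meas_g0 ha) (gp_bound ha)
    (bound_lim (gp_bound ha) (gp_lim a)) (gp_lim a)

lemma memW0_lim (ha : ∀ i, 0 < a i) : MemW0 2 (box a) (pf (c0 a)) (gp (c0 a) (s0 a)) := by
  have e2 : ENNReal.ofReal 2 = 2 := by simp
  refine ⟨by rw [e2]; exact memLp_0 ha, by rw [e2]; exact memLp_g0 ha,
    fun k => pf (φk a k), fun k => adm_k ha k, ?_, ?_⟩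
  · rw [e2]; exact conv_f ha
  · simp only [e2, gradient_k]; exact conv_g ha

end Pool.Agent.Lib.MP_9c48c1_an
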