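import Mathlib
import Pool.Agent.Lib.MP_9c48c1_an.BoxMain

set_option autoImplicit false

/-! The exact constant for boxes, `p = 2`: final statements. -/

namespace Pool.Agent.Lib.MP_9c48c1_an

open MeasureTheory Set Filter Topology Matrix

variable {n : ℕ} {a : Fin n → ℝ}

/-- Convergence of products in `L²`. -/
lemma tendsto_prodN {a b : E n → ℝ} {ak bk : ℕ → E n → ℝ} (ha : MemLp a 2) (hb : MemLp b 2)
    (hak : ∀ k, MemLp (ak k) 2) (hbk : ∀ k, MemLp (bk k) 2)
    (hta : Tendsto (fun k => eLpNorm (ak k - a) 2 volume) atTop (𝓝 0))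
    (htb : Tendsto (fun k => eLpNorm (bk k - b) 2 volume) atTop (𝓝 0)) :
    Tendsto (fun k => ∫ x, ak k x * bk k x) atTop (𝓝 (∫ x, a x * b x)) := by
  have h1 : Tendsto (fun k => (hak k).toLp (ak k)) atTop (𝓝 (ha.toLp a)) := by
    rw [Lp.tendsto_Lp_iff_tendsto_eLpNorm'']
    exact hta
  have h2 : Tendsto (fun k => (hbk k).toLp (bk k)) atTop (𝓝 (hb.toLp b)) := by
    rw [Lp.tendsto_Lp_iff_tendsto_eLpNorm'']
    exact htb
  have h3 := h1.inner (𝕜 := ℝ) h2
  have h4 : ∀ (u v : E n → ℝ) (hu : MemLp u 2) (hv : MemLp v 2),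
      inner ℝ (hu.toLp u) (hv.toLp v) = ∫ x, u x * v x := by
    intro u v hu hv
    rw [L2.inner_def]
    refine integral_congr_ae ?_
    filter_upwards [hu.coeFn_toLp, hv.coeFn_toLp] with x hx hy
    rw [hx, hy]
    simp [mul_comm]
  simpa only [h4] using h3

lemma msN_k (ha : ∀ i, 0 < a i) :
    Tendsto (fun k => msN (pf (φk a k))) atTop (𝓝 (msN (pf (c0 a)))) := by
  have hk : ∀ k, MemLp (pf (φk a k)) 2 := fun k => admN_memLp (box_bounded a) (adm_k ha k)
  have := tendsto_prodN (memLp_0 ha) (memLp_0 ha) hk hk (conv_f ha) (conv_f ha)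
  simpa only [msN, sq] using this

lemma mm_k (ha : ∀ i, 0 < a i) (i j : Fin n) :
    Tendsto (fun k => mm (gp (φk a k) (φk' a k)) i j) atTop (𝓝 (mm (gp (c0 a) (s0 a)) i j)) := by
  have hk : ∀ k, MemLp (gp (φk a k) (φk' a k)) 2 := fun k => by
    rw [← gradient_k]; exact admN_grad_memLp (box_bounded a) (adm_k ha k)
  have hc : ∀ i : Fin n, Tendsto (fun k => eLpNorm ((fun x => gp (φk a k) (φk' a k) x i) -
      fun x => gp (c0 a) (s0 a) x i) 2 volume) atTop (𝓝 0) := by
    intro i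
    refine tendsto_of_tendsto_of_tendsto_of_le_of_le tendsto_const_nhds (conv_g ha)
      (fun k => bot_le) fun k => ?_
    exact eLpNorm_mono fun x => PiLp.norm_apply_le ((gp (φk a k) (φk' a k) - gp (c0 a) (s0 a)) x) i
  exact tendsto_prodN (memLp_compN (memLp_g0 ha) i) (memLp_compN (memLp_g0 ha) j)
    (fun k => memLp_compN (hk k) i) (fun k => memLp_compN (hk k) j) (hc i) (hc j)

lemma trace_k (ha : ∀ i, 0 < a i) : Tendsto (fun k => (mm (gp (φk a k) (φk' a k))).trace) atTop
    (𝓝 ((mm (gp (c0 a) (s0 a))).trace)) := by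
  unfold Matrix.trace
  exact tendsto_finsetSum _ fun i _ => mm_k ha i i

lemma det_k (ha : ∀ i, 0 < a i) : Tendsto (fun k => (mm (gp (φk a k) (φk' a k))).det) atTop
    (𝓝 ((mm (gp (c0 a) (s0 a))).det)) := by
  simp only [det_apply]
  refine tendsto_finsetSum _ fun σ _ => ?_
  refine Tendsto.const_smul ?_ _
  exact tendsto_finsetProd _ fun i _ => mm_k ha _ _

lemma V_pos (ha : ∀ i, 0 < a i) : 0 < ∏ k, (a k / 2) :=
  Finset.prod_pos fun i _ => by have := ha i; positivity

/-- The identity for the product of cosines. -/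
lemma lim_identity (hn : 0 < n) (ha : ∀ i, 0 < a i) :
    boxConst a ^ (2 * n) * (msN (pf (c0 a)) ^ (n - 1) * (mm (gp (c0 a) (s0 a))).trace) =
      (n : ℝ) ^ n * (mm (gp (c0 a) (s0 a))).det := by
  obtain ⟨_, hb⟩ := boxConst_pow hn ha
  rw [hb, msN_lim ha, mm_lim ha, det_diagonal, trace_diagonal]
  obtain ⟨V, hV⟩ : ∃ V, V = ∏ k, (a k / 2) := ⟨_, rfl⟩
  have hVp : 0 < V := hV ▸ V_pos ha
  rw [← hV]
  have e1 : ∑ i, Real.pi ^ 2 / a i ^ 2 * V = Real.pi ^ 2 * V * ∑ i, 1 / a i ^ 2 := by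
    rw [Finset.mul_sum]
    refine Finset.sum_congr rfl fun i _ => ?_
    ring
  have e2 : ∏ i, (Real.pi ^ 2 / a i ^ 2 * V) = (Real.pi ^ 2 * V) ^ n / ∏ i, a i ^ 2 := by
    have e3 : (Real.pi ^ 2 * V) ^ n = ∏ _i : Fin n, (Real.pi ^ 2 * V) := by
      rw [Finset.prod_const, Finset.card_univ, Fintype.card_fin]
    rw [e3, ← Finset.prod_div_distrib]
    refine Finset.prod_congr rfl fun i _ => ?_
    ring
  rw [e1, e2]
  have hS : 0 < ∑ i, 1 / a i ^ 2 := by
    have : Nonempty (Fin n) := ⟨⟨0, hn⟩⟩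
    exact Finset.sum_pos (fun i _ => by have := ha i; positivity) Finset.univ_nonempty
  have hP : 0 < ∏ i, a i ^ 2 := Finset.prod_pos fun i _ => by have := ha i; positivity
  unfold CC
  obtain ⟨m, rfl⟩ : ∃ m, n = m + 1 := ⟨n - 1, by omega⟩
  have hpi := Real.pi_pos
  simp only [Nat.add_sub_cancel]
  field_simp
  ring

lemma trace_lim_pos (hn : 0 < n) (ha : ∀ i, 0 < a i) : 0 < (mm (gp (c0 a) (s0 a))).trace := by
  rw [mm_lim ha, trace_diagonal]
  have : Nonempty (Fin n) := ⟨⟨0, hn⟩⟩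
  have hV := V_pos ha
  refine Finset.sum_pos (fun i _ => ?_) Finset.univ_nonempty
  have := ha i
  have := Real.pi_pos
  positivity

lemma pf_k_pos (ha : ∀ i, 0 < a i) : ∀ᶠ k in atTop, 0 < msN (pf (φk a k)) := by
  have h := msN_k ha
  have h0 : 0 < msN (pf (c0 a)) := by rw [msN_lim ha]; exact V_pos ha
  exact h.eventually_const_lt h0

/-- The best constant of the box. -/
theorem box_best (hn : 0 < n) (ha : ∀ i, 0 < a i) : IsBestConst 2 (box a) (boxConst a) := by
  constructor
  · intro f hf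
    exact box_lower hn ha hf
  · intro A hA
    obtain ⟨hb0, hb⟩ := boxConst_pow hn ha
    rcases le_or_gt A 0 with hA0 | hA0
    · exact hA0.trans hb0
    · have h1 : ∀ᶠ k in atTop, A ^ (2 * n) * (msN (pf (φk a k)) ^ (n - 1) *
          (mm (gp (φk a k) (φk' a k))).trace) ≤ (n : ℝ) ^ n * (mm (gp (φk a k) (φk' a k))).det := by
        filter_upwards [pf_k_pos ha] with k hk
        have hadm := adm_k ha k
        have hM := mm_posDef ha hadm hk
        have hg := admN_grad_memLp (box_bounded a) hadm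
        have h2 := (le_iff_pow hn hg hM hA0.le).1 (hA _ hadm)
        rwa [gradient_k] at h2
      have h2 : A ^ (2 * n) * (msN (pf (c0 a)) ^ (n - 1) * (mm (gp (c0 a) (s0 a))).trace) ≤
          (n : ℝ) ^ n * (mm (gp (c0 a) (s0 a))).det :=
        le_of_tendsto_of_tendsto ((((msN_k ha).pow _).mul (trace_k ha)).const_mul _)
          ((det_k ha).const_mul _) h1
      rw [← lim_identity hn ha] at h2
      have h3 : 0 < msN (pf (c0 a)) ^ (n - 1) * (mm (gp (c0 a) (s0 a))).trace := by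
        have h4 := trace_lim_pos hn ha
        have h5 : 0 < msN (pf (c0 a)) := by rw [msN_lim ha]; exact V_pos ha
        positivity
      have h4 := le_of_mul_le_mul_right h2 h3
      exact le_of_pow_le_pow_left₀ (by omega) hb0 h4

lemma pf_eq_cosProd (ha : ∀ i, 0 < a i) : pf (c0 a) = cosProd a := by
  funext x
  unfold pf c0 cosProd cc
  have hi : ∀ i, |x i / a i| < 1 / 2 ↔ |x i| < a i / 2 := by
    intro i
    rw [abs_div, abs_of_pos (ha i), div_lt_iff₀ (ha i)]
    constructor <;> intro h <;> linarith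
  by_cases hx : x ∈ box a
  · rw [indicator_of_mem hx]
    refine Finset.prod_congr rfl fun i _ => ?_
    rw [if_pos ((hi i).2 (hx i)), mul_div_assoc]
  · rw [indicator_of_notMem hx]
    have : ∃ i, ¬ |x i| < a i / 2 := by
      by_contra hcon
      push Not at hcon
      exact hx hcon
    obtain ⟨i, h⟩ := this
    refine Finset.prod_eq_zero (Finset.mem_univ i) ?_
    rw [if_neg (fun h' => h ((hi i).1 h'))]

/-- The product of cosines is an extremal. -/
theorem box_attained (hn : 0 < n) (ha : ∀ i, 0 < a i) : ∃ g : E n → E n,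
    MemW0 2 (box a) (cosProd a) g ∧ ¬ cosProd a =ᵐ[volume] 0 ∧
    affEnergy 2 g = boxConst a * rhs 2 (cosProd a) g := by
  refine ⟨gp (c0 a) (s0 a), ?_, ?_, ?_⟩
  · rw [← pf_eq_cosProd ha]; exact memW0_lim ha
  · intro h
    rw [← pf_eq_cosProd ha] at h
    have h1 : msN (pf (c0 a)) = 0 := by
      unfold msN
      refine integral_eq_zero_of_ae ?_
      filter_upwards [h] with x hx
      rw [hx]; simp
    rw [msN_lim ha] at h1
    have := V_pos ha
    linarith
  · rw [← pf_eq_cosProd ha]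
    obtain ⟨hb0, hb⟩ := boxConst_pow hn ha
    have hM : (mm (gp (c0 a) (s0 a))).PosDef := by
      rw [mm_lim ha]
      refine PosDef.diagonal fun i => ?_
      have := ha i
      have := Real.pi_pos
      have := V_pos ha
      positivity
    exact eq_of_pow hn (memLp_g0 ha) hM hb0 (lim_identity hn ha)

end Pool.Agent.Lib.MP_9c48c1_an
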