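import Mathlib
import Pool.Agent.Lib.MP_9c48c1_an.Defs

set_option autoImplicit false

/-! The integral of the reciprocal of a quadratic form over the unit circle. -/

namespace Pool.Agent.Lib.MP_9c48c1_an

open MeasureTheory Set Filter Topology

/-- Integration over `E 2` through `ℝ × ℝ`. -/
lemma integral_E2 {F : Type*} [NormedAddCommGroup F] [NormedSpace ℝ F] (φ : E 2 → F) :
    ∫ x, φ x = ∫ p : ℝ × ℝ, φ (!₂[p.1, p.2]) := by
  have h1 := (PiLp.volume_preserving_toLp (Fin 2)).integral_comp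
    (MeasurableEquiv.toLp 2 (Fin 2 → ℝ)).measurableEmbedding φ
  rw [← h1]
  have h2 := (volume_preserving_finTwoArrow ℝ).symm.integral_comp
    (MeasurableEquiv.finTwoArrow (α := ℝ)).symm.measurableEmbedding
    (fun y : Fin 2 → ℝ => φ (WithLp.toLp 2 y))
  rw [← h2]
  rfl

lemma integrable_E2 {F : Type*} [NormedAddCommGroup F] {φ : E 2 → F} :
    Integrable φ ↔ Integrable (fun p : ℝ × ℝ => φ (!₂[p.1, p.2])) := by
  have h1 := (PiLp.volume_preserving_toLp (Fin 2)).integrable_comp_emb
    (MeasurableEquiv.toLp 2 (Fin 2 → ℝ)).measurableEmbedding (g := φ)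
  rw [← h1]
  have h2 := (volume_preserving_finTwoArrow ℝ).symm.integrable_comp_emb
    (MeasurableEquiv.finTwoArrow (α := ℝ)).symm.measurableEmbedding
    (g := fun y : Fin 2 → ℝ => φ (WithLp.toLp 2 y))
  exact h2.symm

/-- The quadratic form. -/
noncomputable def qf (a b c : ℝ) (x : E 2) : ℝ := a * x 0 ^ 2 + 2 * b * (x 0 * x 1) + c * x 1 ^ 2

lemma qf_pos {a b c : ℝ} (ha : 0 < a) (hD : 0 < a * c - b ^ 2) {x : E 2} (hx : x ≠ 0) :
    0 < qf a b c x := by
  have h1 : a * qf a b c x = (a * x 0 + b * x 1) ^ 2 + (a * c - b ^ 2) * x 1 ^ 2 := by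
    unfold qf; ring
  have h2 : 0 < a * qf a b c x := by
    rw [h1]
    by_cases h : x 1 = 0
    · have h0 : x 0 ≠ 0 := by
        intro h0
        apply hx
        ext i
        fin_cases i
        · exact h0
        · exact h
      rw [h]
      have h3 : a * x 0 ≠ 0 := mul_ne_zero ha.ne' h0
      have h4 : 0 < (a * x 0) ^ 2 := by positivity
      have h5 : (a * x 0 + b * 0) ^ 2 + (a * c - b ^ 2) * 0 ^ 2 = (a * x 0) ^ 2 := by ring
      rw [h5]; exact h4
    · positivity
  exact (mul_pos_iff_of_pos_left ha).1 h2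

lemma gauss_inner {a b : ℝ} (_ha : 0 < a) (y : ℝ) :
    (∫ x : ℝ, Real.exp (-a * (x + b * y / a) ^ 2)) = Real.sqrt (Real.pi / a) := by
  rw [integral_add_right_eq_self (fun x : ℝ => Real.exp (-a * x ^ 2)) (b * y / a)]
  exact integral_gaussian a

lemma qf_split {a b c : ℝ} (ha : 0 < a) (x y : ℝ) :
    Real.exp (-qf a b c !₂[x, y]) = Real.exp (-a * (x + b * y / a) ^ 2) *
      Real.exp (-((a * c - b ^ 2) / a) * y ^ 2) := by
  rw [← Real.exp_add]
  congr 1
  simp only [qf]
  simp
  field_simp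
  ring

lemma gauss_integrable {a b c : ℝ} (ha : 0 < a) (hD : 0 < a * c - b ^ 2) :
    Integrable (fun x : E 2 => Real.exp (-qf a b c x)) := by
  rw [integrable_E2]
  have hcont : Continuous (fun p : ℝ × ℝ => Real.exp (-qf a b c !₂[p.1, p.2])) := by
    have : (fun p : ℝ × ℝ => Real.exp (-qf a b c !₂[p.1, p.2])) = fun p : ℝ × ℝ =>
        Real.exp (-(a * p.1 ^ 2 + 2 * b * (p.1 * p.2) + c * p.2 ^ 2)) := by
      funext p; simp [qf]
    rw [this]; fun_prop
  rw [Measure.volume_eq_prod, integrable_prod_iff' hcont.aestronglyMeasurable]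
  constructor
  · filter_upwards with y
    simp only [qf_split ha]
    refine Integrable.mul_const ?_ _
    exact (integrable_exp_neg_mul_sq ha).comp_add_right (b * y / a)
  · simp only [Real.norm_eq_abs, Real.abs_exp]
    simp only [qf_split ha, integral_mul_const, gauss_inner ha]
    exact (integrable_exp_neg_mul_sq (div_pos hD ha)).const_mul _

lemma gauss_integral {a b c : ℝ} (ha : 0 < a) (hD : 0 < a * c - b ^ 2) :
    ∫ x : E 2, Real.exp (-qf a b c x) = Real.pi / Real.sqrt (a * c - b ^ 2) := by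
  have hint := gauss_integrable ha hD
  rw [integrable_E2, Measure.volume_eq_prod] at hint
  rw [integral_E2, Measure.volume_eq_prod, integral_prod_symm _ hint]
  simp only [qf_split ha, integral_mul_const, gauss_inner ha]
  rw [integral_const_mul, integral_gaussian, ← Real.sqrt_mul (by positivity)]
  have : Real.pi / a * (Real.pi / ((a * c - b ^ 2) / a)) = Real.pi ^ 2 / (a * c - b ^ 2) := by
    field_simp
  rw [this, Real.sqrt_div (by positivity), Real.sqrt_sq Real.pi_pos.le]

lemma radial_int {q : ℝ} (hq : 0 < q) : ∫ r in Ioi (0 : ℝ), r * Real.exp (-(r ^ 2 * q)) = 1 / (2 * q) := by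
  have h := integral_mul_cexp_neg_mul_sq (b := (q : ℂ)) (by simpa using hq)
  have h2 : ∫ r in Ioi (0 : ℝ), ((r * Real.exp (-(r ^ 2 * q)) : ℝ) : ℂ) = ((1 / (2 * q) : ℝ) : ℂ) := by
    rw [← integral_congr_ae (μ := volume.restrict (Ioi (0 : ℝ)))
      (f := fun r : ℝ => (r : ℂ) * Complex.exp (-(q : ℂ) * (r : ℂ) ^ 2))]
    · rw [h]; push_cast; simp
    · filter_upwards with r
      push_cast
      congr 2
      ring
  rw [integral_complex_ofReal] at h2
  exact_mod_cast h2

/-- Polar coordinates in the form needed here. -/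
lemma polar_E2 {φ : E 2 → ℝ} (hφ : Integrable φ) :
    ∫ x, φ x = ∫ ξ : Metric.sphere (0 : E 2) 1, (∫ r in Ioi (0 : ℝ), r * φ (r • (ξ : E 2)))
      ∂(volume : Measure (E 2)).toSphere := by
  have hdim : Module.finrank ℝ (E 2) = 2 := by simp
  have hmp := (volume : Measure (E 2)).measurePreserving_homeomorphUnitSphereProd
  have hemb := (Homeomorph.measurableEmbedding (homeomorphUnitSphereProd (E 2)))
  set ψ : Metric.sphere (0 : E 2) 1 × Ioi (0 : ℝ) → ℝ := fun p => φ ((p.2 : ℝ) • (p.1 : E 2)) with hψ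
  have hcomp : ∀ x : ({(0 : E 2)}ᶜ : Set (E 2)), ψ (homeomorphUnitSphereProd (E 2) x) = φ x.1 := by
    intro x
    simp only [hψ]
    congr 1
    have hx : ‖(x : E 2)‖ ≠ 0 := norm_ne_zero_iff.2 x.2
    simp [homeomorphUnitSphereProd, smul_smul, hx]
  have h1 : ∫ x, φ x = ∫ x : ({(0)}ᶜ : Set (E 2)), φ x.1 ∂(Measure.comap Subtype.val volume) := by
    rw [integral_subtype_comap (measurableSet_singleton _).compl φ, restrict_compl_singleton]
  have hintsub : Integrable (fun x : ({(0 : E 2)}ᶜ : Set (E 2)) => φ x.1)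
      (Measure.comap Subtype.val volume) := by
    have : MeasurableEmbedding (Subtype.val : ({(0 : E 2)}ᶜ : Set (E 2)) → E 2) :=
      MeasurableEmbedding.subtype_coe (measurableSet_singleton _).compl
    exact this.integrableOn_range_iff_comap.1 hφ.integrableOn
  have hint : Integrable ψ (((volume : Measure (E 2)).toSphere).prod
      (Measure.volumeIoiPow (Module.finrank ℝ (E 2) - 1))) := by
    rw [← hmp.integrable_comp_emb hemb]
    refine hintsub.congr ?_
    filter_upwards with x
    exact (hcomp x).symm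
  rw [h1]
  have h2 : ∫ x : ({(0)}ᶜ : Set (E 2)), φ x.1 ∂(Measure.comap Subtype.val volume) =
      ∫ p, ψ p ∂(((volume : Measure (E 2)).toSphere).prod
        (Measure.volumeIoiPow (Module.finrank ℝ (E 2) - 1))) := by
    rw [← hmp.integral_comp hemb]
    exact integral_congr_ae (by filter_upwards with x; exact (hcomp x).symm)
  rw [h2, integral_prod _ hint]
  refine integral_congr_ae ?_
  filter_upwards with ξ
  simp only [hψ, Measure.volumeIoiPow, ENNReal.ofReal]
  rw [integral_withDensity_eq_integral_smul ((measurable_subtype_coe.pow_const _).real_toNNReal),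
    integral_subtype_comap measurableSet_Ioi fun a : ℝ =>
      Real.toNNReal (a ^ (Module.finrank ℝ (E 2) - 1)) • φ (a • (ξ : E 2))]
  refine setIntegral_congr_fun measurableSet_Ioi fun r hr => ?_
  change Real.toNNReal (r ^ (Module.finrank ℝ (E 2) - 1)) • φ (r • (ξ : E 2)) = _
  rw [NNReal.smul_def, Real.coe_toNNReal _ (pow_nonneg (le_of_lt hr) _), hdim]
  simp

lemma sphere_integral {a b c : ℝ} (ha : 0 < a) (hD : 0 < a * c - b ^ 2) :
    ∫ ξ : Metric.sphere (0 : E 2) 1, (qf a b c (ξ : E 2))⁻¹ ∂(volume : Measure (E 2)).toSphere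
      = 2 * Real.pi / Real.sqrt (a * c - b ^ 2) := by
  have h1 := polar_E2 (gauss_integrable ha hD)
  rw [gauss_integral ha hD] at h1
  have h2 : ∀ ξ : Metric.sphere (0 : E 2) 1,
      (∫ r in Ioi (0 : ℝ), r * Real.exp (-qf a b c (r • (ξ : E 2)))) =
        1 / 2 * (qf a b c (ξ : E 2))⁻¹ := by
    intro ξ
    have hξ : (ξ : E 2) ≠ 0 := by
      intro h
      have := ξ.2
      rw [mem_sphere_zero_iff_norm, h, norm_zero] at this
      exact zero_ne_one this
    have hq := qf_pos ha hD hξ
    have h3 : ∀ r : ℝ, qf a b c (r • (ξ : E 2)) = r ^ 2 * qf a b c (ξ : E 2) := by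
      intro r; simp only [qf, PiLp.smul_apply, smul_eq_mul]; ring
    simp only [h3]
    rw [radial_int hq]
    field_simp
  simp only [h2] at h1
  rw [integral_const_mul] at h1
  have : (2 : ℝ) * (Real.pi / Real.sqrt (a * c - b ^ 2)) = 2 * Real.pi / Real.sqrt (a * c - b ^ 2) := by
    ring
  rw [← this, h1]
  ring

end Pool.Agent.Lib.MP_9c48c1_an
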