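import Mathlib
import Pool.Agent.Lib.MP_9c48c1_an.SphereInt

set_option autoImplicit false

/-! The affine energy for `n = p = 2`. -/

namespace Pool.Agent.Lib.MP_9c48c1_an

open MeasureTheory Set Filter Topology

/-- Second moments of a vector field. -/
noncomputable def mom (i j : Fin 2) (g : E 2 → E 2) : ℝ := ∫ x, g x i * g x j

/-- Determinant of the moment matrix. -/
noncomputable def mdet (g : E 2 → E 2) : ℝ := mom 0 0 g * mom 1 1 g - mom 0 1 g ^ 2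

/-- `∫ f²`. -/
noncomputable def msq (f : E 2 → ℝ) : ℝ := ∫ x, f x ^ 2

lemma omega_two : omega 2 = Real.pi := by
  unfold omega
  have h : (1 : ℝ) + 2 / 2 = 2 := by norm_num
  rw [h, Real.Gamma_two]
  norm_num

lemma omega_one : omega 1 = 2 := by
  unfold omega
  have h : (1 : ℝ) + 1 / 2 = 1 / 2 + 1 := by norm_num
  rw [h, Real.Gamma_add_one (by norm_num), Real.Gamma_one_half_eq, ← Real.sqrt_eq_rpow]
  have : Real.sqrt Real.pi ≠ 0 := (Real.sqrt_pos.2 Real.pi_pos).ne'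
  field_simp

lemma cnp_two : cnp 2 2 = Real.sqrt 2 * Real.sqrt (2 * Real.pi) := by
  unfold cnp
  have h1 : ((2 : ℕ) : ℝ) = 2 := by norm_num
  have h2 : (2 : ℝ) - 1 = 1 := by norm_num
  have h3 : (2 : ℝ) + 2 - 2 = 2 := by norm_num
  rw [h1, h2, h3, omega_two, omega_one, ← Real.sqrt_eq_rpow, ← Real.sqrt_eq_rpow]
  congr 2
  have := Real.pi_pos.ne'
  field_simp

lemma memLp_comp {g : E 2 → E 2} (hg : MemLp g 2) (i : Fin 2) : MemLp (fun x => g x i) 2 := by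
  refine MemLp.of_le hg ?_ ?_
  · exact (continuous_apply i).comp_aestronglyMeasurable
      ((PiLp.continuous_ofLp 2 _).comp_aestronglyMeasurable hg.1)
  · filter_upwards with x
    exact PiLp.norm_apply_le (g x) i

lemma integrable_comp {g : E 2 → E 2} (hg : MemLp g 2) (i j : Fin 2) :
    Integrable (fun x => g x i * g x j) := by
  exact (memLp_comp hg i).integrable_mul (memLp_comp hg j)

lemma inner_two (u v : E 2) : inner ℝ u v = u 0 * v 0 + u 1 * v 1 := by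
  rw [PiLp.inner_apply, Fin.sum_univ_two]
  simp [mul_comm]

lemma norm_sq_two (u : E 2) : ‖u‖ ^ 2 = u 0 * u 0 + u 1 * u 1 := by
  rw [← real_inner_self_eq_norm_sq, inner_two]

lemma dir_int {g : E 2 → E 2} (hg : MemLp g 2) (ξ : E 2) :
    ∫ x, |inner ℝ (g x) ξ| ^ (2 : ℝ) = qf (mom 0 0 g) (mom 0 1 g) (mom 1 1 g) ξ := by
  have e : ∀ x, |inner ℝ (g x) ξ| ^ (2 : ℝ) = (ξ 0 ^ 2) * (g x 0 * g x 0) +
      ((2 * (ξ 0 * ξ 1)) * (g x 0 * g x 1) + (ξ 1 ^ 2) * (g x 1 * g x 1)) := by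
    intro x
    rw [Real.rpow_two, sq_abs, inner_two]; ring
  simp_rw [e]
  have i1 := (integrable_comp hg 0 0).const_mul (ξ 0 ^ 2)
  have i2 := (integrable_comp hg 0 1).const_mul (2 * (ξ 0 * ξ 1))
  have i3 := (integrable_comp hg 1 1).const_mul (ξ 1 ^ 2)
  have h1 : ∫ x, ((ξ 0 ^ 2) * (g x 0 * g x 0) +
      ((2 * (ξ 0 * ξ 1)) * (g x 0 * g x 1) + (ξ 1 ^ 2) * (g x 1 * g x 1))) =
      (∫ x, (ξ 0 ^ 2) * (g x 0 * g x 0)) + ∫ x, ((2 * (ξ 0 * ξ 1)) * (g x 0 * g x 1)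
        + (ξ 1 ^ 2) * (g x 1 * g x 1)) := integral_add i1 (i2.add i3)
  have h2 : ∫ x, ((2 * (ξ 0 * ξ 1)) * (g x 0 * g x 1) + (ξ 1 ^ 2) * (g x 1 * g x 1)) =
      (∫ x, (2 * (ξ 0 * ξ 1)) * (g x 0 * g x 1)) + ∫ x, (ξ 1 ^ 2) * (g x 1 * g x 1) :=
    integral_add i2 i3
  rw [h1, h2, integral_const_mul, integral_const_mul, integral_const_mul]
  simp only [qf, mom]
  ring

/-- The affine energy for `n = p = 2`. -/
lemma affEnergy_two {g : E 2 → E 2} (hg : MemLp g 2) (ha : 0 < mom 0 0 g) (hD : 0 < mdet g) :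
    affEnergy 2 g = Real.sqrt 2 * Real.sqrt (Real.sqrt (mdet g)) := by
  have hD' : 0 < mom 0 0 g * mom 1 1 g - mom 0 1 g ^ 2 := hD
  unfold affEnergy
  have h1 : ∀ ξ : Metric.sphere (0 : E 2) 1, dirNorm 2 g (ξ : E 2) ^ (-((2 : ℕ) : ℝ)) =
      (qf (mom 0 0 g) (mom 0 1 g) (mom 1 1 g) (ξ : E 2))⁻¹ := by
    intro ξ
    have hξ : (ξ : E 2) ≠ 0 := by
      intro h
      have := ξ.2
      rw [mem_sphere_zero_iff_norm, h, norm_zero] at this
      exact zero_ne_one this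
    have hq := qf_pos ha hD' hξ
    unfold dirNorm
    rw [dir_int hg, ← Real.rpow_mul hq.le]
    have : (1 : ℝ) / 2 * -((2 : ℕ) : ℝ) = -1 := by push_cast; norm_num
    rw [this, Real.rpow_neg_one]
  simp_rw [h1]
  rw [sphere_integral ha hD', cnp_two]
  have h2 : (-(1 / ((2 : ℕ) : ℝ))) = -(1 / 2) := by push_cast; norm_num
  have hpos : 0 < 2 * Real.pi / Real.sqrt (mdet g) := by
    have := Real.sqrt_pos.2 hD
    have := Real.pi_pos
    positivity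
  have h3 : mom 0 0 g * mom 1 1 g - mom 0 1 g ^ 2 = mdet g := rfl
  rw [h3, h2, Real.rpow_neg hpos.le, ← Real.sqrt_eq_rpow, Real.sqrt_div (by positivity)]
  have h4 : Real.sqrt (2 * Real.pi) ≠ 0 := (Real.sqrt_pos.2 (by positivity)).ne'
  have h5 : Real.sqrt (Real.sqrt (mdet g)) ≠ 0 := (Real.sqrt_pos.2 (Real.sqrt_pos.2 hD)).ne'
  field_simp

lemma rhs_two (f : E 2 → ℝ) {g : E 2 → E 2} (hg : MemLp g 2) :
    rhs 2 f g = Real.sqrt (Real.sqrt (msq f)) * Real.sqrt (Real.sqrt (mom 0 0 g + mom 1 1 g)) := by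
  unfold rhs lpNorm gradNorm
  have h1 : (((2 : ℕ) : ℝ) - 1) / ((2 : ℕ) : ℝ) = 1 / 2 := by push_cast; norm_num
  have h2 : (1 / ((2 : ℕ) : ℝ)) = 1 / 2 := by push_cast; norm_num
  rw [h1, h2]
  simp only [← Real.sqrt_eq_rpow]
  congr 2
  · congr 1
    unfold msq
    refine integral_congr_ae ?_
    filter_upwards with x
    rw [Real.rpow_two, sq_abs]
  · congr 1
    have h3 : ∫ x, (g x 0 * g x 0 + g x 1 * g x 1) = mom 0 0 g + mom 1 1 g :=
      integral_add (integrable_comp hg 0 0) (integrable_comp hg 1 1)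
    rw [← h3]
    refine integral_congr_ae ?_
    filter_upwards with x
    rw [Real.rpow_two, norm_sq_two]

lemma sqrt_sqrt_pow (x : ℝ) (hx : 0 ≤ x) : (Real.sqrt (Real.sqrt x)) ^ 4 = x := by
  have : (Real.sqrt (Real.sqrt x)) ^ 4 = ((Real.sqrt (Real.sqrt x)) ^ 2) ^ 2 := by ring
  rw [this, Real.sq_sqrt (Real.sqrt_nonneg _), Real.sq_sqrt hx]

/-- Fourth powers. -/
lemma rhs_pow (A : ℝ) (f : E 2 → ℝ) {g : E 2 → E 2} (hg : MemLp g 2) :
    (A * rhs 2 f g) ^ 4 = A ^ 4 * (msq f * (mom 0 0 g + mom 1 1 g)) := by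
  have h1 : 0 ≤ msq f := integral_nonneg fun x => sq_nonneg _
  have h2 : 0 ≤ mom 0 0 g + mom 1 1 g := by
    have a : 0 ≤ mom 0 0 g := integral_nonneg fun x => mul_self_nonneg _
    have b : 0 ≤ mom 1 1 g := integral_nonneg fun x => mul_self_nonneg _
    linarith
  rw [rhs_two f hg, mul_pow, mul_pow, sqrt_sqrt_pow _ h1, sqrt_sqrt_pow _ h2]

lemma energy_pow {g : E 2 → E 2} (hg : MemLp g 2) (ha : 0 < mom 0 0 g) (hD : 0 < mdet g) :
    (affEnergy 2 g) ^ 4 = 4 * mdet g := by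
  rw [affEnergy_two hg ha hD, mul_pow, sqrt_sqrt_pow _ hD.le]
  have : (Real.sqrt 2) ^ 4 = 4 := by
    have h : (Real.sqrt 2) ^ 4 = ((Real.sqrt 2) ^ 2) ^ 2 := by ring
    rw [h, Real.sq_sqrt (by norm_num)]; norm_num
  rw [this]

lemma sqrt_two_pi_pow : (Real.sqrt (2 * Real.pi)) ^ 4 = 4 * Real.pi ^ 2 := by
  have h : (Real.sqrt (2 * Real.pi)) ^ 4 = ((Real.sqrt (2 * Real.pi)) ^ 2) ^ 2 := by ring
  rw [h, Real.sq_sqrt (by positivity)]; ring

/-- Comparison with the constant `√(2π)`. -/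
lemma strict_of {f : E 2 → ℝ} {g : E 2 → E 2} (hg : MemLp g 2) (ha : 0 < mom 0 0 g)
    (hD : 0 < mdet g) (h : Real.pi ^ 2 * (msq f * (mom 0 0 g + mom 1 1 g)) < mdet g) :
    Real.sqrt (2 * Real.pi) * rhs 2 f g < affEnergy 2 g := by
  have h1 := rhs_pow (Real.sqrt (2 * Real.pi)) f hg
  have h2 := energy_pow hg ha hD
  rw [sqrt_two_pi_pow] at h1
  have h3 : (Real.sqrt (2 * Real.pi) * rhs 2 f g) ^ 4 < (affEnergy 2 g) ^ 4 := by
    rw [h1, h2]; linarith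
  refine lt_of_pow_lt_pow_left₀ 4 ?_ h3
  rw [affEnergy_two hg ha hD]; positivity

end Pool.Agent.Lib.MP_9c48c1_an
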