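import Mathlib

set_option autoImplicit false

/-! One-dimensional Dirichlet inequality with the sharp constant. -/

namespace Pool.Agent.Lib.MP_9c48c1_an

open MeasureTheory Set Filter Topology

/-- The inequality on a slightly larger interval. -/
lemma wirt_aux {g : ℝ → ℝ} (hg : ContDiff ℝ 1 g) {α β a' l' : ℝ} (hαβ : α ≤ β)
    (hl' : 0 < l') (ha : a' < α) (hb : β < a' + l')
    (hsupp : ∀ x, g x ≠ 0 → x ∈ Icc α β) :
    (Real.pi / l') ^ 2 * ∫ x, g x ^ 2 ≤ ∫ x, deriv g x ^ 2 := by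
  have hgc : Continuous g := hg.continuous
  have hdc : Continuous (deriv g) := hg.continuous_deriv le_rfl
  have hdiff : ∀ x, HasDerivAt g (deriv g x) x := fun x =>
    (hg.differentiable one_ne_zero x).hasDerivAt
  have hgα : g α = 0 := by
    by_contra h
    have h1 : ∀ᶠ x in 𝓝 α, g x ≠ 0 := hgc.continuousAt.eventually_ne h
    have h2 : ∀ᶠ x in 𝓝[<] α, g x ≠ 0 := nhdsWithin_le_nhds h1
    obtain ⟨x, hx1, hx2⟩ := (h2.and self_mem_nhdsWithin).exists
    exact absurd (hsupp x hx1).1 (not_le.2 hx2)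
  have hgβ : g β = 0 := by
    by_contra h
    have h1 : ∀ᶠ x in 𝓝 β, g x ≠ 0 := hgc.continuousAt.eventually_ne h
    have h2 : ∀ᶠ x in 𝓝[>] β, g x ≠ 0 := nhdsWithin_le_nhds h1
    obtain ⟨x, hx1, hx2⟩ := (h2.and self_mem_nhdsWithin).exists
    exact absurd (hsupp x hx1).2 (not_le.2 hx2)
  -- the derivative also vanishes outside
  have hd0 : ∀ x, x ∉ Icc α β → deriv g x = 0 := by
    intro x hx
    have h1 : g =ᶠ[𝓝 x] fun _ => 0 := by
      filter_upwards [isClosed_Icc.isOpen_compl.mem_nhds hx] with y hy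
      by_contra h
      exact hy (hsupp y h)
    rw [h1.deriv_eq]; simp
  have hI1 : ∫ x, g x ^ 2 = ∫ x in α..β, g x ^ 2 := by
    rw [intervalIntegral.integral_of_le hαβ, ← integral_Icc_eq_integral_Ioc,
      setIntegral_eq_integral_of_forall_compl_eq_zero]
    intro x hx
    by_contra h
    exact hx (hsupp x fun h0 => h (by rw [h0]; simp))
  have hI2 : ∫ x, deriv g x ^ 2 = ∫ x in α..β, deriv g x ^ 2 := by
    rw [intervalIntegral.integral_of_le hαβ, ← integral_Icc_eq_integral_Ioc,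
      setIntegral_eq_integral_of_forall_compl_eq_zero]
    intro x hx
    rw [hd0 x hx]; simp
  rw [hI1, hI2]
  set κ := Real.pi / l' with hκ
  have hκpos : 0 < κ := div_pos Real.pi_pos hl'
  set θ : ℝ → ℝ := fun x => κ * (x - a') with hθ
  have hθr : ∀ x ∈ Icc α β, 0 < Real.sin (θ x) := by
    intro x hx
    apply Real.sin_pos_of_pos_of_lt_pi
    · exact mul_pos hκpos (by linarith [hx.1])
    · have : κ * (x - a') < κ * l' := by
        apply mul_lt_mul_of_pos_left _ hκpos
        linarith [hx.2]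
      calc κ * (x - a') < κ * l' := this
        _ = Real.pi := by rw [hκ]; field_simp
  set c : ℝ → ℝ := fun x => κ * (Real.cos (θ x) / Real.sin (θ x)) with hc
  have hθd : ∀ x, HasDerivAt θ κ x := by
    intro x
    have := ((hasDerivAt_id x).sub_const a').const_mul κ
    simpa [hθ] using this
  have hcd : ∀ x ∈ Icc α β, HasDerivAt c (-κ ^ 2 - c x ^ 2) x := by
    intro x hx
    have hs := (hθr x hx).ne'
    have h1 := ((Real.hasDerivAt_cos (θ x)).comp x (hθd x))
    have h2 := ((Real.hasDerivAt_sin (θ x)).comp x (hθd x))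
    have h3 : HasDerivAt c _ x := (h1.div h2 hs).const_mul κ
    refine h3.congr_deriv ?_
    simp only [Function.comp, hc]
    field_simp
  have hu : ∀ x ∈ uIcc α β, HasDerivAt (fun x => c x * g x ^ 2)
      ((-κ ^ 2 - c x ^ 2) * g x ^ 2 + c x * (2 * g x * deriv g x)) x := by
    intro x hx
    rw [uIcc_of_le hαβ] at hx
    have h1 : HasDerivAt (fun x => c x * g x ^ 2) _ x := (hcd x hx).mul ((hdiff x).pow 2)
    refine h1.congr_deriv ?_
    simp
  have hcc : ContinuousOn c (Icc α β) := fun x hx => (hcd x hx).continuousAt.continuousWithinAt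
  have hint : IntervalIntegrable (fun x => (-κ ^ 2 - c x ^ 2) * g x ^ 2 +
      c x * (2 * g x * deriv g x)) volume α β := by
    apply ContinuousOn.intervalIntegrable
    rw [uIcc_of_le hαβ]
    fun_prop
  have hFTC := intervalIntegral.integral_eq_sub_of_hasDerivAt hu hint
  rw [hgα, hgβ] at hFTC
  simp only [ne_eq, OfNat.ofNat_ne_zero, not_false_eq_true, zero_pow, mul_zero, sub_self] at hFTC
  have hint1 : IntervalIntegrable (fun x => deriv g x ^ 2) volume α β :=
    (hdc.pow 2).intervalIntegrable _ _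
  have hint2 : IntervalIntegrable (fun x => g x ^ 2) volume α β :=
    (hgc.pow 2).intervalIntegrable _ _
  have hkey : 0 ≤ ∫ x in α..β, (deriv g x ^ 2 - κ ^ 2 * g x ^ 2 -
      ((-κ ^ 2 - c x ^ 2) * g x ^ 2 + c x * (2 * g x * deriv g x))) := by
    apply intervalIntegral.integral_nonneg hαβ
    intro x _
    have : deriv g x ^ 2 - κ ^ 2 * g x ^ 2 - ((-κ ^ 2 - c x ^ 2) * g x ^ 2 +
        c x * (2 * g x * deriv g x)) = (deriv g x - c x * g x) ^ 2 := by ring
    rw [this]
    positivity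
  rw [intervalIntegral.integral_sub (hint1.sub (hint2.const_mul _)) hint, hFTC,
    intervalIntegral.integral_sub hint1 (hint2.const_mul _),
    intervalIntegral.integral_const_mul] at hkey
  linarith

/-- The sharp one-dimensional inequality: if any two points where `g` does not vanish are at
distance at most `l`, then `(π / l)² ∫ g² ≤ ∫ g'²`. -/
lemma wirtinger {g : ℝ → ℝ} (hg : ContDiff ℝ 1 g) {l : ℝ} (hl : 0 < l)
    (hsupp : ∀ x y, g x ≠ 0 → g y ≠ 0 → y - x ≤ l) :
    (Real.pi / l) ^ 2 * ∫ x, g x ^ 2 ≤ ∫ x, deriv g x ^ 2 := by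
  by_cases h0 : ∀ x, g x = 0
  · have h1 : g = fun _ => 0 := funext h0
    rw [h1]; simp
  push Not at h0
  obtain ⟨x0, hx0⟩ := h0
  set A : Set ℝ := {x | g x ≠ 0} with hA
  have hbdd : BddBelow A := ⟨x0 - l, fun x hx => by linarith [hsupp x x0 hx hx0]⟩
  set α := sInf A with hα
  have hsub : ∀ x, g x ≠ 0 → x ∈ Icc α (α + l) := by
    intro x hx
    refine ⟨csInf_le hbdd hx, ?_⟩
    have : x - l ≤ α := le_csInf ⟨x0, hx0⟩ fun y hy => by linarith [hsupp y x hy hx]
    linarith
  have hkey : ∀ δ : ℝ, 0 < δ → (Real.pi / (l + 2 * δ)) ^ 2 * ∫ x, g x ^ 2 ≤ ∫ x, deriv g x ^ 2 :=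
    fun δ hδ => wirt_aux hg (a' := α - δ) (by linarith) (by linarith) (by linarith) (by linarith) hsub
  have hlim : Tendsto (fun δ : ℝ => (Real.pi / (l + 2 * δ)) ^ 2 * ∫ x, g x ^ 2) (𝓝[>] 0)
      (𝓝 ((Real.pi / l) ^ 2 * ∫ x, g x ^ 2)) := by
    have h1 : ContinuousAt (fun δ : ℝ => (Real.pi / (l + 2 * δ)) ^ 2 * ∫ x, g x ^ 2) 0 := by
      apply ContinuousAt.mul _ continuousAt_const
      apply ContinuousAt.pow
      apply ContinuousAt.div continuousAt_const (by fun_prop)
      simpa using hl.ne'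
    have h2 := h1.tendsto
    simp only [mul_zero, add_zero] at h2
    exact h2.mono_left nhdsWithin_le_nhds
  refine le_of_tendsto hlim ?_
  filter_upwards [self_mem_nhdsWithin] with δ hδ
  exact hkey δ hδ

end Pool.Agent.Lib.MP_9c48c1_an
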