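import Mathlib
import Pool.Agent.Lib.MP_9c48c1_an.OneD

set_option autoImplicit false

/-! Two-dimensional inequalities for functions supported in a thin rhombus. -/

namespace Pool.Agent.Lib.MP_9c48c1_an

open MeasureTheory Set Filter Topology

/-- The shear homeomorphism. -/
def shear (τ : ℝ) : ℝ × ℝ ≃ₜ ℝ × ℝ where
  toFun p := (p.1, p.2 - τ * p.1)
  invFun p := (p.1, p.2 + τ * p.1)
  left_inv p := by ext <;> simp
  right_inv p := by ext <;> simp
  continuous_toFun := by fun_prop
  continuous_invFun := by fun_prop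

lemma integrable_shear {φ : ℝ × ℝ → ℝ} (hφ : Continuous φ) (hcs : HasCompactSupport φ) (τ : ℝ) :
    Integrable (fun p : ℝ × ℝ => φ (p.1, p.2 - τ * p.1)) (volume.prod volume) := by
  have h1 : Continuous (φ ∘ shear τ) := hφ.comp (shear τ).continuous
  have h2 : HasCompactSupport (φ ∘ shear τ) := hcs.comp_homeomorph (shear τ)
  exact h1.integrable_of_hasCompactSupport h2

lemma integral_shear {φ : ℝ × ℝ → ℝ} (hφ : Continuous φ) (hcs : HasCompactSupport φ) (τ : ℝ) :
    ∫ p, φ p = ∫ s, ∫ x, φ (x, s - τ * x) := by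
  have hint : Integrable φ (volume.prod volume) := hφ.integrable_of_hasCompactSupport hcs
  have h1 : ∫ p, φ p = ∫ x, ∫ y, φ (x, y) := by
    rw [Measure.volume_eq_prod]
    exact integral_prod φ hint
  rw [h1]
  have h2 : ∀ x : ℝ, ∫ y, φ (x, y) = ∫ s, φ (x, s - τ * x) := fun x =>
    (integral_sub_right_eq_self (fun y => φ (x, y)) (τ * x)).symm
  simp_rw [h2]
  exact integral_integral_swap (f := fun x s => φ (x, s - τ * x)) (integrable_shear hφ hcs τ)

variable {G : ℝ × ℝ → ℝ}

/-- Derivative in the first variable. -/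
noncomputable def dx (G : ℝ × ℝ → ℝ) (p : ℝ × ℝ) : ℝ := fderiv ℝ G p (1, 0)

/-- Derivative in the second variable. -/
noncomputable def dy (G : ℝ × ℝ → ℝ) (p : ℝ × ℝ) : ℝ := fderiv ℝ G p (0, 1)

lemma continuous_dx (hG : ContDiff ℝ 1 G) : Continuous (dx G) :=
  (hG.continuous_fderiv one_ne_zero).clm_apply continuous_const

lemma continuous_dy (hG : ContDiff ℝ 1 G) : Continuous (dy G) :=
  (hG.continuous_fderiv one_ne_zero).clm_apply continuous_const

lemma hcs_dx (hcs : HasCompactSupport G) : HasCompactSupport (dx G) :=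
  hcs.fderiv_apply ℝ (1, 0)

lemma hcs_dy (hcs : HasCompactSupport G) : HasCompactSupport (dy G) :=
  hcs.fderiv_apply ℝ (0, 1)

lemma deriv_line (hG : ContDiff ℝ 1 G) (τ s x : ℝ) :
    HasDerivAt (fun x => G (x, s - τ * x)) (dx G (x, s - τ * x) - τ * dy G (x, s - τ * x)) x := by
  have h1 : HasFDerivAt G (fderiv ℝ G (x, s - τ * x)) (x, s - τ * x) :=
    (hG.differentiable one_ne_zero _).hasFDerivAt
  have h2 : HasDerivAt (fun x : ℝ => ((x, s - τ * x) : ℝ × ℝ)) (1, -τ) x := by
    have h3 : HasDerivAt (fun x : ℝ => s - τ * x) (-τ) x := by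
      simpa using ((hasDerivAt_id x).const_mul τ).const_sub s
    exact (hasDerivAt_id x).prodMk h3
  have h4 := h1.comp_hasDerivAt x h2
  refine h4.congr_deriv ?_
  have : ((1, -τ) : ℝ × ℝ) = (1, 0) - τ • (0, 1) := by ext <;> simp
  rw [this, map_sub, map_smul]
  rfl

lemma line_contDiff (hG : ContDiff ℝ 1 G) (τ s : ℝ) : ContDiff ℝ 1 (fun x => G (x, s - τ * x)) := by
  fun_prop

/-- Integration of line inequalities. -/
lemma sum_lines (hG : ContDiff ℝ 1 G) (hcs : HasCompactSupport G) (τ : ℝ) {c : ℝ → ℝ}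
    (hc : Continuous c)
    (h : ∀ s, c s * ∫ x, G (x, s - τ * x) ^ 2 ≤ ∫ x, deriv (fun x => G (x, s - τ * x)) x ^ 2) :
    ∫ p : ℝ × ℝ, c (p.2 + τ * p.1) * G p ^ 2 ≤ ∫ p, (dx G p - τ * dy G p) ^ 2 := by
  have hGc := hG.continuous
  have c1 : Continuous (fun p : ℝ × ℝ => c (p.2 + τ * p.1) * G p ^ 2) := by fun_prop
  have s1 : HasCompactSupport (fun p : ℝ × ℝ => c (p.2 + τ * p.1) * G p ^ 2) := by
    have : HasCompactSupport (fun p => G p ^ 2) := hcs.comp_left (g := fun t : ℝ => t ^ 2) (by simp)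
    exact this.mul_left
  have cx := continuous_dx hG
  have cy := continuous_dy hG
  have c2 : Continuous (fun p : ℝ × ℝ => (dx G p - τ * dy G p) ^ 2) := by fun_prop
  have s2 : HasCompactSupport (fun p : ℝ × ℝ => (dx G p - τ * dy G p) ^ 2) := by
    have h1 : HasCompactSupport (fun p => dx G p - τ * dy G p) :=
      (hcs_dx hcs).sub ((hcs_dy hcs).mul_left (f := fun _ => τ))
    exact h1.comp_left (g := fun t : ℝ => t ^ 2) (by simp)
  rw [integral_shear c1 s1 τ, integral_shear c2 s2 τ]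
  have e1 : ∀ s x : ℝ, c (s - τ * x + τ * x) * G (x, s - τ * x) ^ 2 = c s * G (x, s - τ * x) ^ 2 := by
    intro s x; rw [sub_add_cancel]
  have i1 := (integrable_shear c1 s1 τ).integral_prod_right
  have i2 := (integrable_shear c2 s2 τ).integral_prod_right
  refine integral_mono i1 i2 fun s => ?_
  simp only [e1]
  rw [integral_const_mul]
  refine (h s).trans (le_of_eq ?_)
  congr 1
  funext x
  rw [(deriv_line hG τ s x).deriv]

end Pool.Agent.Lib.MP_9c48c1_an
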