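import Mathlib
import Pool.Agent.Lib.MP_9c48c1_an.TwoD

set_option autoImplicit false

/-! The main inequality for functions supported in the rhombus `2|x| + 20|y| ≤ 1`. -/

namespace Pool.Agent.Lib.MP_9c48c1_an

open MeasureTheory Set Filter Topology

variable {G : ℝ × ℝ → ℝ}

/-- The four quadratic quantities. -/
noncomputable def qN (G : ℝ × ℝ → ℝ) : ℝ := ∫ p, G p ^ 2
noncomputable def q11 (G : ℝ × ℝ → ℝ) : ℝ := ∫ p, dx G p ^ 2
noncomputable def q12 (G : ℝ × ℝ → ℝ) : ℝ := ∫ p, dx G p * dy G p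
noncomputable def q22 (G : ℝ × ℝ → ℝ) : ℝ := ∫ p, dy G p ^ 2

lemma hcs_sq {u : ℝ × ℝ → ℝ} (hcs : HasCompactSupport u) : HasCompactSupport (fun p => u p ^ 2) :=
  hcs.comp_left (g := fun t : ℝ => t ^ 2) (by simp)

lemma int_sq {u : ℝ × ℝ → ℝ} (hu : Continuous u) (hcs : HasCompactSupport u) :
    Integrable (fun p => u p ^ 2) := by
  have h1 : Continuous (fun p => u p ^ 2) := by fun_prop
  exact h1.integrable_of_hasCompactSupport (hcs_sq hcs)

lemma int_wsq {u w : ℝ × ℝ → ℝ} (hw : Continuous w) (hu : Continuous u)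
    (hcs : HasCompactSupport u) : Integrable (fun p => w p * u p ^ 2) := by
  have h1 : Continuous (fun p => w p * u p ^ 2) := by fun_prop
  exact h1.integrable_of_hasCompactSupport ((hcs_sq hcs).mul_left)

lemma int_prod {u v : ℝ × ℝ → ℝ} (hu : Continuous u) (hv : Continuous v)
    (hcs : HasCompactSupport u) : Integrable (fun p => u p * v p) := by
  have h1 : Continuous (fun p => u p * v p) := by fun_prop
  exact h1.integrable_of_hasCompactSupport (hcs.mul_right)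

lemma integral_add3 {f g h : ℝ × ℝ → ℝ} (hf : Integrable f) (hg : Integrable g)
    (hh : Integrable h) : ∫ p, (f p + (g p + h p)) = (∫ p, f p) + ((∫ p, g p) + ∫ p, h p) := by
  have h1 : ∫ p, (f p + (g p + h p)) = (∫ p, f p) + ∫ p, (g p + h p) :=
    integral_add hf (hg.add hh)
  have h2 : ∫ p, (g p + h p) = (∫ p, g p) + ∫ p, h p := integral_add hg hh
  rw [h1, h2]

lemma chord1 {τ s x1 x2 : ℝ} (h1 : 2 * |x1| + 20 * |s - τ * x1| ≤ 1)
    (h2 : 2 * |x2| + 20 * |s - τ * x2| ≤ 1) : x2 - x1 ≤ 1 / (1 + 10 * |τ|) := by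
  rw [le_div_iff₀ (by positivity)]
  have a1 : |x2 - x1| ≤ |x2| + |x1| := abs_sub _ _
  have a2 : |τ| * |x2 - x1| ≤ |s - τ * x1| + |s - τ * x2| := by
    rw [← abs_mul]
    calc |τ * (x2 - x1)| = |(s - τ * x1) - (s - τ * x2)| := by ring_nf
      _ ≤ _ := abs_sub _ _
  have a3 : x2 - x1 ≤ |x2 - x1| := le_abs_self _
  have a4 : (x2 - x1) * (1 + 10 * |τ|) ≤ |x2 - x1| * (1 + 10 * |τ|) := by gcongr
  nlinarith

lemma chord2 {τ s x : ℝ} (h1 : 2 * |x| + 20 * |s - τ * x| ≤ 1) :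
    2 * |x| ≤ 1 - 20 * |s| + 10 * |τ| := by
  have a1 : |s| ≤ |s - τ * x| + |τ| * |x| := by
    rw [← abs_mul]
    calc |s| = |(s - τ * x) + τ * x| := by ring_nf
      _ ≤ _ := abs_add_le _ _
  have a2 : |x| ≤ 1 / 2 := by
    have := abs_nonneg (s - τ * x)
    linarith
  have a3 : |τ| * |x| ≤ |τ| * (1 / 2) := by gcongr
  linarith

section

variable (hG : ContDiff ℝ 1 G) (hcs : HasCompactSupport G)
  (hR : ∀ p, G p ≠ 0 → 2 * |p.1| + 20 * |p.2| ≤ 1)

include hG hcs hR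

lemma ineqA (τ : ℝ) : Real.pi ^ 2 * (1 + 10 * |τ|) ^ 2 * qN G ≤ ∫ p, (dx G p - τ * dy G p) ^ 2 := by
  have h := sum_lines hG hcs τ (c := fun _ => Real.pi ^ 2 * (1 + 10 * |τ|) ^ 2) continuous_const ?_
  · rw [integral_const_mul] at h
    exact h
  · intro s
    have hw := wirtinger (line_contDiff hG τ s) (l := 1 / (1 + 10 * |τ|)) (by positivity)
      (fun x y hx hy => chord1 (hR _ hx) (hR _ hy))
    have : (Real.pi / (1 / (1 + 10 * |τ|))) ^ 2 = Real.pi ^ 2 * (1 + 10 * |τ|) ^ 2 := by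
      field_simp
    rw [this] at hw
    exact hw

lemma ineqB (τ : ℝ) : ∫ p : ℝ × ℝ, Real.pi ^ 2 * (1 + 2 * (20 * |p.2 + τ * p.1| - 10 * |τ|)) * G p ^ 2
    ≤ ∫ p, (dx G p - τ * dy G p) ^ 2 := by
  refine sum_lines hG hcs τ (c := fun s => Real.pi ^ 2 * (1 + 2 * (20 * |s| - 10 * |τ|)))
    (by fun_prop) ?_
  intro s
  set A := ∫ x, G (x, s - τ * x) ^ 2 with hA
  have hA0 : 0 ≤ A := integral_nonneg fun x => sq_nonneg _
  set L := 1 - 20 * |s| + 10 * |τ| with hL
  have hsupp : ∀ x y, G (x, s - τ * x) ≠ 0 → G (y, s - τ * y) ≠ 0 → y - x ≤ L := by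
    intro x y hx hy
    have h1 := chord2 (hR _ hx)
    have h2 := chord2 (hR _ hy)
    have h3 := neg_abs_le x
    have h4 := le_abs_self y
    linarith
  have hc : 1 + 2 * (20 * |s| - 10 * |τ|) = 1 + 2 * (1 - L) := by rw [hL]; ring
  simp only [hc]
  rcases le_or_gt L 0 with hL0 | hL0
  · -- no room: use a very small length
    have hpos : 0 < 1 + 2 * (1 - L) := by linarith
    have hl : 0 < 1 / Real.sqrt (1 + 2 * (1 - L)) := by positivity
    have hw := wirtinger (line_contDiff hG τ s) hl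
      (fun x y hx hy => (hsupp x y hx hy).trans (hL0.trans hl.le))
    have : (Real.pi / (1 / Real.sqrt (1 + 2 * (1 - L)))) ^ 2
        = Real.pi ^ 2 * (1 + 2 * (1 - L)) := by
      rw [div_div_eq_mul_div, div_one, mul_pow, Real.sq_sqrt hpos.le]
    rw [this] at hw
    exact hw
  · have hw := wirtinger (line_contDiff hG τ s) hL0 hsupp
    refine le_trans ?_ hw
    have h1 : 1 + 2 * (1 - L) ≤ 1 / L ^ 2 := by
      rw [le_div_iff₀ (by positivity)]
      nlinarith [mul_nonneg (sq_nonneg (L - 1)) (by linarith : (0 : ℝ) ≤ 2 * L + 1)]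
    have h2 : (Real.pi / L) ^ 2 = Real.pi ^ 2 * (1 / L ^ 2) := by field_simp
    rw [h2]
    have : Real.pi ^ 2 * (1 + 2 * (1 - L)) ≤ Real.pi ^ 2 * (1 / L ^ 2) := by gcongr
    exact mul_le_mul_of_nonneg_right this hA0

omit hR in
lemma ineqC (τ : ℝ) : qN G ^ 2 ≤ 4 * q22 G * ∫ p : ℝ × ℝ, (p.2 + τ * p.1) ^ 2 * G p ^ 2 := by
  have hGc := hG.continuous
  have cy := continuous_dy hG
  have sy := hcs_dy hcs
  -- integration by parts
  set S : ℝ × ℝ → ℝ := fun p => (p.2 + τ * p.1) * G p with hS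
  have hSd : ContDiff ℝ 1 S := by fun_prop
  have hScs : HasCompactSupport S := hcs.mul_left
  have hSy : ∀ p, fderiv ℝ S p (0, 1) = G p + (p.2 + τ * p.1) * dy G p := by
    intro p
    have h1 : HasFDerivAt (fun p : ℝ × ℝ => p.2 + τ * p.1)
        (ContinuousLinearMap.snd ℝ ℝ ℝ + τ • ContinuousLinearMap.fst ℝ ℝ ℝ) p :=
      hasFDerivAt_snd.add (hasFDerivAt_fst.const_mul τ)
    have h2 : HasFDerivAt G (fderiv ℝ G p) p := (hG.differentiable one_ne_zero _).hasFDerivAt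
    have h3 := h1.mul h2
    have h4 : fderiv ℝ S p = _ := h3.fderiv
    rw [h4]
    simp [dy]
    ring
  have hSyc : Continuous (fun p => fderiv ℝ S p (0, 1)) := continuous_dy hSd
  have hSycs : HasCompactSupport (fun p => fderiv ℝ S p (0, 1)) := hcs_dy hScs
  have hparts := integral_mul_fderiv_eq_neg_fderiv_mul_of_integrable (μ := (volume : Measure (ℝ × ℝ)))
    (f := S) (g := G) (v := ((0, 1) : ℝ × ℝ))
    (int_prod hSyc hGc hSycs) (int_prod hSd.continuous cy hScs) (int_prod hSd.continuous hGc hScs)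
    (fun x _ => hSd.differentiable one_ne_zero x) (fun x _ => hG.differentiable one_ne_zero x)
  obtain ⟨J, hJ⟩ : ∃ J : ℝ, J = ∫ p : ℝ × ℝ, (p.2 + τ * p.1) * G p * dy G p := ⟨_, rfl⟩
  have hJ2 : J = - (qN G + J) := by
    have e1 : ∫ p, S p * (fderiv ℝ G p) (0, 1) = J := hJ.symm
    have e2 : ∫ p, (fderiv ℝ S p) (0, 1) * G p = qN G + J := by
      rw [hJ, qN, ← integral_add]
      · refine integral_congr_ae (Filter.Eventually.of_forall fun p => ?_)
        simp only [hSy]; ring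
      · exact int_sq hGc hcs
      · exact int_prod hSd.continuous cy hScs
    rw [e1, e2] at hparts
    exact hparts
  have hJ3 : 2 * J = - qN G := by linarith
  -- discriminant
  obtain ⟨V, hV⟩ : ∃ V : ℝ, V = ∫ p : ℝ × ℝ, (p.2 + τ * p.1) ^ 2 * G p ^ 2 := ⟨_, rfl⟩
  rw [← hV]
  have hdisc : ∀ t : ℝ, 0 ≤ q22 G * (t * t) + (2 * J) * t + V := by
    intro t
    have h1 : 0 ≤ ∫ p : ℝ × ℝ, (t * dy G p + (p.2 + τ * p.1) * G p) ^ 2 :=
      integral_nonneg fun p => sq_nonneg _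
    have h2 : ∫ p : ℝ × ℝ, (t * dy G p + (p.2 + τ * p.1) * G p) ^ 2
        = q22 G * (t * t) + (2 * J) * t + V := by
      have e : ∀ p : ℝ × ℝ, (t * dy G p + (p.2 + τ * p.1) * G p) ^ 2 =
          (t * t) * dy G p ^ 2 + ((2 * t) * ((p.2 + τ * p.1) * G p * dy G p)
            + (p.2 + τ * p.1) ^ 2 * G p ^ 2) := by
        intro p; ring
      simp_rw [e]
      have i1 : Integrable (fun p : ℝ × ℝ => (t * t) * dy G p ^ 2) :=
        (int_sq cy sy).const_mul _
      have i2 : Integrable (fun p : ℝ × ℝ => (2 * t) * ((p.2 + τ * p.1) * G p * dy G p)) :=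
        (int_prod hSd.continuous cy hScs).const_mul _
      have i3 : Integrable (fun p : ℝ × ℝ => (p.2 + τ * p.1) ^ 2 * G p ^ 2) :=
        int_wsq (w := fun p : ℝ × ℝ => (p.2 + τ * p.1) ^ 2) (by fun_prop) hGc hcs
      rw [integral_add3 i1 i2 i3, integral_const_mul, integral_const_mul]
      rw [← hJ, ← hV, q22]
      ring
    rw [h2] at h1
    exact h1
  have h3 := discrim_le_zero hdisc
  rw [discrim] at h3
  have h4 : (2 * J) ^ 2 = qN G ^ 2 := by rw [hJ3]; ring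
  linarith

omit hG in
lemma weighted_le {w1 w2 : ℝ × ℝ → ℝ} (hGc : Continuous G) (h1 : Continuous w1) (h2 : Continuous w2)
    (h : ∀ p : ℝ × ℝ, 2 * |p.1| + 20 * |p.2| ≤ 1 → w1 p ≤ w2 p) :
    ∫ p, w1 p * G p ^ 2 ≤ ∫ p, w2 p * G p ^ 2 := by
  refine integral_mono (int_wsq h1 hGc hcs) (int_wsq h2 hGc hcs) fun p => ?_
  by_cases hp : G p = 0
  · simp [hp]
  · exact mul_le_mul_of_nonneg_right (h p (hR p hp)) (sq_nonneg _)

end

lemma alg_final {N M Q κ m P : ℝ} (hN : 0 < N) (hM : 0 < M) (hP : P ≤ 9.87) (hP0 : 9 ≤ P)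
    (hκ : 0 ≤ κ)
    (hA : P * (1 + κ) ^ 2 * N ≤ Q) (hD : 100 * N ≤ M)
    (hI : κ ≤ 1 / 2 → 0 ≤ m ∧ m ≤ 3 / 2 * N ∧ P * (N * (1 - 2 * κ) + 2 * m) ≤ Q ∧
      200 * N ^ 2 ≤ 3 * M * m) :
    (P + 2) * (N / M) + P * (1 + κ ^ 2 / 100) * (N / Q) ≤ 1 := by
  have hQ : 0 < Q := lt_of_lt_of_le (by positivity) hA
  rcases le_or_gt κ (1 / 2) with hk | hk
  · obtain ⟨hm0, hm1, hB, hC⟩ := hI hk
    set μ := m / N with hμ
    have hmμ : m = μ * N := by rw [hμ]; field_simp
    have hμ0 : 0 ≤ μ := by positivity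
    have hμ1 : μ ≤ 3 / 2 := by rw [hμ, div_le_iff₀ hN]; exact hm1
    have h1 : N / M ≤ 3 / 200 * μ := by
      rw [div_le_iff₀ hM]
      rw [hmμ] at hC
      have : 200 * N ≤ 3 * M * μ := by
        by_contra hcon
        push Not at hcon
        nlinarith
      linarith
    have h2 : P * (1 + 2 / 3 * (κ + μ)) * N ≤ Q := by
      rw [hmμ] at hB
      have h3 : P * (1 + 2 * κ) * N ≤ Q := by
        refine le_trans ?_ hA
        have h31 : 1 + 2 * κ ≤ (1 + κ) ^ 2 := by nlinarith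
        have h32 : P * (1 + 2 * κ) ≤ P * (1 + κ) ^ 2 :=
          mul_le_mul_of_nonneg_left h31 (by linarith)
        exact mul_le_mul_of_nonneg_right h32 hN.le
      nlinarith
    have h4 : P * (N / Q) ≤ 1 / (1 + 2 / 3 * (κ + μ)) := by
      rw [mul_div_assoc', div_le_div_iff₀ hQ (by positivity)]
      linarith
    have h5 : (P + 2) * (N / M) ≤ 11.87 * (3 / 200 * μ) := by
      have : 0 ≤ N / M := by positivity
      nlinarith
    have h6 : P * (1 + κ ^ 2 / 100) * (N / Q) ≤ (1 + κ ^ 2 / 100) * (1 / (1 + 2 / 3 * (κ + μ))) := by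
      calc P * (1 + κ ^ 2 / 100) * (N / Q) = (1 + κ ^ 2 / 100) * (P * (N / Q)) := by ring
        _ ≤ _ := by gcongr
    have h7 : (1 + κ ^ 2 / 100) * (1 / (1 + 2 / 3 * (κ + μ))) ≤ 1 - 11.87 * (3 / 200 * μ) := by
      rw [mul_one_div, div_le_iff₀ (by positivity)]
      nlinarith [mul_nonneg hμ0 hκ, mul_nonneg hμ0 hμ0]
    linarith
  · have h1 : N / M ≤ 1 / 100 := by
      rw [div_le_div_iff₀ hM (by norm_num)]; linarith
    have h2 : P * (N / Q) ≤ 1 / (1 + κ) ^ 2 := by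
      rw [mul_div_assoc', div_le_div_iff₀ hQ (by positivity)]
      linarith
    have h3 : P * (1 + κ ^ 2 / 100) * (N / Q) ≤ (1 + κ ^ 2 / 100) * (1 / (1 + κ) ^ 2) := by
      calc P * (1 + κ ^ 2 / 100) * (N / Q) = (1 + κ ^ 2 / 100) * (P * (N / Q)) := by ring
        _ ≤ _ := by gcongr
    have h4 : (1 + κ ^ 2 / 100) * (1 / (1 + κ) ^ 2) ≤ 1 / 2 := by
      rw [mul_one_div, div_le_iff₀ (by positivity)]
      nlinarith
    have h5 : (P + 2) * (N / M) ≤ 11.87 * (1 / 100) := by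
      have : 0 ≤ N / M := by positivity
      nlinarith
    linarith

/-- The main inequality, in polynomial form. -/
theorem main_ineq (hG : ContDiff ℝ 1 G) (hcs : HasCompactSupport G)
    (hR : ∀ p, G p ≠ 0 → 2 * |p.1| + 20 * |p.2| ≤ 1) :
    100 * qN G ≤ q22 G ∧
    2 * qN G * (q11 G * q22 G - q12 G ^ 2) + Real.pi ^ 2 * qN G * (q11 G + q22 G) * q22 G ≤
      q22 G * (q11 G * q22 G - q12 G ^ 2) := by
  have hGc := hG.continuous
  have cx := continuous_dx hG
  have cy := continuous_dy hG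
  have sx := hcs_dx hcs
  have sy := hcs_dy hcs
  have hN0 : 0 ≤ qN G := integral_nonneg fun p => sq_nonneg _
  have hM0 : 0 ≤ q22 G := integral_nonneg fun p => sq_nonneg _
  have hQexp : ∀ τ : ℝ, ∫ p, (dx G p - τ * dy G p) ^ 2 = q11 G - 2 * τ * q12 G + τ ^ 2 * q22 G := by
    intro τ
    have e : ∀ p, (dx G p - τ * dy G p) ^ 2 = dx G p ^ 2 +
        ((-(2 * τ)) * (dx G p * dy G p) + τ ^ 2 * dy G p ^ 2) := by intro p; ring
    simp_rw [e]
    have i1 : Integrable (fun p => dx G p ^ 2) := int_sq cx sx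
    have i2 : Integrable (fun p => (-(2 * τ)) * (dx G p * dy G p)) :=
      (int_prod cx cy sx).const_mul _
    have i3 : Integrable (fun p => τ ^ 2 * dy G p ^ 2) := (int_sq cy sy).const_mul _
    rw [integral_add3 i1 i2 i3, integral_const_mul, integral_const_mul]
    rw [q11, q12, q22]; ring
  -- inequality D
  have hD : 100 * qN G ≤ q22 G := by
    have h1 := ineqC hG hcs 0
    have h2 : ∫ p : ℝ × ℝ, (p.2 + 0 * p.1) ^ 2 * G p ^ 2 ≤ ∫ p : ℝ × ℝ, (1 / 400) * G p ^ 2 := by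
      refine weighted_le (w1 := fun p : ℝ × ℝ => (p.2 + 0 * p.1) ^ 2) (w2 := fun _ => 1 / 400)
        hcs hR hGc (by fun_prop) (by fun_prop) fun p hp => ?_
      have h3 : |p.2| ≤ 1 / 20 := by have := abs_nonneg p.1; linarith
      have h4 := abs_le.1 h3
      simp only [zero_mul, add_zero]
      nlinarith [h4.1, h4.2]
    rw [integral_const_mul] at h2
    change _ ≤ 1 / 400 * qN G at h2
    rcases eq_or_lt_of_le hN0 with h0 | h0
    · rw [← h0]; linarith
    · by_contra hcon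
      push Not at hcon
      have h5 : qN G ^ 2 ≤ 4 * q22 G * (1 / 400 * qN G) :=
        h1.trans (mul_le_mul_of_nonneg_left h2 (by positivity))
      nlinarith
  refine ⟨hD, ?_⟩
  rcases eq_or_lt_of_le hN0 with h0 | h0
  · rw [← h0]
    -- Cauchy-Schwarz
    have hdisc : ∀ t : ℝ, 0 ≤ q22 G * (t * t) + (-2 * q12 G) * t + q11 G := by
      intro t
      have h1 : 0 ≤ ∫ p, (dx G p - t * dy G p) ^ 2 := integral_nonneg fun p => sq_nonneg _
      rw [hQexp] at h1
      linarith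
    have h3 := discrim_le_zero hdisc
    rw [discrim] at h3
    have h4 : 0 ≤ q11 G * q22 G - q12 G ^ 2 := by linarith
    have := mul_nonneg hM0 h4
    linarith
  · have hM : 0 < q22 G := by linarith
    obtain ⟨τ, hτ⟩ : ∃ τ : ℝ, τ = q12 G / q22 G := ⟨_, rfl⟩
    have hQ0 := hQexp τ
    have hA := ineqA hG hcs hR τ
    have hB := ineqB hG hcs hR τ
    have hC := ineqC hG hcs τ
    rw [hQ0] at hA hB
    obtain ⟨N, hNdef⟩ : ∃ N : ℝ, N = qN G := ⟨_, rfl⟩
    obtain ⟨M, hMdef⟩ : ∃ M : ℝ, M = q22 G := ⟨_, rfl⟩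
    obtain ⟨a, hadef⟩ : ∃ a : ℝ, a = q11 G := ⟨_, rfl⟩
    obtain ⟨b, hbdef⟩ : ∃ b : ℝ, b = q12 G := ⟨_, rfl⟩
    rw [← hNdef, ← hMdef, ← hadef, ← hbdef]
    rw [← hMdef, ← hbdef] at hτ
    rw [← hNdef, ← hMdef, ← hadef, ← hbdef] at hA
    rw [← hMdef, ← hadef, ← hbdef] at hB
    rw [← hNdef, ← hMdef] at hC hD
    rw [← hNdef] at h0
    rw [← hMdef] at hM
    obtain ⟨Dt, hDt⟩ : ∃ Dt : ℝ, Dt = a * M - b ^ 2 := ⟨_, rfl⟩
    rw [← hDt]
    have hQ : a - 2 * τ * b + τ ^ 2 * M = Dt / M := by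
      rw [hτ, hDt]; field_simp; ring
    rw [hQ] at hA hB
    have hpi1 : Real.pi ^ 2 ≤ 9.87 := by nlinarith [Real.pi_lt_d4, Real.pi_pos]
    have hpi2 : 9 ≤ Real.pi ^ 2 := by nlinarith [Real.pi_gt_three]
    obtain ⟨m, hm⟩ : ∃ m : ℝ, m = ∫ p : ℝ × ℝ, (20 * |p.2 + τ * p.1|) * G p ^ 2 := ⟨_, rfl⟩
    have hfin := alg_final (κ := 10 * |τ|) (m := m) h0 hM hpi1 hpi2 (by positivity) hA hD ?_
    · have hQpos : 0 < Dt / M := lt_of_lt_of_le (by positivity) hA
      have hDpos : 0 < Dt := by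
        by_contra hcon
        push Not at hcon
        have := div_nonpos_of_nonpos_of_nonneg hcon hM.le
        linarith
      have e1 : (10 * |τ|) ^ 2 / 100 = τ ^ 2 := by rw [mul_pow, sq_abs]; ring
      rw [e1] at hfin
      have e2 : τ ^ 2 = (a * M - Dt) / M ^ 2 := by rw [hτ, hDt]; field_simp; ring
      rw [e2] at hfin
      have e3 : (Real.pi ^ 2 + 2) * (N / M) + Real.pi ^ 2 * (1 + (a * M - Dt) / M ^ 2) *
          (N / (Dt / M)) = (2 * N * Dt + Real.pi ^ 2 * N * (a + M) * M) / (M * Dt) := by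
        field_simp; ring
      rw [e3, div_le_one (by positivity)] at hfin
      exact hfin
    · intro hk
      have hτ20 : |τ| ≤ 1 / 20 := by linarith
      have hx : ∀ p : ℝ × ℝ, 2 * |p.1| + 20 * |p.2| ≤ 1 → |p.2 + τ * p.1| ≤ 3 / 40 := by
        intro p hp
        have a1 : |p.2 + τ * p.1| ≤ |p.2| + |τ| * |p.1| := by
          rw [← abs_mul]; exact abs_add_le _ _
        have a2 : |p.1| ≤ 1 / 2 := by have := abs_nonneg p.2; linarith
        have a3 : |p.2| ≤ 1 / 20 := by have := abs_nonneg p.1; linarith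
        have a4 : |τ| * |p.1| ≤ 1 / 20 * (1 / 2) := by gcongr
        linarith
      refine ⟨?_, ?_, ?_, ?_⟩
      · rw [hm]; exact integral_nonneg fun p => by positivity
      · have h2 : m ≤ ∫ p : ℝ × ℝ, (3 / 2) * G p ^ 2 := by
          rw [hm]
          refine weighted_le (w1 := fun p : ℝ × ℝ => 20 * |p.2 + τ * p.1|) (w2 := fun _ => 3 / 2)
            hcs hR hGc (by fun_prop) (by fun_prop) fun p hp => ?_
          have := hx p hp
          linarith
        rw [integral_const_mul] at h2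
        rw [hNdef]
        exact h2
      · refine le_trans (le_of_eq ?_) hB
        have e : ∀ p : ℝ × ℝ, Real.pi ^ 2 * (1 + 2 * (20 * |p.2 + τ * p.1| - 10 * |τ|)) * G p ^ 2
            = (Real.pi ^ 2 * (1 - 2 * (10 * |τ|))) * G p ^ 2 +
              (2 * Real.pi ^ 2) * ((20 * |p.2 + τ * p.1|) * G p ^ 2) := by
          intro p; ring
        simp_rw [e]
        have i1 : Integrable (fun p => (Real.pi ^ 2 * (1 - 2 * (10 * |τ|))) * G p ^ 2) :=
          (int_sq hGc hcs).const_mul _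
        have i2 : Integrable (fun p : ℝ × ℝ => (2 * Real.pi ^ 2) *
            ((20 * |p.2 + τ * p.1|) * G p ^ 2)) :=
          (int_wsq (w := fun p : ℝ × ℝ => 20 * |p.2 + τ * p.1|) (by fun_prop) hGc hcs).const_mul _
        rw [integral_add i1 i2, integral_const_mul, integral_const_mul, ← hm, hNdef, qN]
        ring
      · have h2 : ∫ p : ℝ × ℝ, (p.2 + τ * p.1) ^ 2 * G p ^ 2 ≤
            ∫ p : ℝ × ℝ, (3 / 800 * (20 * |p.2 + τ * p.1|)) * G p ^ 2 := by
          refine weighted_le (w1 := fun p : ℝ × ℝ => (p.2 + τ * p.1) ^ 2)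
            (w2 := fun p : ℝ × ℝ => 3 / 800 * (20 * |p.2 + τ * p.1|))
            hcs hR hGc (by fun_prop) (by fun_prop) fun p hp => ?_
          have h3 := hx p hp
          have h4 := abs_nonneg (p.2 + τ * p.1)
          rw [← sq_abs (p.2 + τ * p.1)]
          nlinarith
        simp_rw [mul_assoc (3 / 800 : ℝ)] at h2
        rw [integral_const_mul, ← hm] at h2
        have h5 : N ^ 2 ≤ 4 * M * (3 / 800 * m) :=
          hC.trans (mul_le_mul_of_nonneg_left h2 (by positivity))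
        nlinarith

end Pool.Agent.Lib.MP_9c48c1_an
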