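import Mathlib
import Pool.Agent.Lib.MP_9c48c1_an.Energy
import Pool.Agent.Lib.MP_9c48c1_an.Rhomb

set_option autoImplicit false

/-! The main inequality for admissible functions and for their limits. -/

namespace Pool.Agent.Lib.MP_9c48c1_an

open MeasureTheory Set Filter Topology

/-- The linear map `(a, b) ↦ (a, b)` from `ℝ × ℝ` to `E 2`. -/
noncomputable def LL : ℝ × ℝ →L[ℝ] E 2 :=
  LinearMap.toContinuousLinearMap
    { toFun := fun p => !₂[p.1, p.2]
      map_add' := fun p q => by ext i; fin_cases i <;> simp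
      map_smul' := fun c p => by ext i; fin_cases i <;> simp }

lemma LL_apply (p : ℝ × ℝ) : LL p = !₂[p.1, p.2] := rfl

lemma grad_apply (f : E 2 → ℝ) (x v : E 2) : inner ℝ (gradient f x) v = fderiv ℝ f x v := by
  unfold gradient
  exact InnerProductSpace.toDual_symm_apply

section

variable {f : E 2 → ℝ}

/-- The function on `ℝ × ℝ`. -/
noncomputable def GG (f : E 2 → ℝ) (p : ℝ × ℝ) : ℝ := f (LL p)

lemma GG_contDiff (hf : ContDiff ℝ 1 f) : ContDiff ℝ 1 (GG f) := hf.comp LL.contDiff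

lemma dx_GG (hf : ContDiff ℝ 1 f) (p : ℝ × ℝ) : dx (GG f) p = gradient f (LL p) 0 := by
  have h1 : HasFDerivAt (GG f) ((fderiv ℝ f (LL p)).comp LL) p :=
    (hf.differentiable one_ne_zero _).hasFDerivAt.comp p LL.hasFDerivAt
  unfold dx
  have h2 : LL (1, 0) = !₂[1, 0] := rfl
  rw [h1.fderiv, ContinuousLinearMap.comp_apply, ← grad_apply, inner_two, h2]
  simp

lemma dy_GG (hf : ContDiff ℝ 1 f) (p : ℝ × ℝ) : dy (GG f) p = gradient f (LL p) 1 := by
  have h1 : HasFDerivAt (GG f) ((fderiv ℝ f (LL p)).comp LL) p :=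
    (hf.differentiable one_ne_zero _).hasFDerivAt.comp p LL.hasFDerivAt
  unfold dy
  have h2 : LL (0, 1) = !₂[0, 1] := rfl
  rw [h1.fderiv, ContinuousLinearMap.comp_apply, ← grad_apply, inner_two, h2]
  simp

lemma msq_eq (f : E 2 → ℝ) : msq f = qN (GG f) := integral_E2 _

lemma mom00_eq (hf : ContDiff ℝ 1 f) : mom 0 0 (gradient f) = q11 (GG f) := by
  unfold mom q11
  rw [integral_E2]
  refine integral_congr_ae ?_
  filter_upwards with p
  rw [dx_GG hf, LL_apply]; ring

lemma mom01_eq (hf : ContDiff ℝ 1 f) : mom 0 1 (gradient f) = q12 (GG f) := by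
  unfold mom q12
  rw [integral_E2]
  refine integral_congr_ae ?_
  filter_upwards with p
  rw [dx_GG hf, dy_GG hf, LL_apply]

lemma mom11_eq (hf : ContDiff ℝ 1 f) : mom 1 1 (gradient f) = q22 (GG f) := by
  unfold mom q22
  rw [integral_E2]
  refine integral_congr_ae ?_
  filter_upwards with p
  rw [dy_GG hf, LL_apply]; ring

lemma rhombus_bounded : Bornology.IsBounded rhombus := by
  refine (Metric.isBounded_iff_subset_closedBall 0).2 ⟨1, fun x hx => ?_⟩
  rw [mem_closedBall_zero_iff]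
  have hx' : 2 * |x 0| + 20 * |x 1| < 1 := hx
  have h1 : ‖x‖ ^ 2 ≤ 1 := by
    rw [norm_sq_two]
    have a0 := abs_nonneg (x 0)
    have a1 := abs_nonneg (x 1)
    have b0 : x 0 * x 0 = |x 0| * |x 0| := (abs_mul_abs_self _).symm
    have b1 : x 1 * x 1 = |x 1| * |x 1| := (abs_mul_abs_self _).symm
    rw [b0, b1]
    nlinarith
  nlinarith [norm_nonneg x]

lemma isOpen_rhombus : IsOpen rhombus := by
  refine isOpen_lt ?_ continuous_const
  fun_prop

lemma convex_rhombus : Convex ℝ rhombus := by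
  intro x hx y hy a b ha hb hab
  have hx' : 2 * |x 0| + 20 * |x 1| < 1 := hx
  have hy' : 2 * |y 0| + 20 * |y 1| < 1 := hy
  change 2 * |(a • x + b • y) 0| + 20 * |(a • x + b • y) 1| < 1
  have h : ∀ i, |(a • x + b • y) i| ≤ a * |x i| + b * |y i| := by
    intro i
    have : (a • x + b • y) i = a * x i + b * y i := by simp
    rw [this]
    calc |a * x i + b * y i| ≤ |a * x i| + |b * y i| := abs_add_le _ _
      _ = _ := by rw [abs_mul, abs_mul, abs_of_nonneg ha, abs_of_nonneg hb]
  have h0 := h 0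
  have h1 := h 1
  have h2 : 2 * |(a • x + b • y) 0| + 20 * |(a • x + b • y) 1| ≤
      a * (2 * |x 0| + 20 * |x 1|) + b * (2 * |y 0| + 20 * |y 1|) := by linarith
  refine lt_of_le_of_lt h2 ?_
  rcases eq_or_lt_of_le ha with ha0 | ha0
  · have hb1 : b = 1 := by linarith
    rw [← ha0, hb1]
    linarith
  · have h3 : a * (2 * |x 0| + 20 * |x 1|) < a * 1 := mul_lt_mul_of_pos_left hx' ha0
    have h4 : b * (2 * |y 0| + 20 * |y 1|) ≤ b * 1 := mul_le_mul_of_nonneg_left hy'.le hb
    linarith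

lemma adm_compact {Ω : Set (E 2)} (hΩ : Bornology.IsBounded Ω) (hf : Adm Ω f) :
    HasCompactSupport f :=
  Metric.isCompact_of_isClosed_isBounded (isClosed_tsupport f) (hΩ.subset hf.2)

lemma GG_compact {Ω : Set (E 2)} (hΩ : Bornology.IsBounded Ω) (hf : Adm Ω f) :
    HasCompactSupport (GG f) := by
  have h := adm_compact hΩ hf
  let e : ℝ × ℝ ≃ₜ E 2 :=
    { toFun := LL
      invFun := fun x => (x 0, x 1)
      left_inv := fun p => by simp [LL_apply]
      right_inv := fun x => by rw [LL_apply]; ext i; fin_cases i <;> simp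
      continuous_toFun := LL.continuous
      continuous_invFun := by fun_prop }
  exact h.comp_homeomorph e

lemma gradient_continuous (hf : ContDiff ℝ 1 f) : Continuous (gradient f) := by
  have h : Continuous (fderiv ℝ f) := hf.continuous_fderiv one_ne_zero
  exact (InnerProductSpace.toDual ℝ (E 2)).symm.continuous.comp h

lemma gradient_compact (hcs : HasCompactSupport f) : HasCompactSupport (gradient f) := by
  have h := hcs.fderiv (𝕜 := ℝ)
  exact h.comp_left (g := (InnerProductSpace.toDual ℝ (E 2)).symm) (map_zero _)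

lemma adm_memLp {Ω : Set (E 2)} (hΩ : Bornology.IsBounded Ω) (hf : Adm Ω f) : MemLp f 2 :=
  hf.1.continuous.memLp_of_hasCompactSupport (adm_compact hΩ hf)

lemma adm_grad_memLp {Ω : Set (E 2)} (hΩ : Bornology.IsBounded Ω) (hf : Adm Ω f) :
    MemLp (gradient f) 2 :=
  (gradient_continuous hf.1).memLp_of_hasCompactSupport (gradient_compact (adm_compact hΩ hf))

/-- The main inequality for admissible functions of the rhombus. -/
lemma main_adm (hf : Adm rhombus f) :
    100 * msq f ≤ mom 1 1 (gradient f) ∧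
    2 * msq f * mdet (gradient f) + Real.pi ^ 2 * msq f *
      (mom 0 0 (gradient f) + mom 1 1 (gradient f)) * mom 1 1 (gradient f) ≤
      mom 1 1 (gradient f) * mdet (gradient f) := by
  have h := main_ineq (G := GG f) (GG_contDiff hf.1) (GG_compact rhombus_bounded hf) ?_
  · unfold mdet
    rw [msq_eq, mom00_eq hf.1, mom01_eq hf.1, mom11_eq hf.1]
    exact h
  · intro p hp
    have h1 : LL p ∈ tsupport f := subset_tsupport f hp
    have h2 : LL p ∈ rhombus := hf.2 h1
    have h3 : 2 * |(LL p) 0| + 20 * |(LL p) 1| < 1 := h2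
    rw [LL_apply] at h3
    simp at h3
    exact h3.le

end

/-- Convergence of products in `L²`. -/
lemma tendsto_prod {a b : E 2 → ℝ} {ak bk : ℕ → E 2 → ℝ} (ha : MemLp a 2) (hb : MemLp b 2)
    (hak : ∀ k, MemLp (ak k) 2) (hbk : ∀ k, MemLp (bk k) 2)
    (hta : Tendsto (fun k => eLpNorm (ak k - a) 2 volume) atTop (𝓝 0))
    (htb : Tendsto (fun k => eLpNorm (bk k - b) 2 volume) atTop (𝓝 0)) :
    Tendsto (fun k => ∫ x, ak k x * bk k x) atTop (𝓝 (∫ x, a x * b x)) := by
  have h1 : Tendsto (fun k => (hak k).toLp (ak k)) atTop (𝓝 (ha.toLp a)) := by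
    rw [Lp.tendsto_Lp_iff_tendsto_eLpNorm'']
    exact hta
  have h2 : Tendsto (fun k => (hbk k).toLp (bk k)) atTop (𝓝 (hb.toLp b)) := by
    rw [Lp.tendsto_Lp_iff_tendsto_eLpNorm'']
    exact htb
  have h3 := h1.inner (𝕜 := ℝ) h2
  have h4 : ∀ (u v : E 2 → ℝ) (hu : MemLp u 2) (hv : MemLp v 2),
      inner ℝ (hu.toLp u) (hv.toLp v) = ∫ x, u x * v x := by
    intro u v hu hv
    rw [L2.inner_def]
    refine integral_congr_ae ?_
    filter_upwards [hu.coeFn_toLp, hv.coeFn_toLp] with x hx hy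
    rw [hx, hy]
    simp [mul_comm]
  simpa only [h4] using h3

lemma eLpNorm_comp_le {g : E 2 → E 2} (i : Fin 2) :
    eLpNorm (fun x => g x i) 2 volume ≤ eLpNorm g 2 volume :=
  eLpNorm_mono fun x => PiLp.norm_apply_le (g x) i

/-- The main inequality for `W^{1,2}_0` of the rhombus. -/
lemma main_W0 {f : E 2 → ℝ} {g : E 2 → E 2} (h : MemW0 2 rhombus f g) :
    100 * msq f ≤ mom 1 1 g ∧
    2 * msq f * mdet g + Real.pi ^ 2 * msq f * (mom 0 0 g + mom 1 1 g) * mom 1 1 g ≤
      mom 1 1 g * mdet g := by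
  obtain ⟨hf, hg, u, hu, hlf, hlg⟩ := h
  have e2 : ENNReal.ofReal 2 = 2 := by simp
  rw [e2] at hf hg
  simp only [e2] at hlf hlg
  have huf : ∀ k, MemLp (u k) 2 := fun k => adm_memLp rhombus_bounded (hu k)
  have hug : ∀ k, MemLp (gradient (u k)) 2 := fun k => adm_grad_memLp rhombus_bounded (hu k)
  have t1 : Tendsto (fun k => msq (u k)) atTop (𝓝 (msq f)) := by
    have := tendsto_prod hf hf huf huf hlf hlf
    simpa only [msq, sq] using this
  have hcomp : ∀ i : Fin 2, Tendsto (fun k => eLpNorm ((fun x => gradient (u k) x i) -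
      fun x => g x i) 2 volume) atTop (𝓝 0) := by
    intro i
    refine tendsto_of_tendsto_of_tendsto_of_le_of_le tendsto_const_nhds hlg
      (fun k => bot_le) fun k => ?_
    have := eLpNorm_comp_le (g := gradient (u k) - g) i
    exact this
  have t2 : ∀ i j : Fin 2, Tendsto (fun k => mom i j (gradient (u k))) atTop (𝓝 (mom i j g)) := by
    intro i j
    exact tendsto_prod (memLp_comp hg i) (memLp_comp hg j) (fun k => memLp_comp (hug k) i)
      (fun k => memLp_comp (hug k) j) (hcomp i) (hcomp j)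
  have t3 : Tendsto (fun k => mdet (gradient (u k))) atTop (𝓝 (mdet g)) :=
    ((t2 0 0).mul (t2 1 1)).sub ((t2 0 1).pow 2)
  constructor
  · exact le_of_tendsto_of_tendsto' (t1.const_mul 100) (t2 1 1) fun k => (main_adm (hu k)).1
  · refine le_of_tendsto_of_tendsto' (((t1.const_mul 2).mul t3).add
      (((t1.const_mul (Real.pi ^ 2)).mul ((t2 0 0).add (t2 1 1))).mul (t2 1 1)))
      ((t2 1 1).mul t3) fun k => (main_adm (hu k)).2

lemma msq_pos {f : E 2 → ℝ} (hf : MemLp f 2) (h0 : ¬ f =ᵐ[volume] 0) : 0 < msq f := by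
  have hint : Integrable (fun x => f x ^ 2) := hf.integrable_sq
  have h1 : 0 ≤ msq f := integral_nonneg fun x => sq_nonneg _
  refine lt_of_le_of_ne h1 fun h2 => h0 ?_
  have h3 := (integral_eq_zero_iff_of_nonneg (fun x => sq_nonneg (f x)) hint).1 h2.symm
  filter_upwards [h3] with x hx
  simpa using hx

/-- Strict inequality with the constant `√(2π)` on `W^{1,2}_0` of the rhombus. -/
theorem strict_W0 {f : E 2 → ℝ} {g : E 2 → E 2} (h : MemW0 2 rhombus f g)
    (h0 : ¬ f =ᵐ[volume] 0) : Real.sqrt (2 * Real.pi) * rhs 2 f g < affEnergy 2 g := by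
  have e2 : ENNReal.ofReal 2 = 2 := by simp
  have hf : MemLp f 2 := by have := h.1; rwa [e2] at this
  have hg : MemLp g 2 := by have := h.2.1; rwa [e2] at this
  obtain ⟨h1, h2⟩ := main_W0 h
  have hN := msq_pos hf h0
  have hM : 0 < mom 1 1 g := by linarith
  have ha0 : 0 ≤ mom 0 0 g := integral_nonneg fun x => mul_self_nonneg _
  have hpi : 0 < Real.pi ^ 2 := by positivity
  have hD : 0 < mdet g := by
    by_contra hcon
    push Not at hcon
    have a1 : 0 < Real.pi ^ 2 * msq f * (mom 0 0 g + mom 1 1 g) * mom 1 1 g := by positivity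
    have a2 : 0 < (mom 1 1 g - 2 * msq f) * mdet g := by nlinarith
    have a3 : 0 < mom 1 1 g - 2 * msq f := by linarith
    nlinarith
  have ha : 0 < mom 0 0 g := by
    rcases eq_or_lt_of_le ha0 with h3 | h3
    · exfalso
      unfold mdet at hD
      rw [← h3] at hD
      nlinarith [sq_nonneg (mom 0 1 g)]
    · exact h3
  refine strict_of hg ha hD ?_
  have a1 : 0 < 2 * msq f * mdet g := by positivity
  have a2 : mom 1 1 g * (Real.pi ^ 2 * (msq f * (mom 0 0 g + mom 1 1 g))) <
      mom 1 1 g * mdet g := by nlinarith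
  exact lt_of_mul_lt_mul_left a2 hM.le

lemma adm_memW0 {f : E 2 → ℝ} (hf : Adm rhombus f) : MemW0 2 rhombus f (gradient f) := by
  have e2 : ENNReal.ofReal 2 = 2 := by simp
  refine ⟨by rw [e2]; exact adm_memLp rhombus_bounded hf,
    by rw [e2]; exact adm_grad_memLp rhombus_bounded hf, fun _ => f, fun _ => hf, ?_, ?_⟩
  · simp
  · simp

end Pool.Agent.Lib.MP_9c48c1_an
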