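import Mathlib
import Pool.Agent.Lib.MP_9c48c1_an.Bridge
import Pool.Agent.Lib.MP_9c48c1_an.Test1D

set_option autoImplicit false

/-! Sharpness of the constant for the rhombus. -/

namespace Pool.Agent.Lib.MP_9c48c1_an

open MeasureTheory Set Filter Topology

/-- Positivity of the determinant. -/
lemma mdet_pos {f : E 2 → ℝ} {g : E 2 → E 2} (h : MemW0 2 rhombus f g)
    (h0 : ¬ f =ᵐ[volume] 0) : 0 < msq f ∧ 0 < mom 0 0 g ∧ 0 < mom 1 1 g ∧ 0 < mdet g := by
  have e2 : ENNReal.ofReal 2 = 2 := by simp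
  have hf : MemLp f 2 := by have := h.1; rwa [e2] at this
  obtain ⟨h1, h2⟩ := main_W0 h
  have hN := msq_pos hf h0
  have hM : 0 < mom 1 1 g := by linarith
  have ha0 : 0 ≤ mom 0 0 g := integral_nonneg fun x => mul_self_nonneg _
  have hpi : 0 < Real.pi ^ 2 := by positivity
  have hD : 0 < mdet g := by
    by_contra hcon
    push Not at hcon
    have a1 : 0 < Real.pi ^ 2 * msq f * (mom 0 0 g + mom 1 1 g) * mom 1 1 g := by positivity
    have a3 : 0 < mom 1 1 g - 2 * msq f := by linarith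
    nlinarith
  have ha : 0 < mom 0 0 g := by
    rcases eq_or_lt_of_le ha0 with h3 | h3
    · exfalso
      unfold mdet at hD
      rw [← h3] at hD
      nlinarith [sq_nonneg (mom 0 1 g)]
    · exact h3
  exact ⟨hN, ha, hM, hD⟩

/-- The two-dimensional test function. -/
noncomputable def ff (u v : ℝ → ℝ) (x : E 2) : ℝ := u (x 0) * v (x 1)

lemma ff_contDiff {u v : ℝ → ℝ} (hu : ContDiff ℝ 1 u) (hv : ContDiff ℝ 1 v) :
    ContDiff ℝ 1 (ff u v) := by
  unfold ff
  refine ContDiff.mul (hu.comp ?_) (hv.comp ?_)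
  · fun_prop
  · fun_prop

lemma ff_adm {u v : ℝ → ℝ} (hu : ContDiff ℝ 1 u) (hv : ContDiff ℝ 1 v) {a b : ℝ}
    (ha : ∀ x ∈ tsupport u, |x| ≤ a) (hb : ∀ x ∈ tsupport v, |x| ≤ b)
    (hab : 2 * a + 20 * b < 1) : Adm rhombus (ff u v) := by
  refine ⟨ff_contDiff hu hv, ?_⟩
  have h1 : tsupport (ff u v) ⊆ {x : E 2 | |x 0| ≤ a ∧ |x 1| ≤ b} := by
    refine closure_minimal ?_ ?_
    · intro x hx
      have hx' : u (x 0) * v (x 1) ≠ 0 := hx
      exact ⟨ha _ (subset_tsupport u (left_ne_zero_of_mul hx')),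
        hb _ (subset_tsupport v (right_ne_zero_of_mul hx'))⟩
    · have c0 : Continuous (fun x : E 2 => |x 0|) := by fun_prop
      have c1 : Continuous (fun x : E 2 => |x 1|) := by fun_prop
      exact (isClosed_le c0 continuous_const).inter (isClosed_le c1 continuous_const)
  intro x hx
  obtain ⟨h2, h3⟩ := h1 hx
  change 2 * |x 0| + 20 * |x 1| < 1
  linarith

lemma GG_ff (u v : ℝ → ℝ) (p : ℝ × ℝ) : GG (ff u v) p = u p.1 * v p.2 := by
  unfold GG ff
  rw [LL_apply]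
  simp

lemma dx_ff {u v : ℝ → ℝ} (hu : ContDiff ℝ 1 u) (hv : ContDiff ℝ 1 v) (p : ℝ × ℝ) :
    dx (GG (ff u v)) p = deriv u p.1 * v p.2 := by
  have e : GG (ff u v) = fun p => u p.1 * v p.2 := funext (GG_ff u v)
  unfold dx
  rw [e]
  have h1 : HasFDerivAt (fun p : ℝ × ℝ => u p.1)
      ((ContinuousLinearMap.toSpanSingleton ℝ (deriv u p.1)).comp (ContinuousLinearMap.fst ℝ ℝ ℝ)) p :=
    ((hu.differentiable one_ne_zero p.1).hasDerivAt.hasFDerivAt).comp p hasFDerivAt_fst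
  have h2 : HasFDerivAt (fun p : ℝ × ℝ => v p.2)
      ((ContinuousLinearMap.toSpanSingleton ℝ (deriv v p.2)).comp (ContinuousLinearMap.snd ℝ ℝ ℝ)) p :=
    ((hv.differentiable one_ne_zero p.2).hasDerivAt.hasFDerivAt).comp p hasFDerivAt_snd
  have h3 : HasFDerivAt (fun p : ℝ × ℝ => u p.1 * v p.2) _ p := h1.mul h2
  rw [h3.fderiv]
  simp
  ring

lemma dy_ff {u v : ℝ → ℝ} (hu : ContDiff ℝ 1 u) (hv : ContDiff ℝ 1 v) (p : ℝ × ℝ) :
    dy (GG (ff u v)) p = u p.1 * deriv v p.2 := by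
  have e : GG (ff u v) = fun p => u p.1 * v p.2 := funext (GG_ff u v)
  unfold dy
  rw [e]
  have h1 : HasFDerivAt (fun p : ℝ × ℝ => u p.1)
      ((ContinuousLinearMap.toSpanSingleton ℝ (deriv u p.1)).comp (ContinuousLinearMap.fst ℝ ℝ ℝ)) p :=
    ((hu.differentiable one_ne_zero p.1).hasDerivAt.hasFDerivAt).comp p hasFDerivAt_fst
  have h2 : HasFDerivAt (fun p : ℝ × ℝ => v p.2)
      ((ContinuousLinearMap.toSpanSingleton ℝ (deriv v p.2)).comp (ContinuousLinearMap.snd ℝ ℝ ℝ)) p :=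
    ((hv.differentiable one_ne_zero p.2).hasDerivAt.hasFDerivAt).comp p hasFDerivAt_snd
  have h3 : HasFDerivAt (fun p : ℝ × ℝ => u p.1 * v p.2) _ p := h1.mul h2
  rw [h3.fderiv]
  simp

lemma msq_ff (u v : ℝ → ℝ) : msq (ff u v) = (∫ x, u x ^ 2) * ∫ y, v y ^ 2 := by
  rw [msq_eq, qN, ← integral_prod_mul]
  refine integral_congr_ae ?_
  filter_upwards with p
  rw [GG_ff, mul_pow]

lemma mom00_ff {u v : ℝ → ℝ} (hu : ContDiff ℝ 1 u) (hv : ContDiff ℝ 1 v) :
    mom 0 0 (gradient (ff u v)) = (∫ x, deriv u x ^ 2) * ∫ y, v y ^ 2 := by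
  rw [mom00_eq (ff_contDiff hu hv), q11, ← integral_prod_mul]
  refine integral_congr_ae ?_
  filter_upwards with p
  rw [dx_ff hu hv, mul_pow]

/-- A small bump in one dimension. -/
lemma exists_bump {b : ℝ} (hb : 0 < b) : ∃ v : ℝ → ℝ, ContDiff ℝ 1 v ∧
    (∀ x ∈ tsupport v, |x| ≤ b) ∧ 0 < ∫ y, v y ^ 2 := by
  let w : ContDiffBump (0 : ℝ) := ⟨b / 2, b, by linarith, by linarith⟩
  refine ⟨w, w.contDiff, ?_, ?_⟩
  · intro x hx
    rw [w.tsupport_eq, mem_closedBall_zero_iff, Real.norm_eq_abs] at hx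
    exact hx
  · have hc : Continuous (fun y => w y ^ 2) := (w.continuous).pow 2
    have hcs : HasCompactSupport (fun y => w y ^ 2) :=
      w.hasCompactSupport.comp_left (g := fun t : ℝ => t ^ 2) (by simp)
    refine Continuous.integral_pos_of_hasCompactSupport_nonneg_nonzero hc hcs
      (fun y => sq_nonneg _) (x := 0) ?_
    have : w 0 = 1 := w.one_of_mem_closedBall (by simp [w]; linarith)
    rw [this]; norm_num

lemma ratio_le {A : ℝ} (hA : ∀ f : E 2 → ℝ, Adm rhombus f →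
    A * rhs 2 f (gradient f) ≤ affEnergy 2 (gradient f)) (hA0 : 0 ≤ A) {δ : ℝ} (hδ : 0 < δ) (hδ1 : δ < 1 / 8) :
    A ^ 4 * (1 / 2 - 4 * δ) ≤ 2 * Real.pi ^ 2 := by
  obtain ⟨u, hu, ⟨a, ha0, ha1, hau⟩, hu1, hu2⟩ := exists_test hδ
  obtain ⟨v, hv, hbv, hv0⟩ := exists_bump (b := (1 - 2 * a) / 40) (by linarith)
  have hadm : Adm rhombus (ff u v) := ff_adm hu hv hau hbv (by linarith)
  have hW := adm_memW0 hadm
  have hne : ¬ ff u v =ᵐ[volume] 0 := by
    intro h
    have h1 : msq (ff u v) = 0 := by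
      unfold msq
      refine integral_eq_zero_of_ae ?_
      filter_upwards [h] with x hx
      rw [hx]; simp
    rw [msq_ff] at h1
    have h2 : 0 < ∫ x, u x ^ 2 := by linarith
    have := mul_pos h2 hv0
    linarith
  obtain ⟨hN, h00, h11, hD⟩ := mdet_pos hW hne
  have hg : MemLp (gradient (ff u v)) 2 := adm_grad_memLp rhombus_bounded hadm
  have h1 := hA _ hadm
  have h2 : (A * rhs 2 (ff u v) (gradient (ff u v))) ^ 4 ≤ (affEnergy 2 (gradient (ff u v))) ^ 4 := by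
    refine pow_le_pow_left₀ ?_ h1 4
    rw [rhs_two _ hg]
    positivity
  rw [rhs_pow A _ hg, energy_pow hg h00 hD] at h2
  have h3 : mdet (gradient (ff u v)) ≤ mom 0 0 (gradient (ff u v)) * mom 1 1 (gradient (ff u v)) := by
    unfold mdet
    linarith [sq_nonneg (mom 0 1 (gradient (ff u v)))]
  have hA4 : 0 ≤ A ^ 4 := by positivity
  have h4 : A ^ 4 * msq (ff u v) * mom 1 1 (gradient (ff u v)) ≤
      4 * mom 0 0 (gradient (ff u v)) * mom 1 1 (gradient (ff u v)) := by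
    have h5 : 0 ≤ A ^ 4 * msq (ff u v) * mom 0 0 (gradient (ff u v)) := by positivity
    nlinarith
  have h5 : A ^ 4 * msq (ff u v) ≤ 4 * mom 0 0 (gradient (ff u v)) :=
    le_of_mul_le_mul_right h4 h11
  rw [msq_ff, mom00_ff hu hv] at h5
  have h6 : (A ^ 4 * ∫ x, u x ^ 2) * ∫ y, v y ^ 2 ≤ (4 * ∫ x, deriv u x ^ 2) * ∫ y, v y ^ 2 := by
    calc _ = A ^ 4 * ((∫ x, u x ^ 2) * ∫ y, v y ^ 2) := by ring
      _ ≤ 4 * ((∫ x, deriv u x ^ 2) * ∫ y, v y ^ 2) := h5
      _ = _ := by ring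
  have h7 := le_of_mul_le_mul_right h6 hv0
  have h8 : A ^ 4 * (1 / 2 - 4 * δ) ≤ A ^ 4 * ∫ x, u x ^ 2 := mul_le_mul_of_nonneg_left hu2 hA4
  linarith

/-- The best constant of the rhombus. -/
theorem best_const : IsBestConst 2 rhombus (Real.sqrt (2 * Real.pi)) := by
  constructor
  · intro f hf
    by_cases h0 : f =ᵐ[volume] 0
    · have h1 : f = 0 := (Continuous.ae_eq_iff_eq volume hf.1.continuous continuous_zero).1 h0
      have hg : MemLp (gradient f) 2 := adm_grad_memLp rhombus_bounded hf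
      have h2 : msq f = 0 := by rw [h1]; simp [msq]
      rw [rhs_two _ hg, h2]
      simp only [Real.sqrt_zero, zero_mul, mul_zero]
      unfold affEnergy cnp
      refine mul_nonneg ?_ (Real.rpow_nonneg (integral_nonneg fun ξ => ?_) _)
      · have h3 : ((2 : ℕ) : ℝ) = 2 := by norm_num
        rw [h3]
        have e1 : (2 : ℝ) - 1 = 1 := by norm_num
        have e2 : (2 : ℝ) + 2 - 2 = 2 := by norm_num
        rw [e1, e2, omega_two, omega_one]
        have := Real.pi_pos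
        positivity
      · refine Real.rpow_nonneg ?_ _
        exact Real.rpow_nonneg (integral_nonneg fun x => Real.rpow_nonneg (abs_nonneg _) _) _
    · exact (strict_W0 (adm_memW0 hf) h0).le
  · intro A hA
    rcases le_or_gt A 0 with hA0 | hA0
    · exact hA0.trans (Real.sqrt_nonneg _)
    · have h1 : A ^ 4 * (1 / 2) ≤ 2 * Real.pi ^ 2 := by
        have h2 : Tendsto (fun δ : ℝ => A ^ 4 * (1 / 2 - 4 * δ)) (𝓝[>] 0) (𝓝 (A ^ 4 * (1 / 2 - 4 * 0))) := by
          have : Continuous (fun δ : ℝ => A ^ 4 * (1 / 2 - 4 * δ)) := by fun_prop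
          exact (this.tendsto 0).mono_left nhdsWithin_le_nhds
        have h3 : A ^ 4 * (1 / 2 - 4 * 0) ≤ 2 * Real.pi ^ 2 := by
          refine le_of_tendsto h2 ?_
          filter_upwards [Ioo_mem_nhdsGT (show (0 : ℝ) < 1 / 8 by norm_num)] with δ hδ
          exact ratio_le hA hA0.le hδ.1 hδ.2
        linarith
      have h2 : A ^ 4 ≤ (Real.sqrt (2 * Real.pi)) ^ 4 := by
        rw [sqrt_two_pi_pow]; linarith
      exact le_of_pow_le_pow_left₀ (by norm_num) (Real.sqrt_nonneg _) h2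

end Pool.Agent.Lib.MP_9c48c1_an
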